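import Pool.Agent.Lib.EFP.Defs

set_option autoImplicit false

/-!
# EFP.Cap: volume of a spherical cap of a ball

PROOF. If `‖t‖ ≤ R` and `u ≤ ⟪t, v⟫` with `u ≥ 0`, then
`‖t - u v‖ ^ 2 = ‖t‖ ^ 2 - 2 u ⟪t, v⟫ + u ^ 2 ≤ R ^ 2 - u ^ 2`. Hence the set is empty if `u > R`
(indeed `⟪t, v⟫ ≤ ‖t‖ ≤ R`), and otherwise it is contained in the closed ball with centre `u v` and
radius `√(R^2-u^2) = R √(1 - u^2/R^2) ≤ R exp (-u^2/(2R^2))` (use `Real.add_one_le_exp` with
`x = -u^2/R^2`, then take square roots). Its measure is at most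
`(exp (-u^2/(2R^2)))^(finrank W) * μ (closedBall 0 R)`
(`MeasureTheory.Measure.addHaar_closedBall`, translation invariance, monotonicity of the radius).
-/

namespace Pool.Agent.EFP

open MeasureTheory Metric
open scoped RealInnerProductSpace

theorem cap {W : Type} [NormedAddCommGroup W] [InnerProductSpace ℝ W] [FiniteDimensional ℝ W]
    [MeasurableSpace W] [BorelSpace W] (μ : Measure W) [μ.IsAddHaarMeasure] (v : W)
    (hv : ‖v‖ = 1) {R u : ℝ} (hR : 0 < R) (hu : 0 ≤ u) :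
    μ {t | ‖t‖ ≤ R ∧ u ≤ ⟪t, v⟫} ≤
      ENNReal.ofReal (Real.exp (-(u ^ 2 * Module.finrank ℝ W / (2 * R ^ 2)))) *
        μ (closedBall 0 R) := by
  by_cases huR : R < u
  · have hemp : {t : W | ‖t‖ ≤ R ∧ u ≤ ⟪t, v⟫} = ∅ := by
      ext t
      simp only [Set.mem_setOf_eq, Set.mem_empty_iff_false, iff_false, not_and, not_le]
      intro ht
      have h1 : ⟪t, v⟫ ≤ ‖t‖ * ‖v‖ := real_inner_le_norm t v
      rw [hv, mul_one] at h1
      linarith
    rw [hemp]
    simp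
  · push Not at huR
    set ρ : ℝ := R * Real.exp (-(u ^ 2 / (2 * R ^ 2))) with hρ
    have hρ0 : 0 ≤ ρ := by positivity
    have hsub : {t : W | ‖t‖ ≤ R ∧ u ≤ ⟪t, v⟫} ⊆ closedBall (u • v) ρ := by
      intro t ht
      obtain ⟨ht1, ht2⟩ := ht
      rw [mem_closedBall, dist_eq_norm]
      have h1 : ‖t - u • v‖ ^ 2 = ‖t‖ ^ 2 - 2 * (u * ⟪t, v⟫) + u ^ 2 := by
        rw [norm_sub_sq_real, inner_smul_right, norm_smul, hv, mul_one, Real.norm_eq_abs, sq_abs]
      have h2 : ‖t - u • v‖ ^ 2 ≤ R ^ 2 - u ^ 2 := by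
        rw [h1]
        have h3 : ‖t‖ ^ 2 ≤ R ^ 2 := by
          have := norm_nonneg t
          nlinarith
        nlinarith [mul_le_mul_of_nonneg_left ht2 hu]
      have h4 : R ^ 2 - u ^ 2 ≤ ρ ^ 2 := by
        have h5 : ρ ^ 2 = R ^ 2 * Real.exp (-(u ^ 2 / R ^ 2)) := by
          rw [hρ, mul_pow, ← Real.exp_nat_mul]
          congr 2
          push_cast
          field_simp
        have h6 : -(u ^ 2 / R ^ 2) + 1 ≤ Real.exp (-(u ^ 2 / R ^ 2)) := Real.add_one_le_exp _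
        rw [h5]
        have h7 : R ^ 2 * (-(u ^ 2 / R ^ 2) + 1) = R ^ 2 - u ^ 2 := by
          field_simp
          ring
        have h8 : 0 ≤ R ^ 2 := by positivity
        nlinarith [mul_le_mul_of_nonneg_left h6 h8]
      exact abs_le_of_sq_le_sq' (h2.trans h4) hρ0 |>.2
    have hfin : Real.exp (-(u ^ 2 * Module.finrank ℝ W / (2 * R ^ 2)))
        = (Real.exp (-(u ^ 2 / (2 * R ^ 2)))) ^ (Module.finrank ℝ W) := by
      rw [← Real.exp_nat_mul]
      congr 1
      ring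
    calc μ {t : W | ‖t‖ ≤ R ∧ u ≤ ⟪t, v⟫} ≤ μ (closedBall (u • v) ρ) := measure_mono hsub
      _ = ENNReal.ofReal (ρ ^ Module.finrank ℝ W) * μ (closedBall 0 1) := by
          rw [Measure.addHaar_closedBall' μ _ hρ0]
      _ = ENNReal.ofReal (Real.exp (-(u ^ 2 * Module.finrank ℝ W / (2 * R ^ 2)))) *
            (ENNReal.ofReal (R ^ Module.finrank ℝ W) * μ (closedBall 0 1)) := by
          rw [← mul_assoc, ← ENNReal.ofReal_mul (Real.exp_pos _).le, hfin, hρ, mul_pow,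
            mul_comm (R ^ _)]
      _ = _ := by
          rw [Measure.addHaar_closedBall' μ (0 : W) hR.le]

end Pool.Agent.EFP
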