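import Pool.Agent.Lib.EFP.Polar

set_option autoImplicit false

/-!
# EFP.CondY: the frame condition bounds the symmetrised form

PROOF. Let `w` be the vector given by `Cond` for `F`. By homogeneity (`G_smul_left` with
`q = r + 1`) every `z : E k` satisfies `|G t (A z) F - ‖z‖^(r-1) ⟪z, w⟫| ≤ ε ‖z‖^r` (for `z = 0`:
`G t 0 F = 0`). For `s : Fin r → Bool` let `z_s = ∑ j, sgn (s j) • x j`; by orthonormality
`‖z_s‖^2 = r`. By `polar` (take the inner product with `t`)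
`2^r ⟪t, Yp (Fin.cons F (A ∘ x))⟫ = ∑_s (∏_j sgn (s j)) G t (A z_s) F`. The main term is
`(√r)^(r-1) ∑_s (∏_j sgn (s j)) ⟪z_s, w⟫ = (√r)^(r-1) ∑_i ⟪x i, w⟫ ∑_s (∏_j sgn (s j)) sgn (s i) = 0`,
because `r ≥ 2`: there is `j₀ ≠ i` and the sum over the sign of `j₀` vanishes (or:
`∑_s ∏_j g j (s j) = ∏_j ∑_b g j b` with a factor `∑_b sgn b = 0`). The error is at most
`2^r ε (√r)^r ≤ 2^r ε r^r`.
-/

namespace Pool.Agent.EFP

open scoped RealInnerProductSpace

private theorem condY_sgn_sq (b : Bool) : sgn b * sgn b = 1 := by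
  cases b <;> simp [sgn]

private theorem condY_abs_sgn (b : Bool) : |sgn b| = 1 := by
  cases b <;> simp [sgn]

private theorem condY_sum_zero {r : ℕ} (hr : 2 ≤ r) (i : Fin r) :
    ∑ s : Fin r → Bool, (∏ j, sgn (s j)) * sgn (s i) = 0 := by
  classical
  have h1 : ∀ s : Fin r → Bool, (∏ j, sgn (s j)) * sgn (s i) =
      ∏ j, (sgn (s j) * (if j = i then sgn (s j) else 1)) := by
    intro s
    rw [Finset.prod_mul_distrib]
    congr 1
    rw [Finset.prod_ite_eq' Finset.univ i (fun j => sgn (s j))]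
    simp
  rw [Finset.sum_congr rfl fun s _ => h1 s]
  have h2 := (Finset.prod_univ_sum (fun _ : Fin r => (Finset.univ : Finset Bool))
    (fun j b => sgn b * (if j = i then sgn b else 1))).symm
  rw [Fintype.piFinset_univ] at h2
  rw [h2]
  obtain ⟨j₀, hj₀⟩ : ∃ j₀ : Fin r, j₀ ≠ i := by
    by_cases h : (i : ℕ) = 0
    · exact ⟨⟨1, by omega⟩, fun h' => by rw [← h'] at h; simp at h⟩
    · exact ⟨⟨0, by omega⟩, fun h' => by rw [← h'] at h; simp at h⟩
  refine Finset.prod_eq_zero (Finset.mem_univ j₀) ?_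
  simp [hj₀, sgn]

private theorem condY_hom {r n k : ℕ} (hr : 2 ≤ r) {ε : ℝ} {t : V (r + 1) n}
    {A : E k →L[ℝ] E n} {F : E n} {w : E k}
    (hw : ∀ x : E k, ‖x‖ = 1 → |G t (A x) F - ⟪x, w⟫| ≤ ε) (z : E k) (ρ : ℝ) (hρ : 0 < ρ)
    (hz : ‖z‖ = ρ) : |G t (A z) F - ρ ^ (r - 1) * ⟪z, w⟫| ≤ ε * ρ ^ r := by
  have hu : ‖ρ⁻¹ • z‖ = 1 := by
    rw [norm_smul, hz, norm_inv, Real.norm_of_nonneg hρ.le, inv_mul_cancel₀ hρ.ne']
  have h := hw (ρ⁻¹ • z) hu
  have e1 : G t (A z) F = ρ ^ r * G t (A (ρ⁻¹ • z)) F := by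
    have h2 := G_smul_left t (A (ρ⁻¹ • z)) F ρ
    rw [← map_smul, smul_smul, mul_inv_cancel₀ hρ.ne', one_smul] at h2
    simpa using h2
  have e2 : ρ ^ (r - 1) * ⟪z, w⟫ = ρ ^ r * ⟪ρ⁻¹ • z, w⟫ := by
    rw [real_inner_smul_left]
    obtain ⟨m, rfl⟩ : ∃ m, r = m + 1 := ⟨r - 1, by omega⟩
    simp only [Nat.add_sub_cancel]
    rw [pow_succ]
    field_simp
  rw [e1, e2, ← mul_sub, abs_mul, abs_of_pos (pow_pos hρ r), mul_comm ε]
  exact mul_le_mul_of_nonneg_left h (pow_pos hρ r).le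

theorem condY {r n k : ℕ} (hr : 2 ≤ r) {ε : ℝ} (hε : 0 ≤ ε) {t : V (r + 1) n}
    {A : E k →L[ℝ] E n} (hA : ∀ x, ‖A x‖ = ‖x‖) (hC : Cond ε t A) (x : Fin r → E k)
    (hx : Orthonormal ℝ x) (F : E n) (hF : ‖F‖ = 1) (hAF : ∀ z, ⟪A z, F⟫ = 0) :
    |⟪t, Yp (Fin.cons F fun j => A (x j) : Fin (r + 1) → E n)⟫| ≤ (r : ℝ) ^ r * ε := by
  classical
  obtain ⟨w, hw⟩ := hC F hF hAF
  have hr0 : (0 : ℝ) < r := by exact_mod_cast (by omega : 0 < r)
  have hρ : 0 < Real.sqrt r := Real.sqrt_pos.2 hr0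
  -- norms of the sign sums
  have hz : ∀ s : Fin r → Bool, ‖∑ j, sgn (s j) • x j‖ = Real.sqrt r := by
    intro s
    rw [eq_comm, Real.sqrt_eq_iff_mul_self_eq hr0.le (norm_nonneg _)]
    rw [← real_inner_self_eq_norm_mul_norm, hx.inner_sum]
    simp only [conj_trivial, condY_sgn_sq, Finset.sum_const, Finset.card_univ, Fintype.card_fin,
      nsmul_eq_mul, mul_one]
  have key := congrArg (fun v => ⟪t, v⟫) (polar (fun j => A (x j)) F)
  simp only [inner_sum, real_inner_smul_right] at key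
  have hG : ∀ s : Fin r → Bool, ⟪t, slot (r + 1) (∑ j, sgn (s j) • A (x j)) F⟫ =
      G t (A (∑ j, sgn (s j) • x j)) F := by
    intro s
    rw [G, map_sum]
    simp only [map_smul]
  simp only [hG] at key
  -- the main term vanishes
  have hmain : ∑ s : Fin r → Bool, (∏ j, sgn (s j)) *
      (Real.sqrt r ^ (r - 1) * ⟪∑ j, sgn (s j) • x j, w⟫) = 0 := by
    have h1 : ∀ s : Fin r → Bool, (∏ j, sgn (s j)) *
        (Real.sqrt r ^ (r - 1) * ⟪∑ j, sgn (s j) • x j, w⟫) =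
        ∑ i, Real.sqrt r ^ (r - 1) * ⟪x i, w⟫ * ((∏ j, sgn (s j)) * sgn (s i)) := by
      intro s
      rw [sum_inner, Finset.mul_sum, Finset.mul_sum]
      refine Finset.sum_congr rfl fun i _ => ?_
      rw [real_inner_smul_left]
      ring
    rw [Finset.sum_congr rfl fun s _ => h1 s, Finset.sum_comm]
    refine Finset.sum_eq_zero fun i _ => ?_
    rw [← Finset.mul_sum, condY_sum_zero hr i, mul_zero]
  have hbound : |∑ s : Fin r → Bool, (∏ j, sgn (s j)) * G t (A (∑ j, sgn (s j) • x j)) F| ≤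
      2 ^ r * (ε * Real.sqrt r ^ r) := by
    have h2 : ∑ s : Fin r → Bool, (∏ j, sgn (s j)) * G t (A (∑ j, sgn (s j) • x j)) F =
        ∑ s : Fin r → Bool, (∏ j, sgn (s j)) * (G t (A (∑ j, sgn (s j) • x j)) F -
          Real.sqrt r ^ (r - 1) * ⟪∑ j, sgn (s j) • x j, w⟫) := by
      simp only [mul_sub, Finset.sum_sub_distrib]
      rw [hmain, sub_zero]
    rw [h2]
    refine (Finset.abs_sum_le_sum_abs _ _).trans ?_
    refine (Finset.sum_le_sum (g := fun _ => ε * Real.sqrt r ^ r) fun s _ => ?_).trans ?_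
    · rw [abs_mul, Finset.abs_prod]
      simp only [condY_abs_sgn, Finset.prod_const_one, one_mul]
      exact condY_hom hr hw _ _ hρ (hz s)
    · rw [Finset.sum_const, Finset.card_univ, nsmul_eq_mul]
      simp [Fintype.card_bool]
  rw [key] at hbound
  have h2r : (0 : ℝ) < 2 ^ r := by positivity
  rw [abs_mul, abs_of_pos h2r] at hbound
  have h3 := le_of_mul_le_mul_left hbound h2r
  refine h3.trans ?_
  rw [mul_comm ε]
  refine mul_le_mul_of_nonneg_right ?_ hε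
  refine pow_le_pow_left₀ hρ.le ?_ r
  rw [Real.sqrt_le_left hr0.le]
  have : (1 : ℝ) ≤ r := by exact_mod_cast (by omega : 1 ≤ r)
  nlinarith

end Pool.Agent.EFP
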