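import Mathlib

set_option autoImplicit false

/-!
# EFP.Defs: tensors, the slot form, the frame condition

`E n` is Euclidean `n`-space, `V q n` the space of `q`-tensors on it (coordinates indexed by
`Fin q → Fin n`, Hilbert-Schmidt norm), `X x` the elementary tensor `x 0 ⊗ ... ⊗ x (q-1)`,
`T t x = ⟪t, X x⟫` the `q`-linear form of the tensor `t`, `slot v f` the sum over the `q` slots of the
elementary tensor with `f` in this slot and `v` in all the others, `G t v f = ⟪t, slot v f⟫`.
-/

namespace Pool.Agent.EFP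

open scoped RealInnerProductSpace

/-- Euclidean `n`-space. -/
abbrev E (n : ℕ) : Type := EuclideanSpace ℝ (Fin n)

/-- The `q`-tensors on `E n`. -/
abbrev V (q n : ℕ) : Type := EuclideanSpace ℝ (Fin q → Fin n)

/-- The elementary tensor. -/
noncomputable def X {q n : ℕ} (x : Fin q → E n) : V q n :=
  WithLp.toLp 2 (fun i => ∏ j, (x j) (i j))

/-- The multilinear form of a tensor. -/
noncomputable def T {q n : ℕ} (t : V q n) (x : Fin q → E n) : ℝ := ⟪t, X x⟫

/-- `f` in one slot, `v` in all others, summed over the slots. -/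
noncomputable def slot (q : ℕ) {n : ℕ} (v f : E n) : V q n :=
  ∑ j : Fin q, X (Function.update (fun _ => v) j f)

/-- The derivative form `G t v f = d/ds T t (v + s f, ..., v + s f)` at `s = 0`. -/
noncomputable def G {q n : ℕ} (t : V q n) (v f : E n) : ℝ := ⟪t, slot q v f⟫

/-- The frame condition for an (isometric) linear map `A : E k → E n`: for every unit vector `f`
orthogonal to the range of `A` the function `x ↦ G t (A x) f` is within `ε` of a linear function on
the unit sphere. -/
def Cond {q n k : ℕ} (ε : ℝ) (t : V q n) (A : E k →L[ℝ] E n) : Prop :=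
  ∀ f : E n, ‖f‖ = 1 → (∀ x, ⟪A x, f⟫ = 0) →
    ∃ w : E k, ∀ x : E k, ‖x‖ = 1 → |G t (A x) f - ⟪x, w⟫| ≤ ε

/-- The bound `|T t x| ≤ B ∏ ‖x j‖`. -/
def Bdd {q n : ℕ} (B : ℝ) (t : V q n) : Prop := ∀ x : Fin q → E n, |T t x| ≤ B * ∏ j, ‖x j‖

/-- The homogeneous function of degree `q` whose `q`-th root is the norm. -/
noncomputable def Q {q n : ℕ} (η : ℝ) (t : V q n) (x : E n) : ℝ := ‖x‖ ^ q + η * T t (fun _ => x)

end Pool.Agent.EFP
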