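import Pool.Agent.Lib.EFP.Defs
import Pool.Agent.Lib.P06184b.Pack

set_option autoImplicit false

/-!
# EFP.NetIso: a net of the isometric maps `E k → E n`
-/

namespace Pool.Agent.EFP

theorem netIso (n k : ℕ) (ε₁ : ℝ) (h : 0 < ε₁) : ∃ Y : Finset (E k →L[ℝ] E n),
    (∀ A ∈ Y, ∀ x, ‖A x‖ = ‖x‖) ∧ (Y.card : ℝ) ≤ (1 + 2 / ε₁) ^ (k * n) ∧
      ∀ A : E k →L[ℝ] E n, (∀ x, ‖A x‖ = ‖x‖) → ∃ A' ∈ Y, ‖A - A'‖ ≤ ε₁ := by
  have hfr : Module.finrank ℝ (E k →L[ℝ] E n) = k * n := by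
    rw [← (LinearMap.toContinuousLinearMap (𝕜 := ℝ) (E := E k) (F' := E n)).finrank_eq,
      Module.finrank_linearMap]
    simp
  obtain ⟨Y, hY1, hY2, hY3⟩ := P06184b.exists_net {A : E k →L[ℝ] E n | ∀ x, ‖A x‖ = ‖x‖}
    (fun A hA => A.opNorm_le_bound zero_le_one (fun x => by rw [one_mul, hA x])) ε₁ h
  refine ⟨Y, fun A hA => hY1 hA, ?_, fun A hA => hY3 A hA⟩
  rw [hfr] at hY2
  exact hY2

end Pool.Agent.EFP
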