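import Pool.Agent.Lib.EFP.XInner

set_option autoImplicit false

/-!
# EFP.Transfer: the frame condition for nearby frames

PROOF. (0) For `‖v‖, ‖v'‖ ≤ 1`: `|G t v f - G t v' f| ≤ q^2 B ‖v-v'‖ ‖f‖`. By `G_eq_sum` it is enough
to show for each slot `j` that
`|T t (update (fun _ => v) j f) - T t (update (fun _ => v') j f)| ≤ q B ‖v-v'‖ ‖f‖`; for `f ≠ 0`
this is `MultilinearMap.norm_image_sub_le_of_bound'` / `norm_image_sub_le_of_bound` (scale `f` to
norm one first), or change the slots one after the other.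

(1) Let `‖f'‖ = 1` be orthogonal to the range of `A'`. Let `g = ∑ i ⟪A b_i, f'⟫ A b_i` with `b_i` the
standard basis of `E k` (or `g = A (adjoint A f')`, or the orthogonal projection of `f'` on the
range of `A`) and `f = f' - g`; `f` is orthogonal to the range of `A`, `‖f‖ ≤ 1`. As
`|⟪A x, f'⟫| = |⟪(A - A') x, f'⟫| ≤ ε₁ ‖x‖`, `‖g‖ ≤ ε₁` (take `x` with `A x = g`,
`‖g‖^2 = ⟪g, f'⟫ ≤ ε₁ ‖x‖ = ε₁ ‖g‖`). So `‖f‖ ≥ 1 - ε₁ > 0`.

(2) Apply `Cond` to `f/‖f‖`: there is `w` with `|G t (A x) f - ⟪x, ‖f‖ w⟫| ≤ ε ‖f‖ ≤ ε`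
(`ε ≥ 0` if `k ≥ 1`; for `k = 0` there is no `x` of norm one and nothing to prove).

(3) `|G t (A' x) f' - G t (A x) f'| ≤ q^2 B ε₁` by (0) (`‖A' x - A x‖ ≤ ε₁`),
`|G t (A x) (f' - f)| = |G t (A x) g| ≤ q B ε₁ ≤ q^2 B ε₁` (`abs_G_le`; `B ≥ 0` because
`0 ≤ |T t (fun _ => f')| ≤ B`). Sum up; the witness is `‖f‖ w`.
-/

namespace Pool.Agent.EFP

open scoped RealInnerProductSpace

private theorem slot_lip {q n : ℕ} {B : ℝ} {t : V q n} (hB : Bdd B t) (hB0 : 0 ≤ B)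
    (v v' f : E n) (hv : ‖v‖ ≤ 1) (hv' : ‖v'‖ ≤ 1) (hf : ‖f‖ ≤ 1) (j : Fin q) :
    |T t (Function.update (fun _ => v) j f) - T t (Function.update (fun _ => v') j f)|
      ≤ B * q * ‖v - v'‖ := by
  have key := (TM t).norm_image_sub_le_of_bound hB0 (fun m => by
      simpa [Real.norm_eq_abs] using hB m)
      (Function.update (fun _ => v) j f) (Function.update (fun _ => v') j f)
  rw [Real.norm_eq_abs] at key
  simp only [TM_apply] at key
  refine key.trans ?_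
  rw [Fintype.card_fin]
  have h1 : ∀ z : E n, ‖z‖ ≤ 1 → ‖(Function.update (fun _ => z) j f : Fin q → E n)‖ ≤ 1 := by
    intro z hz
    rw [pi_norm_le_iff_of_nonneg zero_le_one]
    intro i
    by_cases hi : i = j
    · subst hi; simpa using hf
    · rw [Function.update_of_ne hi]; exact hz
  have h2 : max ‖(Function.update (fun _ => v) j f : Fin q → E n)‖
      ‖(Function.update (fun _ => v') j f : Fin q → E n)‖ ≤ 1 := max_le (h1 v hv) (h1 v' hv')
  have h3 : ‖(Function.update (fun _ => v) j f : Fin q → E n) - Function.update (fun _ => v') j f‖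
      ≤ ‖v - v'‖ := by
    rw [pi_norm_le_iff_of_nonneg (norm_nonneg _)]
    intro i
    by_cases hi : i = j
    · subst hi; simp
    · simp [Function.update_of_ne hi]
  have h4 : max ‖(Function.update (fun _ => v) j f : Fin q → E n)‖
      ‖(Function.update (fun _ => v') j f : Fin q → E n)‖ ^ (q - 1) ≤ 1 :=
    pow_le_one₀ (le_max_of_le_left (norm_nonneg _)) h2
  have h5 : 0 ≤ max ‖(Function.update (fun _ => v) j f : Fin q → E n)‖
      ‖(Function.update (fun _ => v') j f : Fin q → E n)‖ ^ (q - 1) :=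
    pow_nonneg (le_max_of_le_left (norm_nonneg _)) _
  have h6 : 0 ≤ B * (q : ℝ) := mul_nonneg hB0 (Nat.cast_nonneg _)
  refine (mul_le_mul (mul_le_mul_of_nonneg_left h4 h6) h3 (norm_nonneg _) ?_).trans ?_
  · rw [mul_one]; exact h6
  · rw [mul_one]

private theorem G_lip {q n : ℕ} {B : ℝ} {t : V q n} (hB : Bdd B t) (hB0 : 0 ≤ B)
    (v v' f : E n) (hv : ‖v‖ ≤ 1) (hv' : ‖v'‖ ≤ 1) (hf : ‖f‖ ≤ 1) :
    |G t v f - G t v' f| ≤ q ^ 2 * B * ‖v - v'‖ := by
  rw [G_eq_sum, G_eq_sum, ← Finset.sum_sub_distrib]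
  refine (Finset.abs_sum_le_sum_abs _ _).trans ?_
  refine (Finset.sum_le_sum fun j _ => slot_lip hB hB0 v v' f hv hv' hf j).trans ?_
  rw [Finset.sum_const, Finset.card_univ, Fintype.card_fin, nsmul_eq_mul]
  apply le_of_eq
  ring

theorem transfer {q n k : ℕ} {B ε ε₁ : ℝ} {t : V q n} (hB : Bdd B t) (A A' : E k →L[ℝ] E n)
    (hA : ∀ x, ‖A x‖ = ‖x‖) (hA' : ∀ x, ‖A' x‖ = ‖x‖) (h : ‖A - A'‖ ≤ ε₁) (h₁ : ε₁ < 1)
    (hC : Cond ε t A) : Cond (ε + 2 * q ^ 2 * B * ε₁) t A' := by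
  intro f' hf' horth
  have hB0 : 0 ≤ B := by
    have := hB (fun _ => f')
    simp only [hf', Finset.prod_const_one, mul_one] at this
    exact (abs_nonneg _).trans this
  have hε₁ : 0 ≤ ε₁ := (norm_nonneg _).trans h
  have hinner : ∀ x y, ⟪A x, A y⟫ = ⟪x, y⟫ := by
    intro x y
    exact (LinearIsometry.mk (A : E k →ₗ[ℝ] E n) hA).inner_map_map x y
  have hdiff : ∀ x, ‖A x - A' x‖ ≤ ε₁ * ‖x‖ := by
    intro x
    have := (A - A').le_opNorm x
    rw [sub_apply] at this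
    exact this.trans (mul_le_mul_of_nonneg_right h (norm_nonneg _))
  obtain ⟨u, hu⟩ : ∃ u : E k, ∀ x, ⟪A x, f'⟫ = ⟪x, u⟫ :=
    ⟨ContinuousLinearMap.adjoint A f', fun x => (ContinuousLinearMap.adjoint_inner_right A x f').symm⟩
  have hun : ‖u‖ ≤ ε₁ := by
    have e1 : ‖u‖ ^ 2 = ⟪A u - A' u, f'⟫ := by
      rw [inner_sub_left, horth u, sub_zero, hu, real_inner_self_eq_norm_sq]
    have e2 : ⟪A u - A' u, f'⟫ ≤ ε₁ * ‖u‖ := by
      refine (real_inner_le_norm _ _).trans ?_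
      rw [hf', mul_one]
      exact hdiff u
    rw [← e1] at e2
    by_contra hcon
    push Not at hcon
    have hpos : 0 < ‖u‖ := lt_of_le_of_lt hε₁ hcon
    nlinarith
  set g : E n := A u with hg
  have hgn : ‖g‖ = ‖u‖ := hA u
  set f : E n := f' - g with hf
  have horf : ∀ x, ⟪A x, f⟫ = 0 := by
    intro x
    rw [hf, inner_sub_right, hu, hg, hinner, sub_self]
  have hfle : ‖f‖ ≤ 1 := by
    have e : ‖f'‖ ^ 2 = ‖f‖ ^ 2 + ‖g‖ ^ 2 := by
      have e0 : f' = f + g := by rw [hf]; abel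
      have e1 : ⟪f, g⟫ = 0 := by rw [real_inner_comm, hg]; exact horf u
      rw [e0, norm_add_sq_real, e1]
      ring
    rw [hf'] at e
    nlinarith [norm_nonneg f, sq_nonneg ‖g‖]
  have hfpos : 0 < ‖f‖ := by
    have : ‖f'‖ ≤ ‖f‖ + ‖g‖ := by
      have e0 : f' = f + g := by rw [hf]; abel
      calc ‖f'‖ = ‖f + g‖ := by rw [← e0]
        _ ≤ _ := norm_add_le _ _
    rw [hf', hgn] at this
    linarith
  obtain ⟨w, hw⟩ := hC (‖f‖⁻¹ • f) (by
    rw [norm_smul, norm_inv, norm_norm, inv_mul_cancel₀ hfpos.ne']) (by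
    intro x; rw [inner_smul_right, horf, mul_zero])
  refine ⟨‖f‖ • w, fun x hx => ?_⟩
  have hw1 := hw x hx
  have hε : 0 ≤ ε := (abs_nonneg _).trans hw1
  have k1 : |G t (A x) f - ⟪x, ‖f‖ • w⟫| ≤ ε := by
    have e1 : G t (A x) f - ⟪x, ‖f‖ • w⟫ = ‖f‖ * (G t (A x) (‖f‖⁻¹ • f) - ⟪x, w⟫) := by
      rw [G_smul, inner_smul_right, mul_sub, ← mul_assoc, mul_inv_cancel₀ hfpos.ne', one_mul]
    rw [e1, abs_mul, abs_of_pos hfpos]
    nlinarith [abs_nonneg (G t (A x) (‖f‖⁻¹ • f) - ⟪x, w⟫)]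
  have k2 : |G t (A' x) f' - G t (A x) f'| ≤ q ^ 2 * B * ε₁ := by
    refine (G_lip hB hB0 _ _ _ (by rw [hA', hx]) (by rw [hA, hx]) hf'.le).trans ?_
    apply mul_le_mul_of_nonneg_left _ (by positivity)
    have := hdiff x
    rw [hx, mul_one] at this
    rw [norm_sub_rev]
    exact this
  have k3 : |G t (A x) g| ≤ q ^ 2 * B * ε₁ := by
    refine (abs_G_le hB _ _).trans ?_
    rw [hA, hx, one_pow, mul_one, hgn]
    have hq : (q : ℝ) ≤ (q : ℝ) ^ 2 := by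
      rcases Nat.eq_zero_or_pos q with h0 | h0
      · subst h0; simp
      · have : (1 : ℝ) ≤ q := by exact_mod_cast h0
        nlinarith
    have h3 : (q : ℝ) * B ≤ (q : ℝ) ^ 2 * B := mul_le_mul_of_nonneg_right hq hB0
    exact mul_le_mul h3 hun (norm_nonneg _) (by positivity)
  have k4 : G t (A x) f' = G t (A x) f + G t (A x) g := by
    rw [← G_add, hf, sub_add_cancel]
  have e : G t (A' x) f' - ⟪x, ‖f‖ • w⟫ = (G t (A' x) f' - G t (A x) f') + G t (A x) g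
      + (G t (A x) f - ⟪x, ‖f‖ • w⟫) := by
    rw [k4]; ring
  rw [e]
  refine (abs_add_three _ _ _).trans ?_
  linarith

end Pool.Agent.EFP
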