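import Pool.Agent.Lib.EFP.SupB
import Pool.Agent.Lib.EFP.Transfer
import Pool.Agent.Lib.EFP.NetIso

set_option autoImplicit false

/-!
# EFP.Union: the union bound over all frames

PROOF. Let `C ≥ 1` be the constant of `supB q`. Choose `ε > 0` with `2 K ε ≤ 1`, `ε ≤ 1` and
`4 K^2 ε^2 + 16 q^2 C K^2 ε ≤ 1/4`, and `ε₀ = ε / C`, `ε₁ = ε / (2 q^2 C)` (so `ε₁ < 1`,
`2 q^2 C ε₁ = ε`). Let `n ≥ 1`, `R = √(n^(q-1))` (`R^2 n = n^q`).
For `2 ≤ k < n` let `Y k` be the net of `netIso n k ε₁`, `card ≤ (1 + 2/ε₁)^(kn) = (1 + 4 q^2 C/ε)^(kn)`.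

(1) Suppose `‖t‖ ≤ R`, `Bdd C t` and `Cond (2ε) t A'` fails for all `A' ∈ Y k`, all `2 ≤ k < n`. Then
`Cond ε t A` fails for every isometric `A : E k → E n`, `2 ≤ k < n`: otherwise take `A' ∈ Y k` with
`‖A - A'‖ ≤ ε₁`; `transfer` gives `Cond (ε + 2 q^2 C ε₁) t A' = Cond (2ε) t A'`. Then
`t' = C⁻¹ • t` satisfies `Bdd 1 t'` (`T_smul_tensor`), and `Cond ε₀ t' A` would give `Cond ε t A`
(multiply by `C`, `G_smul_tensor`, witness `C • w`).

(2) Such a `t` exists: otherwise the closed ball is contained in the union of `{¬ Bdd C t}` and of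
the sets `{Cond (2ε) t A'}`, so, dividing by the (positive, finite) volume of the ball,
`1 ≤ 1/4 + ∑_{k=2}^{n-1} (1 + 4q^2C/ε)^(kn) (2Kε)^(N_k)`; as `2Kε ≤ 1` and `N_k ≥ 2kn`
the sum is at most `∑_k ((1 + 4q^2C/ε) 4K^2ε^2)^(kn) ≤ ∑_{k=2}^{n-1} (1/4)^(kn) ≤ ∑_{k≥2} (1/4)^k ≤ 1/12`.
Contradiction (work in `ENNReal` with `ENNReal.ofReal`, `measure_biUnion_finset_le`).
-/

namespace Pool.Agent.EFP

open MeasureTheory Metric
open scoped RealInnerProductSpace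

private theorem geo (n : ℕ) : ∑ k ∈ Finset.Ico 2 n, ((1 : ℝ) / 4) ^ k ≤ 1 / 12 := by
  by_cases h : n < 2
  · rw [Finset.Ico_eq_empty (by omega)]
    norm_num
  · push Not at h
    have key : ∑ k ∈ Finset.Ico 2 n, ((1 : ℝ) / 4) ^ k + 4 / 3 * (1 / 4) ^ n = 1 / 12 := by
      induction n, h using Nat.le_induction with
      | base => norm_num
      | succ n hn ih =>
        rw [Finset.sum_Ico_succ_top hn, ← ih, pow_succ]
        ring
    have : (0 : ℝ) ≤ 4 / 3 * (1 / 4) ^ n := by positivity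
    linarith

theorem union (q : ℕ) (hq : 2 ≤ q) (K : ℝ) (hK : 0 < K) : ∃ ε₀ : ℝ, 0 < ε₀ ∧ ∀ n : ℕ, 1 ≤ n →
    (∀ k : ℕ, 2 ≤ k → k < n → ∀ A : E k →L[ℝ] E n, (∀ x, ‖A x‖ = ‖x‖) → ∀ ε : ℝ, 0 < ε →
      ∃ N : ℕ, 2 * k * n ≤ N ∧ ∀ R : ℝ, 0 < R → R ^ 2 * n = (n : ℝ) ^ q →
        volume {t : V q n | ‖t‖ ≤ R ∧ Cond ε t A} ≤
          ENNReal.ofReal ((K * ε) ^ N) * volume (closedBall (0 : V q n) R)) →
    ∃ t : V q n, Bdd 1 t ∧ ∀ k : ℕ, 2 ≤ k → k < n → ∀ A : E k →L[ℝ] E n,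
      (∀ x, ‖A x‖ = ‖x‖) → ¬ Cond ε₀ t A := by
  classical
  obtain ⟨C, hC1, hC⟩ := supB q (by omega)
  have hC0 : 0 < C := by linarith
  have hq2 : (2 : ℝ) ≤ (q : ℝ) := by exact_mod_cast hq
  set P : ℝ := (q : ℝ) ^ 2 with hP
  have hP4 : 4 ≤ P := by rw [hP]; nlinarith
  have hP0 : 0 < P := by linarith
  set D : ℝ := 1 + 2 * K + 4 * (4 * K ^ 2 + 16 * P * C * K ^ 2) with hD
  have hD0 : 0 < D := by positivity
  set ε : ℝ := 1 / D with hε
  have hε0 : 0 < ε := by positivity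
  have hDε : ε + 2 * K * ε + 4 * (4 * K ^ 2 + 16 * P * C * K ^ 2) * ε = 1 := by
    have : D * ε = 1 := by rw [hε]; field_simp
    rw [← this, hD]; ring
  have a1 : 0 < 2 * K * ε := by positivity
  have a2 : 0 < 4 * (4 * K ^ 2 + 16 * P * C * K ^ 2) * ε := by positivity
  have hε1 : ε ≤ 1 := by linarith
  have hKε : K * (2 * ε) ≤ 1 := by linarith
  have hKε0 : 0 ≤ K * (2 * ε) := by positivity
  set ε₁ : ℝ := ε / (2 * P * C) with hε₁
  have hε₁0 : 0 < ε₁ := by positivity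
  have hPC : 8 ≤ 2 * P * C := by nlinarith
  have hε₁1 : ε₁ < 1 := by
    rw [hε₁, div_lt_one (by positivity)]
    linarith
  have hsum : ε + 2 * (q : ℝ) ^ 2 * C * ε₁ = 2 * ε := by
    rw [← hP, hε₁]
    field_simp
    ring
  have hbase : (1 + 2 / ε₁) * (K * (2 * ε)) ^ 2 ≤ 1 / 4 := by
    have e : (1 + 2 / ε₁) * (K * (2 * ε)) ^ 2 = 4 * K ^ 2 * ε ^ 2 + 16 * P * C * K ^ 2 * ε := by
      rw [hε₁]
      field_simp
      ring
    rw [e]
    have : 4 * K ^ 2 * ε ^ 2 ≤ 4 * K ^ 2 * ε := by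
      have : ε ^ 2 ≤ ε := by nlinarith
      have h0 : (0 : ℝ) ≤ 4 * K ^ 2 := by positivity
      exact mul_le_mul_of_nonneg_left this h0
    nlinarith
  have hbase0 : 0 ≤ (1 + 2 / ε₁) * (K * (2 * ε)) ^ 2 := by positivity
  refine ⟨ε / C, by positivity, fun n hn hyp => ?_⟩
  have hn0 : (0 : ℝ) < n := by exact_mod_cast hn
  set R : ℝ := Real.sqrt ((n : ℝ) ^ (q - 1)) with hRdef
  have hR0 : 0 < R := Real.sqrt_pos.2 (by positivity)
  have hR : R ^ 2 * n = (n : ℝ) ^ q := by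
    rw [hRdef, Real.sq_sqrt (by positivity), ← pow_succ]
    congr 1
    omega
  have hB := hC n hn R hR0 hR
  choose Y hYiso hYcard hYnet using fun k => netIso n k ε₁ hε₁0
  have hv0 : volume (closedBall (0 : V q n) R) ≠ 0 := (measure_closedBall_pos volume 0 hR0).ne'
  have hvt : volume (closedBall (0 : V q n) R) ≠ ⊤ := measure_closedBall_lt_top.ne
  set v := volume (closedBall (0 : V q n) R) with hv
  by_contra hcon
  have hcover : closedBall (0 : V q n) R ⊆ {t : V q n | ‖t‖ ≤ R ∧ ¬ Bdd C t} ∪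
      ⋃ k ∈ Finset.Ico 2 n, ⋃ A ∈ Y k, {t : V q n | ‖t‖ ≤ R ∧ Cond (2 * ε) t A} := by
    intro t ht
    have htR : ‖t‖ ≤ R := by simpa using ht
    by_cases hb : Bdd C t
    · right
      by_contra hno
      simp only [Set.mem_iUnion, Set.mem_ofPred_eq, not_exists] at hno
      apply hcon
      refine ⟨C⁻¹ • t, ?_, ?_⟩
      · intro x
        rw [T_smul_tensor, abs_mul, abs_of_pos (inv_pos.2 hC0)]
        have h1 := mul_le_mul_of_nonneg_left (hb x) (inv_pos.2 hC0).le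
        refine h1.trans (le_of_eq ?_)
        rw [← mul_assoc, inv_mul_cancel₀ hC0.ne']
      · intro k hk2 hkn A hA hcond
        have h1 : Cond ε t A := by
          intro f hf hfo
          obtain ⟨w, hw⟩ := hcond f hf hfo
          refine ⟨C • w, fun x hx => ?_⟩
          have h2 := hw x hx
          rw [G_smul_tensor] at h2
          have e : G t (A x) f - ⟪x, C • w⟫ = C * (C⁻¹ * G t (A x) f - ⟪x, w⟫) := by
            rw [real_inner_smul_right, mul_sub, ← mul_assoc, mul_inv_cancel₀ hC0.ne', one_mul]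
          rw [e, abs_mul, abs_of_pos hC0]
          have h3 := mul_le_mul_of_nonneg_left h2 hC0.le
          refine h3.trans (le_of_eq ?_)
          field_simp
        obtain ⟨A', hA'Y, hdist⟩ := hYnet k A hA
        have h2 := transfer hb A A' hA (hYiso k A' hA'Y) hdist hε₁1 h1
        rw [hsum] at h2
        exact hno k (Finset.mem_Ico.2 ⟨hk2, hkn⟩) A' hA'Y ⟨htR, h2⟩
    · left
      exact ⟨htR, hb⟩
  have hk : ∀ k ∈ Finset.Ico 2 n, ∑ A ∈ Y k, volume {t : V q n | ‖t‖ ≤ R ∧ Cond (2 * ε) t A} ≤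
      ENNReal.ofReal ((1 / 4) ^ k) * v := by
    intro k hk
    rw [Finset.mem_Ico] at hk
    have h1 : ∀ A ∈ Y k, volume {t : V q n | ‖t‖ ≤ R ∧ Cond (2 * ε) t A} ≤
        ENNReal.ofReal ((K * (2 * ε)) ^ (2 * k * n)) * v := by
      intro A hA
      obtain ⟨N, hN, hvol⟩ := hyp k hk.1 hk.2 A (hYiso k A hA) (2 * ε) (by positivity)
      refine (hvol R hR0 hR).trans ?_
      exact mul_le_mul_left (ENNReal.ofReal_le_ofReal (pow_le_pow_of_le_one hKε0 hKε hN)) _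
    refine (Finset.sum_le_sum h1).trans ?_
    rw [Finset.sum_const, nsmul_eq_mul, ← mul_assoc]
    gcongr
    rw [← ENNReal.ofReal_natCast, ← ENNReal.ofReal_mul (Nat.cast_nonneg _)]
    refine ENNReal.ofReal_le_ofReal ?_
    calc ((Y k).card : ℝ) * (K * (2 * ε)) ^ (2 * k * n)
        ≤ (1 + 2 / ε₁) ^ (k * n) * (K * (2 * ε)) ^ (2 * k * n) :=
          mul_le_mul_of_nonneg_right (hYcard k) (by positivity)
      _ = ((1 + 2 / ε₁) * (K * (2 * ε)) ^ 2) ^ (k * n) := by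
          rw [mul_pow (1 + 2 / ε₁), ← pow_mul]
          congr 2
          ring
      _ ≤ (1 / 4) ^ (k * n) := pow_le_pow_left₀ hbase0 hbase _
      _ ≤ (1 / 4) ^ k := pow_le_pow_of_le_one (by norm_num) (by norm_num)
          (Nat.le_mul_of_pos_right k (by omega))
  have hm : v ≤ ENNReal.ofReal (1 / 4) * v + ENNReal.ofReal (1 / 12) * v := by
    calc v ≤ volume ({t : V q n | ‖t‖ ≤ R ∧ ¬ Bdd C t} ∪
          ⋃ k ∈ Finset.Ico 2 n, ⋃ A ∈ Y k, {t : V q n | ‖t‖ ≤ R ∧ Cond (2 * ε) t A}) :=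
          measure_mono hcover
      _ ≤ _ := measure_union_le _ _
      _ ≤ ENNReal.ofReal (1 / 4) * v + ∑ k ∈ Finset.Ico 2 n, ENNReal.ofReal ((1 / 4) ^ k) * v := by
          refine add_le_add hB ?_
          refine (measure_biUnion_finset_le _ _).trans (Finset.sum_le_sum fun k hk' => ?_)
          exact (measure_biUnion_finset_le _ _).trans (hk k hk')
      _ ≤ ENNReal.ofReal (1 / 4) * v + ENNReal.ofReal (1 / 12) * v := by
          rw [← Finset.sum_mul, ← ENNReal.ofReal_sum_of_nonneg (fun k _ => by positivity)]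
          gcongr
          exact geo n
  rw [← add_mul, ← ENNReal.ofReal_add (by norm_num) (by norm_num)] at hm
  have hlt : ENNReal.ofReal (1 / 4 + 1 / 12) * v < 1 * v := by
    refine ENNReal.mul_lt_mul_left hv0 hvt ?_
    rw [← ENNReal.ofReal_one]
    exact (ENNReal.ofReal_lt_ofReal_iff (by norm_num)).2 (by norm_num)
  rw [one_mul] at hlt
  exact absurd hm (not_le.2 hlt)

end Pool.Agent.EFP
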