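import Pool.Agent.Lib.EFP.SmallFam
import Pool.Agent.Lib.EFP.Union

set_option autoImplicit false

/-!
# EFP.ML2: good tensors of high order in each fixed dimension

PROOF. `p = n^2 + 1`, `q = 2p`, so `2p - 2 = 2 n^2`. Let `K₁` be the constant of `smallFam p`,
`K = K₁ √n` and `ε₀` given by `union q K`. For `2 ≤ k < n`, `A` isometric and `ε > 0` use `P = 1`,
`N = 1 * (2p - 2) * (n - k) ≥ 2 n^2 ≥ 2 k n`; `n/(n-k) ≤ n`, so the base is at most `K ε`.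
(`n ≥ 1` is assumed.)
-/

namespace Pool.Agent.EFP

open MeasureTheory Metric
open scoped RealInnerProductSpace

theorem ml2 (n : ℕ) (hn : 1 ≤ n) : ∃ p : ℕ, 2 ≤ p ∧ ∃ ε₀ : ℝ, 0 < ε₀ ∧ ∃ t : V (2 * p) n,
    Bdd 1 t ∧ ∀ k : ℕ, 2 ≤ k → k < n → ∀ A : E k →L[ℝ] E n, (∀ x, ‖A x‖ = ‖x‖) →
      ¬ Cond ε₀ t A := by
  have hp : 2 ≤ n ^ 2 + 1 := by
    have : 1 ≤ n ^ 2 := Nat.one_le_pow _ _ hn
    omega
  refine ⟨n ^ 2 + 1, hp, ?_⟩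
  obtain ⟨K₁, hK₁, hsf⟩ := smallFam (n ^ 2 + 1) hp
  have hn0 : (0 : ℝ) < n := by exact_mod_cast hn
  have hsn : 0 < √(n : ℝ) := Real.sqrt_pos.2 hn0
  obtain ⟨ε₀, hε₀, hun⟩ := union (2 * (n ^ 2 + 1)) (by omega) (K₁ * √(n : ℝ)) (by positivity)
  refine ⟨ε₀, hε₀, hun n hn ?_⟩
  intro k hk2 hkn A hA ε hε
  refine ⟨1 * (2 * (n ^ 2 + 1) - 2) * (n - k), ?_, ?_⟩
  · have h1 : 2 * (n ^ 2 + 1) - 2 = 2 * n ^ 2 := by omega
    rw [h1, one_mul]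
    have h2 : 1 ≤ n - k := by omega
    calc 2 * k * n ≤ 2 * n * n := by gcongr
      _ = 2 * n ^ 2 * 1 := by ring
      _ ≤ 2 * n ^ 2 * (n - k) := by gcongr
  · intro R hR hRn
    refine (hsf n k 1 A hA (by omega) hkn R ε hR hRn hε).trans ?_
    gcongr ENNReal.ofReal (?_ ^ _) * _
    have hm : (1 : ℝ) ≤ ((n - k : ℕ) : ℝ) := by
      exact_mod_cast (show 1 ≤ n - k by omega)
    have h3 : √((n : ℝ) / ((n - k : ℕ) : ℝ)) ≤ √(n : ℝ) :=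
      Real.sqrt_le_sqrt (div_le_self hn0.le hm)
    calc K₁ * ε * √((n : ℝ) / ((n - k : ℕ) : ℝ)) ≤ K₁ * ε * √(n : ℝ) := by gcongr
      _ = K₁ * √(n : ℝ) * ε := by ring

end Pool.Agent.EFP
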