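import Pool.Agent.Lib.EFP.Defs

set_option autoImplicit false

/-!
# EFP.Frame: orthonormal systems attached to an isometric map `A : E k → E n`

(1) `frame_perp`: there is an orthonormal system of `n - k` vectors orthogonal to the range of `A`
(the range has dimension `k`, its orthogonal complement dimension `n - k`, take an orthonormal basis
`stdOrthonormalBasis`).
(2) `inner_iso`: `A` preserves inner products (polarisation, `LinearIsometry`).
(3) `exists_iso`: every subspace `S` of `E n` of dimension `k` is the range of such a map.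
-/

namespace Pool.Agent.EFP

open scoped RealInnerProductSpace

theorem inner_iso {n k : ℕ} (A : E k →L[ℝ] E n) (hA : ∀ x, ‖A x‖ = ‖x‖) (x y : E k) :
    ⟪A x, A y⟫ = ⟪x, y⟫ := by
  let L : E k →ₗᵢ[ℝ] E n := { A.toLinearMap with norm_map' := hA }
  exact L.inner_map_map x y

theorem frame_perp {n k : ℕ} (A : E k →L[ℝ] E n) (hA : ∀ x, ‖A x‖ = ‖x‖) :
    ∃ f : Fin (n - k) → E n, Orthonormal ℝ f ∧ ∀ x l, ⟪A x, f l⟫ = 0 := by
  let L : E k →ₗᵢ[ℝ] E n := { A.toLinearMap with norm_map' := hA }
  have hr : Module.finrank ℝ (LinearMap.range L.toLinearMap) = k := by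
    rw [LinearMap.finrank_range_of_inj L.injective]
    simp
  have hf : Module.finrank ℝ (LinearMap.range L.toLinearMap)ᗮ = n - k := by
    have := Submodule.finrank_add_finrank_orthogonal (LinearMap.range L.toLinearMap)
    rw [hr] at this
    simp only [finrank_euclideanSpace, Fintype.card_fin] at this
    omega
  let b := (stdOrthonormalBasis ℝ (LinearMap.range L.toLinearMap)ᗮ).reindex (finCongr hf)
  refine ⟨fun l => (b l : E n), ?_, ?_⟩
  · have := b.orthonormal.comp_linearIsometry (LinearMap.range L.toLinearMap)ᗮ.subtypeₗᵢ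
    exact this
  · intro x l
    have := (b l).2
    rw [Submodule.mem_orthogonal] at this
    exact this (A x) ⟨x, rfl⟩

theorem exists_iso {n k : ℕ} (S : Submodule ℝ (E n)) (hS : Module.finrank ℝ S = k) :
    ∃ A : E k →L[ℝ] E n, (∀ x, ‖A x‖ = ‖x‖) ∧ ∀ y, y ∈ S ↔ ∃ x, A x = y := by
  let b := (stdOrthonormalBasis ℝ S).reindex (finCongr hS)
  let L : E k →ₗᵢ[ℝ] E n := S.subtypeₗᵢ.comp b.repr.symm.toLinearIsometry
  refine ⟨L.toContinuousLinearMap, fun x => L.norm_map x, fun y => ⟨fun hy => ?_, ?_⟩⟩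
  · exact ⟨b.repr ⟨y, hy⟩, by simp [L]⟩
  · rintro ⟨x, rfl⟩
    exact (b.repr.symm x).2

end Pool.Agent.EFP
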