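import Pool.Agent.Lib.EFP.Taylor

set_option autoImplicit false

/-!
# EFP.PC: what a projection of norm close to one forces

PROOF. `q = 2p`. Constants depend on `p` only: let `K = 20 * 4^p * p`. Take
`η₁ = min (1/8) (ε/(8p))` and, given `0 < η ≤ η₁`, choose `δ > 0` with
`κ := √(8 K 4^p δ)` satisfying `κ ≤ p/2` and `κ (2 + 2/η) ≤ ε/2`.

(1) Let `e = P e` and `P h = 0`, `‖e‖ = ‖h‖ = 1`. For `|s| ≤ 1` apply the hypothesis to `x = e + s h`: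
`Q e ≤ (1+δ) Q (e + s h)`. Now
`‖e+sh‖^(2p) = (1 + 2s⟪e,h⟫ + s^2)^p ≤ 1 + 2ps⟪e,h⟫ + p s^2 + 9 * 4^p s^2`
(`(1+y)^p ≤ 1 + p y + 4^p y^2` for `-1 ≤ y ≤ 3`, by induction on `p`, or by the binomial theorem;
`y = 2s⟪e,h⟫+s^2`, `y^2 ≤ 9 s^2`), and by `taylor` (with `v = s h`, `G_smul`)
`Ψ(e+sh) ≤ Ψ e + s G t e h + 4^p * 2^(2p-2) s^2`; here use the sharper form
`(‖x‖+‖v‖)^(q-2) ≤ 2^(q-2)`. (So one may take any larger `K`, for instance `K = 20 * 16^p * p`,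
the value of `K` is irrelevant; adapt the choice of `δ`.) Hence with
`c = 2p⟪e,h⟫ + η G t e h`: `Q (e+sh) ≤ Q e + s c + K s^2`, and `Q (e+sh) ≤ 2 * 4^p`. So
`0 ≤ s c + K s^2 + 2 * 4^p δ` for all `|s| ≤ 1`. As `|c| ≤ 2p + 2pη ≤ 4p ≤ 2K`, `s = -c/(2K)` is
allowed: `c^2 ≤ 8 K 4^p δ`. Thus `|c| ≤ κ`.
By homogeneity, for `e` in the range with `‖e‖ = 1` and any `h` in the kernel:
`|2p⟪e,h⟫ + η G t e h| ≤ κ ‖h‖`, and so (`abs_G_le`) `|⟪e,h⟫| ≤ θ ‖h‖`, `θ = η + κ/(2p) ≤ 1/2`.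

(2) Let `‖f‖ = 1`, `f` orthogonal to the range of `P`. Put `h = f - P f` (in the kernel). Then
`‖P f‖^2 = ⟪P f, f - h⟫ = -⟪P f, h⟫ ≤ θ ‖P f‖ ‖h‖`, so `‖P f‖ ≤ θ ‖h‖ ≤ θ (1 + ‖P f‖)`,
`‖P f‖ ≤ 2θ`, `‖h‖ ≤ 2`.

(3) Let `w = (2p/η) P f` (in the range). For `‖e‖ = 1` in the range
`G t e f = G t e h + G t e (P f)`, `|G t e (P f)| ≤ 2p * 2θ`, `|η G t e h + 2p⟪e,h⟫| ≤ 2κ` and
`⟪e,h⟫ = -⟪e,P f⟫`. So `|G t e f - ⟪e,w⟫| ≤ 4pθ + 2κ/η = 4pη + 2κ + 2κ/η ≤ ε/2 + ε/2`.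
-/

namespace Pool.Agent.EFP

open scoped RealInnerProductSpace

namespace PCAux

theorem pow_bound (p : ℕ) (y : ℝ) (h1 : -1 ≤ y) (h3 : y ≤ 3) :
    (1 + y) ^ p ≤ 1 + p * y + 5 ^ p * y ^ 2 := by
  induction p with
  | zero =>
    have := sq_nonneg y
    simp only [pow_zero, Nat.cast_zero, zero_mul, add_zero, one_mul]
    linarith
  | succ p ih =>
    have hp : (p : ℝ) ≤ 5 ^ p := by
      exact_mod_cast (Nat.lt_pow_self (by norm_num : 1 < 5)).le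
    have h0 : 0 ≤ 1 + y := by linarith
    have e1 := mul_le_mul_of_nonneg_right hp (sq_nonneg y)
    have e2 := mul_le_mul_of_nonneg_left (show 1 + y ≤ 4 by linarith)
      (show (0 : ℝ) ≤ 5 ^ p * y ^ 2 by positivity)
    calc (1 + y) ^ (p + 1) = (1 + y) ^ p * (1 + y) := pow_succ _ _
      _ ≤ (1 + p * y + 5 ^ p * y ^ 2) * (1 + y) := mul_le_mul_of_nonneg_right ih h0
      _ = 1 + (p + 1) * y + p * y ^ 2 + 5 ^ p * y ^ 2 * (1 + y) := by ring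
      _ ≤ 1 + (p + 1) * y + 5 ^ p * y ^ 2 + 5 ^ p * y ^ 2 * 4 := by linarith
      _ = 1 + ((p + 1 : ℕ) : ℝ) * y + 5 ^ (p + 1) * y ^ 2 := by
        push_cast
        ring

theorem upper {p n : ℕ} {t : V (2 * p) n} (hB : Bdd 1 t) {η : ℝ} (h0 : 0 ≤ η) (h1 : η ≤ 1)
    {e h : E n} (he : ‖e‖ = 1) (hh : ‖h‖ = 1) {s : ℝ} (hs : |s| ≤ 1) :
    Q η t (e + s • h) ≤ Q η t e + s * (2 * p * ⟪e, h⟫ + η * G t e h) +
      (p + 9 * 5 ^ p + 16 ^ p) * s ^ 2 := by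
  have hn : ‖e + s • h‖ ^ 2 = 1 + (2 * s * ⟪e, h⟫ + s ^ 2) := by
    rw [norm_add_sq_real, he, real_inner_smul_right, norm_smul, hh, Real.norm_eq_abs, mul_one,
      sq_abs]
    ring
  have hi : |⟪e, h⟫| ≤ 1 := by
    have := abs_real_inner_le_norm e h
    rwa [he, hh, mul_one] at this
  obtain ⟨s1, s2⟩ := abs_le.1 hs
  obtain ⟨i1, i2⟩ := abs_le.1 hi
  have hy : |2 * s * ⟪e, h⟫ + s ^ 2| ≤ 3 * |s| := by
    have a1 : |2 * s * ⟪e, h⟫| ≤ 2 * |s| := by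
      rw [abs_mul, abs_mul, abs_two]
      have := mul_le_mul_of_nonneg_left hi (show 0 ≤ 2 * |s| by positivity)
      linarith
    have a2 : |s ^ 2| ≤ |s| := by
      rw [abs_pow]
      nlinarith [abs_nonneg s]
    calc |2 * s * ⟪e, h⟫ + s ^ 2| ≤ |2 * s * ⟪e, h⟫| + |s ^ 2| := abs_add_le _ _
      _ ≤ 3 * |s| := by linarith
  have hy2 : (2 * s * ⟪e, h⟫ + s ^ 2) ^ 2 ≤ 9 * s ^ 2 := by
    have h9 := pow_le_pow_left₀ (abs_nonneg _) hy 2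
    rw [sq_abs, mul_pow, sq_abs] at h9
    linarith
  have hy3 : 2 * s * ⟪e, h⟫ + s ^ 2 ≤ 3 := by
    have := (abs_le.1 hy).2
    linarith
  have hy1 : -1 ≤ 2 * s * ⟪e, h⟫ + s ^ 2 := by
    have := sq_nonneg ‖e + s • h‖
    rw [hn] at this
    linarith
  have hpow := pow_bound p _ hy1 hy3
  have hnorm : ‖e + s • h‖ ^ (2 * p) ≤ 1 + 2 * p * s * ⟪e, h⟫ + (p + 9 * 5 ^ p) * s ^ 2 := by
    rw [pow_mul, hn]
    have := mul_le_mul_of_nonneg_left hy2 (show (0 : ℝ) ≤ 5 ^ p by positivity)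
    calc (1 + (2 * s * ⟪e, h⟫ + s ^ 2)) ^ p
        ≤ 1 + p * (2 * s * ⟪e, h⟫ + s ^ 2) + 5 ^ p * (2 * s * ⟪e, h⟫ + s ^ 2) ^ 2 := hpow
      _ ≤ 1 + p * (2 * s * ⟪e, h⟫ + s ^ 2) + 5 ^ p * (9 * s ^ 2) := by linarith
      _ = _ := by ring
  have hT := (abs_le.1 (taylor hB e (s • h))).2
  rw [G_smul, he, norm_smul, hh, mul_one, Real.norm_eq_abs, sq_abs] at hT
  have hc : (1 + |s|) ^ (2 * p - 2) ≤ (2 : ℝ) ^ (2 * p) := by
    calc (1 + |s|) ^ (2 * p - 2) ≤ (2 : ℝ) ^ (2 * p - 2) :=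
          pow_le_pow_left₀ (by positivity) (by linarith) _
      _ ≤ (2 : ℝ) ^ (2 * p) := pow_le_pow_right₀ (by norm_num) (Nat.sub_le _ _)
  have hT2 : (2 : ℝ) ^ (2 * p) * ((1 + |s|) ^ (2 * p - 2) * s ^ 2) ≤ 16 ^ p * s ^ 2 := by
    have e16 : (16 : ℝ) ^ p = 2 ^ (2 * p) * 2 ^ (2 * p) := by
      rw [← pow_add, ← two_mul, ← mul_assoc, pow_mul]
      norm_num
    rw [e16, mul_assoc]
    exact mul_le_mul_of_nonneg_left (mul_le_mul_of_nonneg_right hc (sq_nonneg s)) (by positivity)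
  have hT3 : T t (fun _ => e + s • h) ≤ T t (fun _ => e) + s * G t e h + 16 ^ p * s ^ 2 := by
    linarith
  have hT4 := mul_le_mul_of_nonneg_left hT3 h0
  have hT5 : η * (16 ^ p * s ^ 2) ≤ 16 ^ p * s ^ 2 := by
    have := mul_le_mul_of_nonneg_right h1 (show (0 : ℝ) ≤ 16 ^ p * s ^ 2 by positivity)
    linarith
  unfold Q
  rw [he, one_pow]
  nlinarith

theorem Q_le {p n : ℕ} {t : V (2 * p) n} (hB : Bdd 1 t) {η : ℝ} (h0 : 0 ≤ η) (h1 : η ≤ 1)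
    {x : E n} (hx : ‖x‖ ≤ 2) : Q η t x ≤ 2 * 4 ^ p := by
  have h2 : ‖x‖ ^ (2 * p) ≤ 4 ^ p := by
    calc ‖x‖ ^ (2 * p) ≤ 2 ^ (2 * p) := pow_le_pow_left₀ (norm_nonneg _) hx _
      _ = 4 ^ p := by
        rw [pow_mul]
        norm_num
  have h3 : T t (fun _ => x) ≤ ‖x‖ ^ (2 * p) := by
    have := (abs_le.1 (hB (fun _ => x))).2
    rw [Finset.prod_const, Finset.card_univ, Fintype.card_fin, one_mul] at this
    exact this
  have h4 : η * T t (fun _ => x) ≤ 4 ^ p := by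
    calc η * T t (fun _ => x) ≤ η * 4 ^ p := mul_le_mul_of_nonneg_left (h3.trans h2) h0
      _ ≤ 1 * 4 ^ p := mul_le_mul_of_nonneg_right h1 (by positivity)
      _ = 4 ^ p := one_mul _
  unfold Q
  linarith

/-- unit vectors -/
theorem step1 {p n : ℕ} {t : V (2 * p) n} (hB : Bdd 1 t) {η δ κ : ℝ} (h0 : 0 ≤ η)
    (h1 : η ≤ 1) (hδ : 0 < δ) (hκ : 0 ≤ κ)
    (hk : 4 * ((p : ℝ) + 9 * 5 ^ p + 16 ^ p) * (2 * 4 ^ p) * δ ≤ κ ^ 2)
    {P : E n →ₗ[ℝ] E n}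
    (hQ : ∀ x, Q η t (P x) ≤ (1 + δ) * Q η t x) {e h : E n} (hPe : P e = e) (hPh : P h = 0)
    (he : ‖e‖ = 1) (hh : ‖h‖ = 1) : |2 * p * ⟪e, h⟫ + η * G t e h| ≤ κ := by
  set c := 2 * p * ⟪e, h⟫ + η * G t e h with hc
  set K : ℝ := (p : ℝ) + 9 * 5 ^ p + 16 ^ p with hK
  have hKp : 0 < K := by positivity
  have hp16 : (p : ℝ) ≤ 16 ^ p := by
    exact_mod_cast (Nat.lt_pow_self (by norm_num : 1 < 16)).le
  have h5 : (0 : ℝ) < 5 ^ p := by positivity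
  have hG : |G t e h| ≤ 2 * p := by
    have := abs_G_le hB e h
    rw [he, hh, one_pow] at this
    push_cast at this
    linarith
  have hi : |⟪e, h⟫| ≤ 1 := by
    have := abs_real_inner_le_norm e h
    rwa [he, hh, mul_one] at this
  have hcK : |c| ≤ 2 * K := by
    have a1 : |2 * p * ⟪e, h⟫| ≤ 2 * p := by
      rw [abs_mul, abs_of_nonneg (show (0 : ℝ) ≤ 2 * p by positivity)]
      have := mul_le_mul_of_nonneg_left hi (show (0 : ℝ) ≤ 2 * p by positivity)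
      linarith
    have a2 : |η * G t e h| ≤ 2 * p := by
      rw [abs_mul, abs_of_nonneg h0]
      calc η * |G t e h| ≤ 1 * |G t e h| := mul_le_mul_of_nonneg_right h1 (abs_nonneg _)
        _ ≤ 2 * p := by rw [one_mul]; exact hG
    have a3 := abs_add_le (2 * p * ⟪e, h⟫) (η * G t e h)
    rw [← hc] at a3
    linarith
  have key : ∀ s : ℝ, |s| ≤ 1 → 0 ≤ s * c + K * s ^ 2 + δ * (2 * 4 ^ p) := by
    intro s hs
    have k1 := hQ (e + s • h)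
    rw [map_add, map_smul, hPe, hPh, smul_zero, add_zero] at k1
    have k2 := upper hB h0 h1 he hh hs
    have hx : ‖e + s • h‖ ≤ 2 := by
      calc ‖e + s • h‖ ≤ ‖e‖ + ‖s • h‖ := norm_add_le _ _
        _ ≤ 2 := by
          rw [he, norm_smul, hh, mul_one, Real.norm_eq_abs]
          linarith
    have k3 := mul_le_mul_of_nonneg_left (Q_le hB h0 h1 hx) hδ.le
    linarith
  have hs : |-c / (2 * K)| ≤ 1 := by
    rw [abs_div, abs_neg, abs_of_pos (show 0 < 2 * K by positivity)]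
    exact (div_le_one (by positivity)).2 hcK
  have k4 := key _ hs
  have k5 : -c / (2 * K) * c + K * (-c / (2 * K)) ^ 2 = -(c ^ 2 / (4 * K)) := by
    field_simp
    ring
  rw [k5] at k4
  have k6 : c ^ 2 ≤ 4 * K * (δ * (2 * 4 ^ p)) := by
    have : c ^ 2 / (4 * K) ≤ δ * (2 * 4 ^ p) := by linarith
    rw [div_le_iff₀ (by positivity)] at this
    linarith
  have k7 : c ^ 2 ≤ κ ^ 2 := by
    calc c ^ 2 ≤ 4 * K * (δ * (2 * 4 ^ p)) := k6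
      _ = 4 * K * (2 * 4 ^ p) * δ := by ring
      _ ≤ κ ^ 2 := hk
  exact abs_le_of_sq_le_sq k7 hκ

theorem step2 {p n : ℕ} {t : V (2 * p) n} (hB : Bdd 1 t) {η δ κ : ℝ} (h0 : 0 ≤ η)
    (h1 : η ≤ 1) (hδ : 0 < δ) (hκ : 0 ≤ κ)
    (hk : 4 * ((p : ℝ) + 9 * 5 ^ p + 16 ^ p) * (2 * 4 ^ p) * δ ≤ κ ^ 2)
    {P : E n →ₗ[ℝ] E n}
    (hQ : ∀ x, Q η t (P x) ≤ (1 + δ) * Q η t x) {e h : E n} (hPe : P e = e) (hPh : P h = 0)
    (he : ‖e‖ = 1) : |2 * p * ⟪e, h⟫ + η * G t e h| ≤ κ * ‖h‖ := by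
  rcases eq_or_ne h 0 with rfl | hne
  · have : G t e 0 = 0 := by
      have := G_smul t e 0 0
      rwa [smul_zero, zero_mul] at this
    rw [inner_zero_right, this]
    simp
  · have hpos : 0 < ‖h‖ := norm_pos_iff.2 hne
    have hu : ‖‖h‖⁻¹ • h‖ = 1 := by
      rw [norm_smul, norm_inv, norm_norm]
      exact inv_mul_cancel₀ hpos.ne'
    have hPu : P (‖h‖⁻¹ • h) = 0 := by rw [map_smul, hPh, smul_zero]
    have hs := step1 hB h0 h1 hδ hκ hk hQ hPe hPu he hu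
    rw [real_inner_smul_right, G_smul] at hs
    have e1 : 2 * p * (‖h‖⁻¹ * ⟪e, h⟫) + η * (‖h‖⁻¹ * G t e h) =
        ‖h‖⁻¹ * (2 * p * ⟪e, h⟫ + η * G t e h) := by ring
    rw [e1, abs_mul, abs_of_pos (inv_pos.2 hpos), inv_mul_le_iff₀ hpos] at hs
    linarith

end PCAux

open PCAux

theorem proj_cond (p : ℕ) (hp : 2 ≤ p) (ε : ℝ) (hε : 0 < ε) : ∃ η₁ : ℝ, 0 < η₁ ∧
    ∀ η : ℝ, 0 < η → η ≤ η₁ → ∃ δ : ℝ, 0 < δ ∧ ∀ (n : ℕ) (t : V (2 * p) n), Bdd 1 t →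
      ∀ P : E n →ₗ[ℝ] E n, (∀ x, P (P x) = P x) → (∀ x, Q η t (P x) ≤ (1 + δ) * Q η t x) →
        ∀ f : E n, ‖f‖ = 1 → (∀ x, ⟪P x, f⟫ = 0) →
          ∃ w : E n, P w = w ∧ ∀ e : E n, P e = e → ‖e‖ = 1 → |G t e f - ⟪e, w⟫| ≤ ε := by
  have hp0 : (0 : ℝ) < p := by
    have : 0 < p := by omega
    exact_mod_cast this
  have hp2 : (2 : ℝ) ≤ p := by exact_mod_cast hp
  refine ⟨min (1 / 8) (ε / (8 * p)), lt_min (by norm_num) (by positivity), ?_⟩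
  intro η hη hη1
  have hη8 : η ≤ 1 / 8 := hη1.trans (min_le_left _ _)
  have hηε : 4 * p * η ≤ ε / 2 := by
    have := hη1.trans (min_le_right _ _)
    rw [le_div_iff₀ (by positivity)] at this
    linarith
  have hη' : η ≤ 1 := by linarith
  obtain ⟨κ, hκ, hκ1, hκ2⟩ : ∃ κ : ℝ, 0 < κ ∧ κ ≤ 1 ∧ κ * (2 + 2 / η) ≤ ε / 2 := by
    refine ⟨min 1 (ε / 2 / (2 + 2 / η)), lt_min one_pos (by positivity), min_le_left _ _, ?_⟩
    calc min 1 (ε / 2 / (2 + 2 / η)) * (2 + 2 / η) ≤ ε / 2 / (2 + 2 / η) * (2 + 2 / η) :=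
          mul_le_mul_of_nonneg_right (min_le_right _ _) (by positivity)
      _ = ε / 2 := by field_simp
  set C : ℝ := 4 * ((p : ℝ) + 9 * 5 ^ p + 16 ^ p) * (2 * 4 ^ p) with hC
  have hCp : 0 < C := by positivity
  refine ⟨κ ^ 2 / C, by positivity, ?_⟩
  intro n t hB P hP hQ f hf hPf
  have hk : C * (κ ^ 2 / C) ≤ κ ^ 2 := le_of_eq (by field_simp)
  have hδ : 0 < κ ^ 2 / C := by positivity
  have st : ∀ e h : E n, P e = e → P h = 0 → ‖e‖ = 1 →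
      |2 * p * ⟪e, h⟫ + η * G t e h| ≤ κ * ‖h‖ := fun e h he hh hn =>
    step2 hB hη.le hη' hδ hκ.le hk hQ he hh hn
  have hGb : ∀ e h : E n, ‖e‖ = 1 → |G t e h| ≤ 2 * p * ‖h‖ := by
    intro e h he
    have := abs_G_le hB e h
    rw [he, one_pow] at this
    push_cast at this
    linarith
  set θ : ℝ := η + κ / (2 * p) with hθ
  have hκp : κ / (2 * p) ≤ 1 / 4 := by
    rw [div_le_iff₀ (by positivity)]
    linarith
  have hκp0 : 0 ≤ κ / (2 * p) := by positivity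
  have hθ2 : θ ≤ 1 / 2 := by linarith
  have hθ0 : 0 ≤ θ := by linarith
  have in1 : ∀ e h : E n, P e = e → P h = 0 → ‖e‖ = 1 → |⟪e, h⟫| ≤ θ * ‖h‖ := by
    intro e h he hh hn
    have a1 := st e h he hh hn
    have a2 := hGb e h hn
    have a3 : |2 * p * ⟪e, h⟫| ≤ κ * ‖h‖ + η * (2 * p * ‖h‖) := by
      have e1 : 2 * p * ⟪e, h⟫ = (2 * p * ⟪e, h⟫ + η * G t e h) - η * G t e h := by ring
      rw [e1]
      refine (abs_sub _ _).trans ?_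
      rw [abs_mul η, abs_of_pos hη]
      have := mul_le_mul_of_nonneg_left a2 hη.le
      linarith
    rw [abs_mul, abs_of_pos (show (0 : ℝ) < 2 * p by positivity)] at a3
    have a4 : |⟪e, h⟫| ≤ (κ * ‖h‖ + η * (2 * p * ‖h‖)) / (2 * p) := by
      rw [le_div_iff₀ (by positivity)]
      linarith
    have a5 : (κ * ‖h‖ + η * (2 * p * ‖h‖)) / (2 * p) = θ * ‖h‖ := by
      rw [hθ]
      field_simp
      ring
    linarith
  -- the vector `P f`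
  set h := f - P f with hh
  have hPh : P h = 0 := by rw [hh, map_sub, hP, sub_self]
  have hff : f = h + P f := by rw [hh]; abel
  have hPff : ⟪P f, f⟫ = 0 := hPf f
  have hsq : ‖P f‖ ^ 2 = -⟪P f, h⟫ := by
    rw [hh, inner_sub_right, hPff, real_inner_self_eq_norm_sq]
    ring
  have hle : ‖P f‖ ≤ θ * ‖h‖ := by
    rcases eq_or_ne (P f) 0 with h00 | hne
    · rw [h00, norm_zero]
      positivity
    · have hpos : 0 < ‖P f‖ := norm_pos_iff.2 hne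
      have hu : ‖‖P f‖⁻¹ • P f‖ = 1 := by
        rw [norm_smul, norm_inv, norm_norm]
        exact inv_mul_cancel₀ hpos.ne'
      have hPu : P (‖P f‖⁻¹ • P f) = ‖P f‖⁻¹ • P f := by rw [map_smul, hP]
      have := in1 _ h hPu hPh hu
      rw [real_inner_smul_left, abs_mul, abs_of_pos (inv_pos.2 hpos),
        inv_mul_le_iff₀ hpos] at this
      have h2 : ‖P f‖ ^ 2 ≤ ‖P f‖ * (θ * ‖h‖) := by
        rw [hsq]
        exact (neg_le_abs _).trans this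
      rw [pow_two] at h2
      exact le_of_mul_le_mul_left h2 hpos
  have hhn : ‖h‖ ≤ 1 + ‖P f‖ := by
    rw [hh]
    refine (norm_sub_le _ _).trans ?_
    rw [hf]
  have hPf2 : ‖P f‖ ≤ 2 * θ := by
    have b1 := mul_le_mul_of_nonneg_left hhn hθ0
    have b2 := mul_le_mul_of_nonneg_right hθ2 (norm_nonneg (P f))
    nlinarith
  have hh2 : ‖h‖ ≤ 2 := by linarith
  refine ⟨(2 * p / η) • P f, by rw [map_smul, hP], ?_⟩
  intro e he hen
  have c1 := st e h he hPh hen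
  have c2 := hGb e (P f) hen
  have c3 : ⟪e, h⟫ = -⟪e, P f⟫ := by
    have : ⟪e, f⟫ = 0 := by
      have := hPf e
      rwa [he] at this
    rw [hh, inner_sub_right, this]
    ring
  have c4 : G t e f - ⟪e, (2 * p / η) • P f⟫ =
      (2 * p * ⟪e, h⟫ + η * G t e h) / η + G t e (P f) := by
    conv_lhs => rw [hff, G_add]
    rw [← hff, real_inner_smul_right, c3]
    field_simp
    ring
  rw [c4]
  refine (abs_add_le _ _).trans ?_
  rw [abs_div, abs_of_pos hη]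
  have c5 : |2 * p * ⟪e, h⟫ + η * G t e h| / η ≤ 2 * κ / η := by
    apply div_le_div_of_nonneg_right _ hη.le
    have := mul_le_mul_of_nonneg_left hh2 hκ.le
    linarith
  have c6 : |G t e (P f)| ≤ 4 * p * η + 2 * κ := by
    have d1 : 2 * p * ‖P f‖ ≤ 2 * p * (2 * θ) := mul_le_mul_of_nonneg_left hPf2 (by positivity)
    have d2 : 2 * p * (2 * θ) = 4 * p * η + 2 * κ := by
      rw [hθ]
      field_simp
      ring
    linarith
  have c7 : 2 * κ + 2 * κ / η ≤ ε / 2 := by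
    have : κ * (2 + 2 / η) = 2 * κ + 2 * κ / η := by ring
    linarith
  linarith

end Pool.Agent.EFP
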