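import Mathlib

set_option autoImplicit false

/-!
# EFP.Spec: the property of a space used in the final statement
-/

namespace Pool.Agent.EFP

/-- `GoodSpace η δ n`: there is an `n`-dimensional real normed space `F`, `(1 + η)`-isomorphic to
Euclidean `n`-space, such that for every subspace `S ≠ F` of dimension at least two every projection
of `F` onto `S` has norm at least `1 + δ`. -/
def GoodSpace (η δ : ℝ) (n : ℕ) : Prop :=
  ∃ (F : Type) (_ : NormedAddCommGroup F) (_ : NormedSpace ℝ F) (_ : FiniteDimensional ℝ F)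
    (e : F ≃ₗ[ℝ] EuclideanSpace ℝ (Fin n)),
    Module.finrank ℝ F = n ∧ (∀ x : F, ‖e x‖ ≤ ‖x‖ ∧ ‖x‖ ≤ (1 + η) * ‖e x‖) ∧
      ∀ S : Submodule ℝ F, 2 ≤ Module.finrank ℝ S → S ≠ ⊤ →
        ∀ P : F →L[ℝ] F, (∀ x, P x ∈ S) → (∀ x ∈ S, P x = x) → 1 + δ ≤ ‖P‖

end Pool.Agent.EFP
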