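import Pool.Agent.Lib.EFP.NormQ
import Pool.Agent.Lib.EFP.PC
import Pool.Agent.Lib.EFP.Frame
import Pool.Agent.Lib.EFP.Spec

set_option autoImplicit false

/-!
# EFP.Red: from a good tensor to a good space

PROOF. Let `η₀` be from `normQ p`, `η₁` from `proj_cond p ε`, and choose `η' = min` of `η₀`, `η₁`
and a number so small that `((1+η')/(1-η'))^(1/(2p)) ≤ 1 + η`; it is enough that
`(1 + η') ≤ (1 - η') * (1 + η)`, because then
`(1+η')/(1-η') ≤ 1 + η ≤ (1+η)^(2p)` (take `η' ≤ η / (4 + 2η)`, and `η' < 1`). Let `δ'` be from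
`proj_cond` for `η'` and `δ > 0` with `(1+δ)^(2p) ≤ 1 + δ'`, and the final gap `δ₂ = δ` (we shall show
`‖P‖ > 1 + δ` or `≥`: suppose `‖P‖ < 1 + δ`).

Given `t`, let `N` be the norm of `normQ` for `η'`; put `F = E n` with the norm
`x ↦ N x / (1-η')^(1/(2p))` (constant `κ := (1-η')^(1/(2p)) > 0`, `κ^(2p) = 1 - η'`); all axioms of
`NormedSpace.Core` (or `AddGroupNorm`) hold, definiteness because
`N x ^ (2p) = Q η' t x ≥ (1-η') ‖x‖^(2p)`. `e` is the identity. `‖x‖ ≤ N x / κ` and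
`(N x/κ)^(2p) ≤ ((1+η')/(1-η')) ‖x‖^(2p) ≤ ((1+η)‖x‖)^(2p)`.

Let `S ≠ ⊤`, `k = finrank S ≥ 2`, `k < n`, and `P` a projection onto `S` with `‖P‖ < 1 + δ`.
Then `N (P x) ≤ (1+δ) N x`, so `Q η' t (P x) ≤ (1+δ)^(2p) Q η' t x ≤ (1+δ') Q η' t x`. Let `A` be an
isometric map `E k → E n` with range `S` (`exists_iso`). By `proj_cond`, for every unit `f`
orthogonal to `S` there is `w` in `S`, `w = A w'`, with `|G t (A x) f - ⟪A x, A w'⟫| ≤ ε` for all unit
`x`, and `⟪A x, A w'⟫ = ⟪x, w'⟫` (`inner_iso`): so `Cond ε t A`, a contradiction.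
-/

namespace Pool.Agent.EFP

open scoped RealInnerProductSpace

namespace RedAux

/-- The underlying real vector space of the new normed space. -/
def FSp (n : ℕ) : Type := Fin n → ℝ

noncomputable instance (n : ℕ) : AddCommGroup (FSp n) := inferInstanceAs (AddCommGroup (Fin n → ℝ))

noncomputable instance (n : ℕ) : Module ℝ (FSp n) := inferInstanceAs (Module ℝ (Fin n → ℝ))

/-- The identification with Euclidean space. -/
noncomputable def eq (n : ℕ) : FSp n ≃ₗ[ℝ] E n := (WithLp.linearEquiv 2 ℝ (Fin n → ℝ)).symm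

theorem projection_norm {p n : ℕ} {ε η δ δ' κ : ℝ} (hδ : 0 ≤ δ) (t : V (2 * p) n)
    (hneg : ∀ k : ℕ, 2 ≤ k → k < n → ∀ A : E k →L[ℝ] E n, (∀ x, ‖A x‖ = ‖x‖) → ¬ Cond ε t A)
    (hpc : ∀ P : E n →ₗ[ℝ] E n, (∀ x, P (P x) = P x) →
      (∀ x, Q η t (P x) ≤ (1 + δ') * Q η t x) →
        ∀ f : E n, ‖f‖ = 1 → (∀ x, ⟪P x, f⟫ = 0) →
          ∃ w : E n, P w = w ∧ ∀ e : E n, P e = e → ‖e‖ = 1 → |G t e f - ⟪e, w⟫| ≤ ε)
    (hδ' : (1 + δ) ^ (2 * p) ≤ 1 + δ') (N : E n → ℝ) (hN0 : ∀ x, 0 ≤ N x)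
    (hN : ∀ x, N x ^ (2 * p) = Q η t x) {F : Type} [NormedAddCommGroup F] [NormedSpace ℝ F]
    (e : F ≃ₗ[ℝ] E n) (hκ : 0 < κ) (hnorm : ∀ x : F, ‖x‖ = N (e x) / κ) (S : Submodule ℝ F)
    (h2 : 2 ≤ Module.finrank ℝ S) (hS : S ≠ ⊤) (P : F →L[ℝ] F) (hP : ∀ x, P x ∈ S)
    (hP' : ∀ x ∈ S, P x = x) : 1 + δ ≤ ‖P‖ := by
  by_contra hlt
  push Not at hlt
  haveI : FiniteDimensional ℝ F := Module.Finite.equiv e.symm
  have hFn : Module.finrank ℝ F = n := by
    rw [e.finrank_eq, finrank_euclideanSpace, Fintype.card_fin]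
  let P' : E n →ₗ[ℝ] E n := e.toLinearMap ∘ₗ P.toLinearMap ∘ₗ e.symm.toLinearMap
  have hP'a : ∀ x, P' x = e (P (e.symm x)) := fun x => rfl
  have hPP : ∀ x, P' (P' x) = P' x := by
    intro x
    rw [hP'a, hP'a, LinearEquiv.symm_apply_apply, hP' _ (hP _)]
  have hNP : ∀ x, N (P' x) ≤ (1 + δ) * N x := by
    intro x
    have h1 := P.le_opNorm (e.symm x)
    rw [hnorm, hnorm, LinearEquiv.apply_symm_apply, ← mul_div_assoc, div_le_div_iff_of_pos_right hκ]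
      at h1
    calc N (P' x) ≤ ‖P‖ * N x := h1
      _ ≤ (1 + δ) * N x := mul_le_mul_of_nonneg_right hlt.le (hN0 x)
  have hQP : ∀ x, Q η t (P' x) ≤ (1 + δ') * Q η t x := by
    intro x
    rw [← hN, ← hN]
    calc N (P' x) ^ (2 * p) ≤ ((1 + δ) * N x) ^ (2 * p) :=
          pow_le_pow_left₀ (hN0 _) (hNP x) _
      _ = (1 + δ) ^ (2 * p) * N x ^ (2 * p) := mul_pow _ _ _
      _ ≤ (1 + δ') * N x ^ (2 * p) :=
          mul_le_mul_of_nonneg_right hδ' (pow_nonneg (hN0 x) _)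
  let S' : Submodule ℝ (E n) := S.map e.toLinearMap
  have hS'k : Module.finrank ℝ S' = Module.finrank ℝ S := LinearEquiv.finrank_map_eq e S
  have hkn : Module.finrank ℝ S < n := by
    rw [← hFn]
    exact Submodule.finrank_lt hS
  have hPS' : ∀ x, P' x ∈ S' := fun x => ⟨P (e.symm x), hP _, rfl⟩
  have hfix : ∀ y ∈ S', P' y = y := by
    rintro y ⟨z, hz, rfl⟩
    change e (P (e.symm (e z))) = e z
    rw [LinearEquiv.symm_apply_apply, hP' z hz]
  obtain ⟨A, hA, hAS⟩ := exists_iso S' hS'k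
  refine hneg _ h2 hkn A hA fun f hf hperp => ?_
  obtain ⟨w, hw, hw2⟩ := hpc P' hPP hQP f hf (fun x => by
    obtain ⟨y, hy⟩ := (hAS _).1 (hPS' x)
    rw [← hy]
    exact hperp y)
  obtain ⟨w', hw'⟩ := (hAS w).1 (by rw [← hw]; exact hPS' w)
  refine ⟨w', fun x hx => ?_⟩
  have h3 := hw2 (A x) (hfix _ ((hAS _).2 ⟨x, rfl⟩)) (by rw [hA, hx])
  rw [← hw', inner_iso A hA] at h3
  exact h3

theorem root_pow (p : ℕ) (hp : 2 ≤ p) (a : ℝ) (ha : 0 ≤ a) :
    (a ^ ((1 : ℝ) / (2 * p : ℕ))) ^ (2 * p) = a := by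
  rw [← Real.rpow_natCast, ← Real.rpow_mul ha, one_div_mul_cancel, Real.rpow_one]
  have : (0 : ℝ) < (2 * p : ℕ) := by
    have : 0 < 2 * p := by omega
    exact_mod_cast this
  exact this.ne'

end RedAux

open RedAux in
theorem red (p : ℕ) (hp : 2 ≤ p) (ε : ℝ) (hε : 0 < ε) (η : ℝ) (hη : 0 < η) : ∃ δ : ℝ, 0 < δ ∧
    ∀ n : ℕ, (∃ t : V (2 * p) n, Bdd 1 t ∧ ∀ k : ℕ, 2 ≤ k → k < n → ∀ A : E k →L[ℝ] E n,
      (∀ x, ‖A x‖ = ‖x‖) → ¬ Cond ε t A) → GoodSpace η δ n := by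
  obtain ⟨η₀, h0, h01, hNQ⟩ := normQ p hp
  obtain ⟨η₁, h1, hPC⟩ := proj_cond p hp ε hε
  obtain ⟨η', hη', hη0, hη1, hη2⟩ : ∃ η' : ℝ, 0 < η' ∧ η' ≤ η₀ ∧ η' ≤ η₁ ∧ η' ≤ η / (4 + 2 * η) :=
    ⟨min (min η₀ η₁) (η / (4 + 2 * η)), lt_min (lt_min h0 h1) (by positivity),
      (min_le_left _ _).trans (min_le_left _ _), (min_le_left _ _).trans (min_le_right _ _),
      min_le_right _ _⟩
  have hη3 : η' < 1 := lt_of_le_of_lt hη0 h01
  have hη4 : (1 + η') ≤ (1 - η') * (1 + η) := by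
    have h4 : (0 : ℝ) < 4 + 2 * η := by positivity
    rw [le_div_iff₀ h4] at hη2
    nlinarith
  obtain ⟨δ', hδ', hPC'⟩ := hPC η' hη' hη1
  have h2p : 2 * p ≠ 0 := by omega
  have hrp : (0 : ℝ) < (1 : ℝ) / (2 * p : ℕ) := by
    have : 0 < 2 * p := by omega
    have : (0 : ℝ) < (2 * p : ℕ) := by exact_mod_cast this
    positivity
  let δ : ℝ := (1 + δ') ^ ((1 : ℝ) / (2 * p : ℕ)) - 1
  have hδ : 0 < δ := by
    have : 1 < (1 + δ') ^ ((1 : ℝ) / (2 * p : ℕ)) := Real.one_lt_rpow (by linarith) hrp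
    simp only [δ]
    linarith
  have hδp : (1 + δ) ^ (2 * p) ≤ 1 + δ' := by
    have : 1 + δ = (1 + δ') ^ ((1 : ℝ) / (2 * p : ℕ)) := by simp [δ]
    rw [this, root_pow p hp _ (by linarith)]
  refine ⟨δ, hδ, fun n => ?_⟩
  rintro ⟨t, hB, hneg⟩
  obtain ⟨N, hN0, hN, hNadd, hNsmul⟩ := hNQ η' hη'.le hη0 n t hB
  let κ : ℝ := (1 - η') ^ ((1 : ℝ) / (2 * p : ℕ))
  have hκ : 0 < κ := Real.rpow_pos_of_pos (by linarith) _
  have hκp : κ ^ (2 * p) = 1 - η' := root_pow p hp _ (by linarith)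
  have hT : ∀ x : E n, |T t (fun _ => x)| ≤ ‖x‖ ^ (2 * p) := by
    intro x
    have := hB (fun _ => x)
    simpa using this
  have hlow : ∀ x : E n, κ * ‖x‖ ≤ N x := by
    intro x
    have h5 : (κ * ‖x‖) ^ (2 * p) ≤ N x ^ (2 * p) := by
      rw [mul_pow, hκp, hN, Q]
      have h6 := (abs_le.1 (hT x)).1
      nlinarith
    exact le_of_pow_le_pow_left₀ h2p (hN0 x) h5
  have hup : ∀ x : E n, N x ≤ κ * ((1 + η) * ‖x‖) := by
    intro x
    have h5 : N x ^ (2 * p) ≤ (κ * ((1 + η) * ‖x‖)) ^ (2 * p) := by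
      rw [mul_pow, mul_pow, hκp, hN, Q]
      have h6 := (abs_le.1 (hT x)).2
      have h7 : 0 ≤ ‖x‖ ^ (2 * p) := by positivity
      have h8 : 1 + η ≤ (1 + η) ^ (2 * p) := le_self_pow₀ (by linarith) h2p
      calc ‖x‖ ^ (2 * p) + η' * T t (fun _ => x) ≤ (1 + η') * ‖x‖ ^ (2 * p) := by nlinarith
        _ ≤ ((1 - η') * (1 + η)) * ‖x‖ ^ (2 * p) := mul_le_mul_of_nonneg_right hη4 h7
        _ ≤ ((1 - η') * (1 + η) ^ (2 * p)) * ‖x‖ ^ (2 * p) :=
            mul_le_mul_of_nonneg_right (mul_le_mul_of_nonneg_left h8 (by linarith)) h7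
        _ = (1 - η') * ((1 + η) ^ (2 * p) * ‖x‖ ^ (2 * p)) := by ring
    exact le_of_pow_le_pow_left₀ h2p (by positivity) h5
  let nrm : Norm (FSp n) := ⟨fun x => N (eq n x) / κ⟩
  have hnrm : ∀ x : FSp n, ‖x‖ = N (eq n x) / κ := fun x => rfl
  have core : NormedSpace.Core ℝ (FSp n) := 
    { norm_nonneg := fun x => div_nonneg (hN0 _) hκ.le
      norm_smul := fun c x => by
        rw [hnrm, hnrm, map_smul, hNsmul, Real.norm_eq_abs, mul_div_assoc]
      norm_triangle := fun x y => by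
        rw [hnrm, hnrm, hnrm, map_add, ← add_div]
        exact div_le_div_of_nonneg_right (hNadd _ _) hκ.le
      norm_eq_zero_iff := fun x => by
        rw [hnrm]
        constructor
        · intro h
          have h9 : N (eq n x) = 0 := by
            rcases div_eq_zero_iff.1 h with h | h
            · exact h
            · exact absurd h hκ.ne'
          have h10 := hlow (eq n x)
          rw [h9] at h10
          have h11 : ‖eq n x‖ = 0 := le_antisymm (by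
            by_contra hc
            push Not at hc
            nlinarith [mul_pos hκ hc]) (norm_nonneg _)
          rw [norm_eq_zero] at h11
          exact (LinearEquiv.map_eq_zero_iff _).1 h11
        · rintro rfl
          have h12 := hup (eq n 0)
          rw [map_zero, norm_zero, mul_zero, mul_zero] at h12
          rw [map_zero, le_antisymm h12 (hN0 _), zero_div] }
  letI i1 : NormedAddCommGroup (FSp n) := NormedAddCommGroup.ofCore core
  letI i2 : NormedSpace ℝ (FSp n) := NormedSpace.ofCore core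
  haveI i3 : FiniteDimensional ℝ (FSp n) := Module.Finite.equiv (eq n).symm
  refine ⟨FSp n, i1, i2, i3, eq n, ?_, ?_, ?_⟩
  · rw [(eq n).finrank_eq, finrank_euclideanSpace, Fintype.card_fin]
  · intro x
    constructor
    · rw [show ‖x‖ = N (eq n x) / κ from rfl, le_div_iff₀ hκ, mul_comm]
      exact hlow _
    · rw [show ‖x‖ = N (eq n x) / κ from rfl, div_le_iff₀ hκ, mul_comm]
      exact hup _
  · intro S h2 hS P hP hP'
    exact projection_norm (ε := ε) (η := η') (δ' := δ') hδ.le t hneg (hPC' n t hB) hδp N hN0 hN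
      (eq n) hκ (fun x => rfl) S h2 hS P hP hP'

end Pool.Agent.EFP
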