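import Pool.Agent.Lib.EFP.ML1
import Pool.Agent.Lib.EFP.ML2
import Pool.Agent.Lib.EFP.Red

set_option autoImplicit false

/-!
# EFP.Final: the dimension-free gap
-/

namespace Pool.Agent.EFP

theorem GoodSpace.mono {η δ δ' : ℝ} {n : ℕ} (h : GoodSpace η δ n) (hδ : δ' ≤ δ) :
    GoodSpace η δ' n := by
  obtain ⟨F, i1, i2, i3, e, h1, h2, h3⟩ := h
  exact ⟨F, i1, i2, i3, e, h1, h2, fun S hS hS' P hP hP' => by
    have := h3 S hS hS' P hP hP'
    linarith⟩

theorem goodSpace_zero (η : ℝ) (hη : 0 < η) (δ : ℝ) : GoodSpace η δ 0 := by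
  refine ⟨EuclideanSpace ℝ (Fin 0), inferInstance, inferInstance, inferInstance,
    LinearEquiv.refl ℝ _, by simp, fun x => ⟨le_rfl, ?_⟩, fun S hS _ => ?_⟩
  · have : (0 : ℝ) ≤ ‖x‖ := norm_nonneg _
    change ‖x‖ ≤ (1 + η) * ‖x‖
    nlinarith
  · have h1 : Module.finrank ℝ S ≤ Module.finrank ℝ (EuclideanSpace ℝ (Fin 0)) :=
      Submodule.finrank_le S
    rw [finrank_euclideanSpace, Fintype.card_fin] at h1
    omega

/-- For every `η > 0` there is `δ > 0` such that in every dimension `n` there is a space which is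
`(1 + η)`-isomorphic to Euclidean space and on which every projection of rank at least two other than
the identity has norm at least `1 + δ`. -/
theorem gap (η : ℝ) (hη : 0 < η) : ∃ δ : ℝ, 0 < δ ∧ ∀ n : ℕ, GoodSpace η δ n := by
  obtain ⟨ε₁, hε₁, h1⟩ := ml1
  obtain ⟨δ₁, hδ₁, hr1⟩ := red 5 (by norm_num) ε₁ hε₁ η hη
  have h2 : ∀ n : ℕ, ∃ δ : ℝ, 0 < δ ∧ GoodSpace η δ n := by
    intro n
    rcases Nat.eq_zero_or_pos n with rfl | hn
    · exact ⟨1, one_pos, goodSpace_zero η hη 1⟩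
    · obtain ⟨p, hp, ε₀, hε₀, ht⟩ := ml2 n hn
      obtain ⟨δ, hδ, hr⟩ := red p hp ε₀ hε₀ η hη
      exact ⟨δ, hδ, hr n ht⟩
  choose δ₂ hδ₂ hg using h2
  let m : ℝ := (Finset.range 1500).inf' ⟨0, by simp⟩ δ₂
  have hm : 0 < m := by
    rw [Finset.lt_inf'_iff]
    exact fun i _ => hδ₂ i
  refine ⟨min δ₁ m, lt_min hδ₁ hm, fun n => ?_⟩
  rcases lt_or_ge n 1500 with hn | hn
  · exact (hg n).mono ((min_le_right _ _).trans (Finset.inf'_le _ (Finset.mem_range.2 hn)))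
  · exact (hr1 n (h1 n hn)).mono (min_le_left _ _)

end Pool.Agent.EFP
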