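import Pool.Agent.Lib.EFP.CondY

set_option autoImplicit false

/-!
# EFP.LargeB: the sum of squares of the large family forced by the frame condition

PROOF. Let `K = r^r`. The vectors `bas (xi r d k h i j)`, `j : Fin r`, are orthonormal (`xi r d k h i`
is injective: strictly increasing values in consecutive disjoint blocks).

(1) Fix `i = (a, b, c)`. With `α l = ⟪t, yvec d h A (f l) i⟫` and `S = ∑ α l ^ 2 > 0` put
`F = ∑ l, (α l/√S) • f l`, a unit vector orthogonal to the range of `A`. `Yp` is linear in the entry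
`0` (`Yp_update_sum`, `Fin.cons F x = Function.update (Fin.cons 0 x) 0 F`), so
`√S = ⟪t, yvec d h A F i⟫ ≤ K ε` by `condY`. So `∑ l, ⟪..⟫^2 ≤ (K ε)^2` for each `i`, and the
whole sum is at most `d^3 (K ε)^2`.

(2) Fix `a, b, l`. With `α c = ⟪t, yvec d h A (f l) (a, b, c)⟫`, `S = ∑ α c ^ 2 > 0` let
`x : Fin r → E k` be `bas (xi r d k h (a,b,c₀) j)` for `j ≠ r - 1` (these do not depend on `c₀`) and
`x (r-1) = ∑ c, (α c / √S) • bas (r - 3 + 2d + c)`; `x` is orthonormal. `Yp` is linear in the last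
entry, `A` is linear, so `√S = ⟪t, Yp (Fin.cons (f l) (A ∘ x))⟫ ≤ K ε`. So `∑ c, ⟪..⟫^2 ≤ (Kε)^2`
and the whole sum is at most `d^2 m (K ε)^2`.

The claim follows since `min d m` is `d` or `m`.
-/

namespace Pool.Agent.EFP

open scoped RealInnerProductSpace

namespace LargeBAux

/-- A vector all of whose products with unit vectors are at most `M` has norm at most `M`. -/
theorem dual {ι : Type*} [Fintype ι] (α : ι → ℝ) (M : ℝ)
    (h : ∀ c : ι → ℝ, ∑ l, c l ^ 2 = 1 → |∑ l, c l * α l| ≤ M) : ∑ l, α l ^ 2 ≤ M ^ 2 := by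
  by_cases hS : ∑ l, α l ^ 2 ≤ 0
  · exact hS.trans (sq_nonneg M)
  · have hS' : 0 < ∑ l, α l ^ 2 := not_le.1 hS
    have hq : √(∑ l, α l ^ 2) ^ 2 = ∑ l, α l ^ 2 := Real.sq_sqrt hS'.le
    have hqp : 0 < √(∑ l, α l ^ 2) := Real.sqrt_pos.2 hS'
    have h1 := h (fun l => α l / √(∑ l, α l ^ 2)) (by
      simp only [div_pow]
      rw [← Finset.sum_div, hq, div_self hS'.ne'])
    have h2 : ∑ l, α l / √(∑ l, α l ^ 2) * α l = √(∑ l, α l ^ 2) := by
      have : ∀ l, α l / √(∑ l, α l ^ 2) * α l = α l ^ 2 / √(∑ l, α l ^ 2) := fun l => by ring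
      simp only [this]
      rw [← Finset.sum_div, div_eq_iff hqp.ne', ← sq, hq]
    rw [h2, abs_of_pos hqp] at h1
    rw [← hq]
    exact pow_le_pow_left₀ hqp.le h1 2

theorem xi_inj {r d k : ℕ} (h : r - 3 + 3 * d ≤ k) (hr : 3 ≤ r)
    (i : Fin d × Fin d × Fin d) : Function.Injective (xi r d k h i) := by
  intro j j' hj
  have h1 := i.1.2
  have h2 := i.2.1.2
  have h3 := i.2.2.2
  have h4 := j.2
  have h5 := j'.2
  have hv := congrArg Fin.val hj
  unfold xi at hv
  apply Fin.ext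
  split_ifs at hv <;> simp only [] at hv <;> omega

theorem xi_off {r d k : ℕ} (h : r - 3 + 3 * d ≤ k) (a b c c' : Fin d) (j : Fin r)
    (hj : (j : ℕ) ≠ r - 1) : xi r d k h (a, b, c) j = xi r d k h (a, b, c') j := by
  have h5 := j.2
  unfold xi
  split_ifs with h1 h2 h3
  · rfl
  · rfl
  · rfl
  · omega

theorem xi_last {r d k : ℕ} (h : r - 3 + 3 * d ≤ k) (hr : 3 ≤ r) (a b c : Fin d) :
    ((xi r d k h (a, b, c) ⟨r - 1, by omega⟩ : Fin k) : ℕ) = r - 3 + 2 * d + c := by
  unfold xi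
  simp only
  split_ifs with h1 h2 h3
  · omega
  · omega
  · omega
  · rfl

theorem bas_on {k : ℕ} : Orthonormal ℝ (fun i : Fin k => bas i) :=
  EuclideanSpace.orthonormal_single

theorem norm_comb {ι : Type*} [Fintype ι] {n : ℕ} {f : ι → E n} (hf : Orthonormal ℝ f)
    (c : ι → ℝ) (hc : ∑ l, c l ^ 2 = 1) : ‖∑ l, c l • f l‖ = 1 := by
  have h1 : ⟪∑ l, c l • f l, ∑ l, c l • f l⟫ = 1 := by
    rw [hf.inner_sum]
    simpa [sq] using hc
  rw [real_inner_self_eq_norm_sq] at h1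
  exact (pow_eq_one_iff_of_nonneg (norm_nonneg _) two_ne_zero).1 h1

theorem one {r n k m : ℕ} (d : ℕ) (h : r - 3 + 3 * d ≤ k) (hr : 3 ≤ r) {ε : ℝ}
    (hε : 0 ≤ ε) {t : V (r + 1) n} {A : E k →L[ℝ] E n} (hA : ∀ x, ‖A x‖ = ‖x‖)
    (hC : Cond ε t A) (f : Fin m → E n) (hf : Orthonormal ℝ f) (hAf : ∀ z l, ⟪A z, f l⟫ = 0)
    (i : Fin d × Fin d × Fin d) :
    ∑ l, ⟪t, yvec d h A (f l) i⟫ ^ 2 ≤ ((r : ℝ) ^ r * ε) ^ 2 := by
  apply dual
  intro c hc
  have hF := norm_comb hf c hc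
  have hAF : ∀ z, ⟪A z, ∑ l, c l • f l⟫ = 0 := by
    intro z
    rw [inner_sum]
    refine Finset.sum_eq_zero fun l _ => ?_
    rw [real_inner_smul_right, hAf, mul_zero]
  have hx : Orthonormal ℝ (fun j => (bas (xi r d k h i j) : E k)) :=
    bas_on.comp _ (xi_inj h hr i)
  have key := condY (by omega) hε hA hC _ hx _ hF hAF
  have hlin : Yp (Fin.cons (∑ l, c l • f l) fun j => A (bas (xi r d k h i j)) :
      Fin (r + 1) → E n) = ∑ l, c l • yvec d h A (f l) i := by
    have hc0 : ∀ F : E n, (Fin.cons F fun j => A (bas (xi r d k h i j)) : Fin (r + 1) → E n) =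
        Function.update (Fin.cons 0 fun j => A (bas (xi r d k h i j)) : Fin (r + 1) → E n) 0 F := by
      intro F
      rw [Fin.update_cons_zero]
    rw [hc0, Yp_update_sum]
    refine Finset.sum_congr rfl fun l _ => ?_
    rw [← hc0]
    rfl
  rw [hlin, inner_sum] at key
  simpa only [real_inner_smul_right] using key

theorem two {r n k m : ℕ} (d : ℕ) (h : r - 3 + 3 * d ≤ k) (hr : 3 ≤ r) {ε : ℝ}
    (hε : 0 ≤ ε) {t : V (r + 1) n} {A : E k →L[ℝ] E n} (hA : ∀ x, ‖A x‖ = ‖x‖)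
    (hC : Cond ε t A) (f : Fin m → E n) (hf : Orthonormal ℝ f) (hAf : ∀ z l, ⟪A z, f l⟫ = 0)
    (a b : Fin d) (l : Fin m) :
    ∑ c, ⟪t, yvec d h A (f l) (a, b, c)⟫ ^ 2 ≤ ((r : ℝ) ^ r * ε) ^ 2 := by
  apply dual
  intro c hc
  set L : Fin r := ⟨r - 1, by omega⟩ with hL
  set x₀ : Fin r → E k := fun j => bas (xi r d k h (a, b, a) j) with hx₀
  have hbl : Orthonormal ℝ (fun c' : Fin d => (bas (xi r d k h (a, b, c') L) : E k)) := by
    refine bas_on.comp _ ?_
    intro c₁ c₂ h12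
    have := congrArg Fin.val h12
    rw [hL, xi_last h hr, xi_last h hr] at this
    apply Fin.ext
    omega
  set v : E k := ∑ c', c c' • bas (xi r d k h (a, b, c') L) with hv
  have hvn : ‖v‖ = 1 := norm_comb hbl c hc
  have hne : ∀ j : Fin r, j ≠ L → ⟪x₀ j, v⟫ = 0 := by
    intro j hj
    have hj' : (j : ℕ) ≠ r - 1 := fun hh => hj (Fin.ext (by rw [hh]))
    rw [hv, inner_sum]
    refine Finset.sum_eq_zero fun c' _ => ?_
    rw [real_inner_smul_right, hx₀]
    simp only
    rw [xi_off h a b a c' j hj']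
    have h0 := bas_on.2 (fun hh => hj (xi_inj h hr (a, b, c') hh))
    rw [h0, mul_zero]
  have hx : Orthonormal ℝ (Function.update x₀ L v) := by
    rw [orthonormal_iff_ite]
    intro i j
    by_cases hi : i = L
    · rw [hi, Function.update_self]
      by_cases hj : j = L
      · rw [hj, Function.update_self, if_pos rfl, real_inner_self_eq_norm_sq, hvn, one_pow]
      · rw [Function.update_of_ne hj, if_neg (Ne.symm hj), real_inner_comm]
        exact hne j hj
    · rw [Function.update_of_ne hi]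
      by_cases hj : j = L
      · rw [hj, Function.update_self, if_neg hi]
        exact hne i hi
      · rw [Function.update_of_ne hj]
        have h0 : Orthonormal ℝ x₀ := bas_on.comp _ (xi_inj h hr (a, b, a))
        exact orthonormal_iff_ite.1 h0 i j
  have key := condY (by omega) hε hA hC _ hx (f l) (hf.1 l) (fun z => hAf z l)
  have hup : ∀ w : E k, (Fin.cons (f l) fun j => A (Function.update x₀ L w j) :
      Fin (r + 1) → E n) =
      Function.update (Fin.cons (f l) fun j => A (x₀ j) : Fin (r + 1) → E n) L.succ (A w) := by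
    intro w
    rw [← Fin.cons_update]
    congr 1
    funext j
    by_cases hj : j = L
    · subst hj
      rw [Function.update_self, Function.update_self]
    · rw [Function.update_of_ne hj, Function.update_of_ne hj]
  have hyv : ∀ c', yvec d h A (f l) (a, b, c') =
      Yp (Function.update (Fin.cons (f l) fun j => A (x₀ j) : Fin (r + 1) → E n) L.succ
        (A (bas (xi r d k h (a, b, c') L)))) := by
    intro c'
    rw [← hup]
    unfold yvec
    congr 2
    funext j
    by_cases hj : j = L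
    · subst hj
      rw [Function.update_self]
    · rw [Function.update_of_ne hj, hx₀]
      simp only
      rw [xi_off h a b c' a j (fun hh => hj (Fin.ext (by rw [hh])))]
  rw [hup, hv, map_sum] at key
  simp only [map_smul] at key
  rw [Yp_update_sum, inner_sum] at key
  simp only [real_inner_smul_right, ← hyv] at key
  exact key

end LargeBAux

open LargeBAux in
theorem sum_yvec_le {r n k m : ℕ} (d : ℕ) (h : r - 3 + 3 * d ≤ k) (hr : 3 ≤ r) {ε : ℝ}
    (hε : 0 ≤ ε) {t : V (r + 1) n} {A : E k →L[ℝ] E n} (hA : ∀ x, ‖A x‖ = ‖x‖)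
    (hC : Cond ε t A) (f : Fin m → E n) (hf : Orthonormal ℝ f) (hAf : ∀ z l, ⟪A z, f l⟫ = 0) :
    ∑ i : (Fin d × Fin d × Fin d) × Fin m, ⟪t, yvec d h A (f i.2) i.1⟫ ^ 2 ≤
      (d : ℝ) ^ 2 * min (d : ℝ) m * ((r : ℝ) ^ r * ε) ^ 2 := by
  rw [Fintype.sum_prod_type]
  simp only
  rcases le_total (d : ℝ) m with hdm | hdm
  · rw [min_eq_left hdm]
    calc ∑ i : Fin d × Fin d × Fin d, ∑ l, ⟪t, yvec d h A (f l) i⟫ ^ 2
        ≤ ∑ _i : Fin d × Fin d × Fin d, ((r : ℝ) ^ r * ε) ^ 2 :=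
          Finset.sum_le_sum fun i _ => one d h hr hε hA hC f hf hAf i
      _ = (d : ℝ) ^ 2 * (d : ℝ) * ((r : ℝ) ^ r * ε) ^ 2 := by
          rw [Finset.sum_const, Finset.card_univ]
          simp only [Fintype.card_prod, Fintype.card_fin, nsmul_eq_mul]
          push_cast
          ring
  · rw [min_eq_right hdm]
    have hsw : ∑ i : Fin d × Fin d × Fin d, ∑ l, ⟪t, yvec d h A (f l) i⟫ ^ 2 =
        ∑ a : Fin d, ∑ b : Fin d, ∑ l : Fin m, ∑ c : Fin d,
          ⟪t, yvec d h A (f l) (a, b, c)⟫ ^ 2 := by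
      rw [Fintype.sum_prod_type]
      refine Finset.sum_congr rfl fun a _ => ?_
      rw [Fintype.sum_prod_type]
      refine Finset.sum_congr rfl fun b _ => ?_
      exact Finset.sum_comm
    rw [hsw]
    calc ∑ a : Fin d, ∑ b : Fin d, ∑ l : Fin m, ∑ c : Fin d,
          ⟪t, yvec d h A (f l) (a, b, c)⟫ ^ 2
        ≤ ∑ _a : Fin d, ∑ _b : Fin d, ∑ _l : Fin m, ((r : ℝ) ^ r * ε) ^ 2 :=
          Finset.sum_le_sum fun a _ => Finset.sum_le_sum fun b _ =>
            Finset.sum_le_sum fun l _ => two d h hr hε hA hC f hf hAf a b l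
      _ = (d : ℝ) ^ 2 * (m : ℝ) * ((r : ℝ) ^ r * ε) ^ 2 := by
          simp only [Finset.sum_const, Finset.card_univ, Fintype.card_fin, nsmul_eq_mul]
          ring

end Pool.Agent.EFP
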