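import Pool.Agent.Lib.EFP.Defs

set_option autoImplicit false

/-!
# EFP.SmallBall: few points of a ball are almost orthogonal to a well conditioned family

PROOF. Write `N = card ι`, `D = finrank ℝ W`. The lower bound `hw` shows that `w` is linearly
independent; let `U` be its span, `dim U = N`, and `Π` the orthogonal projection onto `U`.

(1) For `u ∈ U`: `c^2 ‖u‖^2 ≤ ∑ i ⟪u, w i⟫^2`. Write `u = ∑ x i w i`. Then
`‖u‖^4 = (∑ x i ⟪w i, u⟫)^2 ≤ (∑ x i^2) (∑ ⟪w i, u⟫^2) ≤ (‖u‖^2/c^2) ∑ ⟪w i, u⟫^2`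
(Cauchy-Schwarz and `hw`); divide by `‖u‖^2` (trivial if `u = 0`).

(2) As `⟪t, w i⟫ = ⟪Π t, w i⟫`, every `t` of the set satisfies `‖Π t‖ ≤ r / c`.

(3) Let `s = exp (1/2) / a > 0` and let `L : W → W`, `L t = t + (s - 1) Π t` (that is `s` times the
identity on `U` and the identity on `Uᗮ`). `det L = s ^ N` (take an orthonormal basis adapted to
`U` and `Uᗮ`: the matrix is diagonal; or use `LinearMap.det` on a direct sum decomposition). So
`μ (L '' S) = s ^ N * μ S` (`MeasureTheory.Measure.addHaar_image_linearMap`).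

(4) For `t ∈ S`: `‖L t‖^2 = ‖t - Π t‖^2 + s^2 ‖Π t‖^2 ≤ R^2 + s^2 r^2 / c^2
= R^2 (1 + s^2 r^2/(c^2 R^2)) ≤ R^2 exp (s^2 r^2 / (c^2 R^2))`. So `L '' S` is contained in the
closed ball of radius `R exp (s^2 r^2/(2 c^2 R^2))`, whose measure is
`exp (s^2 r^2 D / (2 c^2 R^2)) * μ (closedBall 0 R)`.

(5) By `h`, `s^2 r^2 D / (2 c^2 R^2) = e r^2 D / (2 a^2 c^2 R^2) ≤ (e/3) N / 2 ≤ N / 2`
(`Real.exp_one_lt_d9` or any proof of `exp 1 ≤ 3`). Hence
`μ S ≤ s^(-N) exp (N/2) μ (closedBall 0 R) = a^N μ (closedBall 0 R)`.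

(For `N = 0` the claim is trivial.)
-/

namespace Pool.Agent.EFP

open MeasureTheory Metric
open scoped RealInnerProductSpace

namespace SmallBallAux

theorem det_L {W : Type} [NormedAddCommGroup W] [InnerProductSpace ℝ W]
    [FiniteDimensional ℝ W] (U : Submodule ℝ W) (s : ℝ) :
    LinearMap.det ((LinearMap.id : W →ₗ[ℝ] W) + (s - 1) • (U.starProjection : W →ₗ[ℝ] W)) =
      s ^ Module.finrank ℝ U := by
  set e : W →ₗ[ℝ] W := (LinearMap.id : W →ₗ[ℝ] W) + (s - 1) • (U.starProjection : W →ₗ[ℝ] W)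
    with he0
  have hea : ∀ x, e x = x + (s - 1) • U.starProjection x := fun x => rfl
  have he : U ≤ U.comap e := by
    intro x hx
    rw [Submodule.mem_comap, hea]
    exact U.add_mem hx (U.smul_mem _ (U.starProjection_apply_mem x))
  rw [LinearMap.det_eq_det_mul_det U e he]
  have h1 : e.restrict he = s • LinearMap.id := by
    ext x
    have hx : U.starProjection (x : W) = x := Submodule.starProjection_eq_self_iff.2 x.2
    simp only [LinearMap.restrict_coe_apply, hea, hx, LinearMap.smul_apply, LinearMap.id_apply,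
      Submodule.coe_smul]
    rw [sub_smul, one_smul, add_sub_cancel]
  have h2 : U.mapQ U e he = LinearMap.id := by
    apply Submodule.linearMap_qext
    ext x
    simp only [LinearMap.comp_apply, Submodule.mkQ_apply, Submodule.mapQ_apply,
      LinearMap.id_apply]
    rw [Submodule.Quotient.eq, hea, add_sub_cancel_left]
    exact U.smul_mem _ (U.starProjection_apply_mem x)
  rw [h1, h2, LinearMap.det_id, LinearMap.det_smul, LinearMap.det_id, mul_one, mul_one]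

theorem low {W : Type} [NormedAddCommGroup W] [InnerProductSpace ℝ W]
    {ι : Type} [Fintype ι] (w : ι → W) {c : ℝ} (hc : 0 < c)
    (hw : ∀ x : ι → ℝ, c ^ 2 * ∑ i, x i ^ 2 ≤ ‖∑ i, x i • w i‖ ^ 2) {u : W}
    (hu : u ∈ Submodule.span ℝ (Set.range w)) :
    c ^ 2 * ‖u‖ ^ 2 ≤ ∑ i, ⟪u, w i⟫ ^ 2 := by
  obtain ⟨x, rfl⟩ := (Submodule.mem_span_range_iff_exists_fun ℝ).1 hu
  set u := ∑ i, x i • w i with hudef
  have h1 : ‖u‖ ^ 2 = ∑ i, x i * ⟪u, w i⟫ := by
    rw [← real_inner_self_eq_norm_sq]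
    conv_lhs => rw [hudef]
    rw [sum_inner]
    refine Finset.sum_congr rfl (fun i _ => ?_)
    rw [real_inner_smul_left, real_inner_comm]
  have h2 : (‖u‖ ^ 2) ^ 2 ≤ (∑ i, x i ^ 2) * ∑ i, ⟪u, w i⟫ ^ 2 := by
    rw [h1]
    exact Finset.sum_mul_sq_le_sq_mul_sq _ _ _
  have h3 := hw x
  rw [← hudef] at h3
  have hT : 0 ≤ ∑ i, ⟪u, w i⟫ ^ 2 := Finset.sum_nonneg (fun i _ => sq_nonneg _)
  rcases eq_or_ne u 0 with h0 | h0
  · rw [h0] at hT ⊢
    simp
  · have hpos : 0 < ‖u‖ ^ 2 := by positivity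
    have h4 : ‖u‖ ^ 2 * (c ^ 2 * ‖u‖ ^ 2) ≤ ‖u‖ ^ 2 * ∑ i, ⟪u, w i⟫ ^ 2 := by
      calc ‖u‖ ^ 2 * (c ^ 2 * ‖u‖ ^ 2) = c ^ 2 * (‖u‖ ^ 2) ^ 2 := by ring
        _ ≤ c ^ 2 * ((∑ i, x i ^ 2) * ∑ i, ⟪u, w i⟫ ^ 2) :=
          mul_le_mul_of_nonneg_left h2 (by positivity)
        _ = (c ^ 2 * ∑ i, x i ^ 2) * ∑ i, ⟪u, w i⟫ ^ 2 := by ring
        _ ≤ ‖u‖ ^ 2 * ∑ i, ⟪u, w i⟫ ^ 2 := mul_le_mul_of_nonneg_right h3 hT
    exact le_of_mul_le_mul_left h4 hpos

theorem indep {W : Type} [NormedAddCommGroup W] [InnerProductSpace ℝ W]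
    {ι : Type} [Fintype ι] (w : ι → W) {c : ℝ} (hc : 0 < c)
    (hw : ∀ x : ι → ℝ, c ^ 2 * ∑ i, x i ^ 2 ≤ ‖∑ i, x i • w i‖ ^ 2) :
    LinearIndependent ℝ w := by
  rw [Fintype.linearIndependent_iff]
  intro g hg i
  have h1 := hw g
  rw [hg, norm_zero] at h1
  have hc2 : 0 < c ^ 2 := by positivity
  have h2 : ∑ i, g i ^ 2 ≤ 0 := by
    by_contra hcon
    push Not at hcon
    have := mul_pos hc2 hcon
    norm_num at h1
    linarith
  have h3 : g i ^ 2 ≤ ∑ i, g i ^ 2 :=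
    Finset.single_le_sum (f := fun i => g i ^ 2) (fun i _ => sq_nonneg _) (Finset.mem_univ i)
  have h4 : g i ^ 2 = 0 := le_antisymm (h3.trans h2) (sq_nonneg _)
  exact pow_eq_zero_iff (two_ne_zero) |>.1 h4

end SmallBallAux

open SmallBallAux

theorem smallBall {W : Type} [NormedAddCommGroup W] [InnerProductSpace ℝ W]
    [FiniteDimensional ℝ W] [MeasurableSpace W] [BorelSpace W] (μ : Measure W)
    [μ.IsAddHaarMeasure] {ι : Type} [Fintype ι] (w : ι → W) {c R r a : ℝ} (hc : 0 < c)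
    (hR : 0 < R) (hr : 0 ≤ r) (ha : 0 < a)
    (hw : ∀ x : ι → ℝ, c ^ 2 * ∑ i, x i ^ 2 ≤ ‖∑ i, x i • w i‖ ^ 2)
    (h : 3 * r ^ 2 * Module.finrank ℝ W ≤ a ^ 2 * c ^ 2 * R ^ 2 * Fintype.card ι) :
    μ {t | ‖t‖ ≤ R ∧ ∑ i, ⟪t, w i⟫ ^ 2 ≤ r ^ 2} ≤
      ENNReal.ofReal (a ^ Fintype.card ι) * μ (closedBall 0 R) := by
  set U : Submodule ℝ W := Submodule.span ℝ (Set.range w) with hU
  set N := Fintype.card ι with hN
  set D := Module.finrank ℝ W with hD
  have hfr : Module.finrank ℝ U = N := finrank_span_eq_card (indep w hc hw)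
  set s : ℝ := Real.exp (1 / 2) / a with hs
  have hspos : 0 < s := by positivity
  have hs2 : s ^ 2 = Real.exp 1 / a ^ 2 := by
    rw [hs, div_pow, ← Real.exp_nat_mul]
    norm_num
  set e : W →ₗ[ℝ] W := (LinearMap.id : W →ₗ[ℝ] W) + (s - 1) • (U.starProjection : W →ₗ[ℝ] W)
    with he0
  have hea : ∀ x, e x = x + (s - 1) • U.starProjection x := fun x => rfl
  have hdet : LinearMap.det e = s ^ N := by
    rw [he0, det_L U s, hfr]
  set S : Set W := {t | ‖t‖ ≤ R ∧ ∑ i, ⟪t, w i⟫ ^ 2 ≤ r ^ 2} with hS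
  set y : ℝ := s ^ 2 * r ^ 2 / (c ^ 2 * R ^ 2) with hy
  have hsub : e '' S ⊆ closedBall 0 (Real.exp (y / 2) * R) := by
    rintro _ ⟨t, ⟨ht1, ht2⟩, rfl⟩
    rw [mem_closedBall_zero_iff, hea]
    set p := U.starProjection t with hp
    have hpU : p ∈ U := U.starProjection_apply_mem t
    have hwi : ∀ i, ⟪t, w i⟫ = ⟪p, w i⟫ := by
      intro i
      have h1 : ⟪t - p, w i⟫ = 0 :=
        Submodule.starProjection_inner_eq_zero t (w i) (Submodule.subset_span ⟨i, rfl⟩)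
      rw [inner_sub_left] at h1
      linarith
    have h2 : c ^ 2 * ‖p‖ ^ 2 ≤ r ^ 2 := by
      refine (low w hc hw hpU).trans ?_
      simp only [hwi] at ht2
      exact ht2
    have h3 : ⟪t - p, p⟫ = 0 := Submodule.starProjection_inner_eq_zero t p hpU
    have h4 : ‖t‖ ^ 2 = ‖t - p‖ ^ 2 + ‖p‖ ^ 2 := by
      have := norm_add_sq_real (t - p) p
      rw [sub_add_cancel, h3] at this
      linarith
    have h5 : t + (s - 1) • p = (t - p) + s • p := by
      rw [sub_smul, one_smul]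
      abel
    have h6 : ‖t + (s - 1) • p‖ ^ 2 = ‖t - p‖ ^ 2 + s ^ 2 * ‖p‖ ^ 2 := by
      rw [h5, norm_add_sq_real, real_inner_smul_right, h3, norm_smul, Real.norm_eq_abs,
        abs_of_pos hspos]
      ring
    have h7 : ‖p‖ ^ 2 ≤ r ^ 2 / c ^ 2 := by
      rw [le_div_iff₀ (by positivity)]
      linarith
    have h8 : ‖t - p‖ ^ 2 ≤ R ^ 2 := by
      have : ‖t‖ ^ 2 ≤ R ^ 2 := pow_le_pow_left₀ (norm_nonneg _) ht1 2
      nlinarith [sq_nonneg ‖p‖]
    have h9 : ‖t + (s - 1) • p‖ ^ 2 ≤ (Real.exp (y / 2) * R) ^ 2 := by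
      rw [h6, mul_pow, ← Real.exp_nat_mul]
      have e1 : ((2 : ℕ) : ℝ) * (y / 2) = y := by push_cast; ring
      rw [e1]
      have e2 : R ^ 2 + s ^ 2 * (r ^ 2 / c ^ 2) = (y + 1) * R ^ 2 := by
        rw [hy]
        field_simp
        ring
      calc ‖t - p‖ ^ 2 + s ^ 2 * ‖p‖ ^ 2 ≤ R ^ 2 + s ^ 2 * (r ^ 2 / c ^ 2) :=
            add_le_add h8 (mul_le_mul_of_nonneg_left h7 (by positivity))
        _ = (y + 1) * R ^ 2 := e2
        _ ≤ Real.exp y * R ^ 2 := mul_le_mul_of_nonneg_right (Real.add_one_le_exp y) (by positivity)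
    exact (pow_le_pow_iff_left₀ (norm_nonneg _) (by positivity) (two_ne_zero)).1 h9
  have hyD : y / 2 * D ≤ N / 2 := by
    have hE : Real.exp 1 ≤ 3 := by
      have := Real.exp_one_lt_d9
      linarith
    have h1 : y * D ≤ N := by
      rw [hy, hs2, div_mul_eq_mul_div, div_le_iff₀ (by positivity), div_mul_eq_mul_div,
        div_mul_eq_mul_div, div_le_iff₀ (by positivity)]
      have h2 : 0 ≤ r ^ 2 * (D : ℝ) := by positivity
      calc Real.exp 1 * r ^ 2 * D = Real.exp 1 * (r ^ 2 * D) := by ring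
        _ ≤ 3 * (r ^ 2 * D) := mul_le_mul_of_nonneg_right hE h2
        _ = 3 * r ^ 2 * D := by ring
        _ ≤ a ^ 2 * c ^ 2 * R ^ 2 * N := h
        _ = N * (c ^ 2 * R ^ 2) * a ^ 2 := by ring
    linarith
  have hm1 : ENNReal.ofReal (s ^ N) * μ S ≤ ENNReal.ofReal (Real.exp (N / 2)) * μ (closedBall 0 R) := by
    have h1 : μ (e '' S) = ENNReal.ofReal (s ^ N) * μ S := by
      rw [Measure.addHaar_image_linearMap, hdet, abs_of_pos (by positivity)]
    rw [← h1]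
    refine (measure_mono hsub).trans ?_
    rw [Measure.addHaar_closedBall_mul μ 0 (by positivity) hR.le]
    refine mul_le_mul_left ?_ _
    apply ENNReal.ofReal_le_ofReal
    rw [← Real.exp_nat_mul]
    apply Real.exp_le_exp.2
    linarith
  have hsN : s ^ N * a ^ N = Real.exp (N / 2) := by
    rw [← mul_pow, hs, div_mul_cancel₀ _ ha.ne', ← Real.exp_nat_mul]
    congr 1
    ring
  have h10 : ENNReal.ofReal (s ^ N) * μ S ≤
      ENNReal.ofReal (s ^ N) * (ENNReal.ofReal (a ^ N) * μ (closedBall 0 R)) := by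
    rw [← mul_assoc, ← ENNReal.ofReal_mul (by positivity), hsN]
    exact hm1
  exact (ENNReal.mul_le_mul_iff_right (by simpa using pow_pos hspos N) ENNReal.ofReal_ne_top).1 h10

end Pool.Agent.EFP
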