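import Pool.Agent.Lib.EFP.LargeY
import Pool.Agent.Lib.EFP.LargeB
import Pool.Agent.Lib.EFP.SmallBall

set_option autoImplicit false

/-!
# EFP.LargeFam: the frame condition is rare (large rank)

PROOF. `K = 2 r^r`. Let `m = n - k ≥ 1` and `f` the system of `frame_perp` for `A`. Put
`ι = (Fin d × Fin d × Fin d) × Fin m`, `N = card ι = d^3 m`. If `Cond ε t A`, then by `sum_yvec_le`
`∑_ι ⟪t, yvec⟫^2 ≤ ρ^2`, `ρ^2 = d^2 min(d,m) (r^r ε)^2` (`ρ` its square root). Apply `smallBall` with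
`c = 1` (`riesz_yvec`), `W = V (r+1) n`, `finrank = n^(r+1)`, `a = K ε √(n / max d m)`: the condition is
`3 ρ^2 n^(r+1) ≤ a^2 R^2 N`; with `R^2 n = n^(r+1)` it reads
`3 d^2 min(d,m) (r^r ε)^2 n ≤ K^2 ε^2 (n / max(d,m)) d^3 m` and holds because
`min(d,m) max(d,m) = d m` and `3 ≤ 4`. (`d = 0`: both sides are trivial as `N = 0`; note
`max d m ≥ m ≥ 1`, `a > 0`.)
-/

namespace Pool.Agent.EFP

open MeasureTheory Metric
open scoped RealInnerProductSpace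

theorem largeFam (r : ℕ) (hr : 3 ≤ r) : ∃ K : ℝ, 0 < K ∧ ∀ (n k d : ℕ) (A : E k →L[ℝ] E n),
    (∀ x, ‖A x‖ = ‖x‖) → r - 3 + 3 * d ≤ k → k < n → ∀ R ε : ℝ, 0 < R →
    R ^ 2 * n = (n : ℝ) ^ (r + 1) → 0 < ε → volume {t : V (r + 1) n | ‖t‖ ≤ R ∧ Cond ε t A} ≤
      ENNReal.ofReal ((K * ε * √((n : ℝ) / max (d : ℝ) ((n - k : ℕ) : ℝ))) ^ (d ^ 3 * (n - k))) *
        volume (closedBall (0 : V (r + 1) n) R) := by
  have hr0 : (0 : ℝ) < (r : ℝ) ^ r := by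
    have h1 : (0 : ℝ) < r := by exact_mod_cast (by omega : 0 < r)
    positivity
  refine ⟨2 * (r : ℝ) ^ r, by positivity, ?_⟩
  intro n k d A hA hk hkn R ε hR hRn hε
  obtain ⟨f, hf, hAf⟩ := frame_perp A hA
  generalize hm : n - k = m at f hf hAf ⊢
  have hm1 : (1 : ℝ) ≤ m := by exact_mod_cast (by omega : 1 ≤ m)
  have hn0 : (0 : ℝ) < n := by exact_mod_cast (by omega : 0 < n)
  have hmx : (0 : ℝ) < max (d : ℝ) (m : ℝ) := lt_of_lt_of_le (by linarith) (le_max_right _ _)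
  have hmn : (0 : ℝ) ≤ min (d : ℝ) (m : ℝ) := le_min (Nat.cast_nonneg _) (Nat.cast_nonneg _)
  have hq : 0 < (n : ℝ) / max (d : ℝ) (m : ℝ) := div_pos hn0 hmx
  have ha : 0 < 2 * (r : ℝ) ^ r * ε * √((n : ℝ) / max (d : ℝ) (m : ℝ)) :=
    mul_pos (by positivity) (Real.sqrt_pos.2 hq)
  have hρ2 : (0 : ℝ) ≤ (d : ℝ) ^ 2 * min (d : ℝ) m * ((r : ℝ) ^ r * ε) ^ 2 := by positivity
  have hcard : Fintype.card ((Fin d × Fin d × Fin d) × Fin m) = d ^ 3 * m := by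
    simp only [Fintype.card_prod, Fintype.card_fin]
    ring
  have hfin : (Module.finrank ℝ (V (r + 1) n) : ℝ) = (n : ℝ) ^ (r + 1) := by
    rw [finrank_euclideanSpace]
    simp
  have key := smallBall (W := V (r + 1) n) volume
    (fun i : (Fin d × Fin d × Fin d) × Fin m => yvec d hk A (f i.2) i.1)
    (c := 1) (R := R)
    (r := √((d : ℝ) ^ 2 * min (d : ℝ) m * ((r : ℝ) ^ r * ε) ^ 2))
    (a := 2 * (r : ℝ) ^ r * ε * √((n : ℝ) / max (d : ℝ) (m : ℝ))) one_pos hR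
    (Real.sqrt_nonneg _) ha
    (fun x => by
      rw [one_pow, one_mul]
      exact riesz_yvec d hk hr A hA f hf hAf x)
    (by
      rw [hfin, hcard, Real.sq_sqrt hρ2,
        mul_pow (2 * (r : ℝ) ^ r * ε) (√((n : ℝ) / max (d : ℝ) (m : ℝ))) 2,
        Real.sq_sqrt hq.le, ← hRn]
      push_cast
      have e1 : min (d : ℝ) m * max (d : ℝ) m = d * m := min_mul_max _ _
      have e2 : (2 * (r : ℝ) ^ r * ε) ^ 2 * ((n : ℝ) / max (d : ℝ) (m : ℝ)) * 1 ^ 2 * R ^ 2 *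
          ((d : ℝ) ^ 3 * m) =
          4 * ((d : ℝ) ^ 2 * min (d : ℝ) m * ((r : ℝ) ^ r * ε) ^ 2) * (R ^ 2 * n) := by
        have e3 : (d : ℝ) ^ 3 * m = (d : ℝ) ^ 2 * (min (d : ℝ) m * max (d : ℝ) m) := by
          rw [e1]
          ring
        rw [e3]
        field_simp
        ring
      rw [e2]
      have e4 : 0 ≤ (d : ℝ) ^ 2 * min (d : ℝ) m * ((r : ℝ) ^ r * ε) ^ 2 * (R ^ 2 * n) := by
        positivity
      linarith)
  rw [hcard] at key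
  refine le_trans (measure_mono ?_) key
  rintro t ⟨ht1, ht2⟩
  refine ⟨ht1, ?_⟩
  rw [Real.sq_sqrt hρ2]
  exact sum_yvec_le d hk hr hε.le hA ht2 f hf hAf

end Pool.Agent.EFP
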