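import Pool.Agent.Lib.EFP.YDefs

set_option autoImplicit false

/-!
# EFP.LargeY: the tensors of the large family are orthogonal of norm at least one

PROOF. Let `b` be the orthonormal family `Sum.elim (fun i : Fin k => A (bas i)) f` (indices
`Fin k ⊕ Fin m`; orthonormal by `inner_iso`, `hf`, `hAf`), and for an index `(i, l)` let
`α : Fin (r+1) → Fin k ⊕ Fin m`, `α 0 = inr l`, `α (j+1) = inl (xi r d k h i j)`. So
`yvec d h A (f l) i = Yp (b ∘ α)`. The map `α` is injective (`xi r d k h i` is strictly increasing,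
hence injective: its values are `0, ..., r-4`, then one value in each of the consecutive blocks
`[r-3, r-3+d)`, `[r-3+d, r-3+2d)`, `[r-3+2d, r-3+3d)`), and the range of `α` determines `(i, l)`:
the only element of the form `inr` gives `l`, the only elements in the three blocks give `i`.
By `inner_X`, `⟪Yp (b∘α), Yp (b∘β)⟫ = ∑_{π,σ} ∏_j ⟪b (α (π j)), b (β (σ j))⟫`, and the product is `1`
if `α ∘ π = β ∘ σ` and `0` otherwise (orthonormality). If `(i,l) ≠ (i',l')` the ranges differ, so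
all products are `0`; if they are equal, `α ∘ π = α ∘ σ` iff `π = σ` and the inner product is
`(r+1)! ≥ 1`. Expanding the square of the norm gives `∑ x^2 (r+1)! ≥ ∑ x^2`.
-/

namespace Pool.Agent.EFP

open scoped RealInnerProductSpace

private theorem inner_Yp {q n : ℕ} (z w : Fin q → E n) :
    ⟪Yp z, Yp w⟫ = ∑ π : Equiv.Perm (Fin q), ∑ σ : Equiv.Perm (Fin q),
      ∏ j, ⟪z (π j), w (σ j)⟫ := by
  rw [Yp, Yp, sum_inner]
  refine Finset.sum_congr rfl fun π _ => ?_
  rw [inner_sum]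
  refine Finset.sum_congr rfl fun σ _ => ?_
  rw [inner_X]

/-- The orthonormal family. -/
private noncomputable def fam {n k m : ℕ} (A : E k →L[ℝ] E n) (f : Fin m → E n) :
    Fin k ⊕ Fin m → E n :=
  Sum.elim (fun i => A (bas i)) f

private theorem inner_bas {k : ℕ} (i j : Fin k) : ⟪(bas i : E k), bas j⟫ = if i = j then 1 else 0 := by
  have h := orthonormal_iff_ite.1 (EuclideanSpace.basisFun (Fin k) ℝ).orthonormal i j
  simpa [bas] using h

private theorem fam_inner {n k m : ℕ} (A : E k →L[ℝ] E n) (hA : ∀ x, ‖A x‖ = ‖x‖) (f : Fin m → E n)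
    (hf : Orthonormal ℝ f) (hAf : ∀ z l, ⟪A z, f l⟫ = 0) (s t : Fin k ⊕ Fin m) :
    ⟪fam A f s, fam A f t⟫ = if s = t then 1 else 0 := by
  rcases s with i | i <;> rcases t with j | j
  · show ⟪A (bas i), A (bas j)⟫ = _
    rw [inner_iso A hA, inner_bas]
    simp only [Sum.inl.injEq]
  · show ⟪A (bas i), f j⟫ = _
    rw [hAf, if_neg (by simp)]
  · show ⟪f i, A (bas j)⟫ = _
    rw [real_inner_comm, hAf, if_neg (by simp)]
  · show ⟪f i, f j⟫ = _
    rw [orthonormal_iff_ite.1 hf]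
    simp only [Sum.inr.injEq]

private def idx (r d k m : ℕ) (h : r - 3 + 3 * d ≤ k) (p : (Fin d × Fin d × Fin d) × Fin m) :
    Fin (r + 1) → Fin k ⊕ Fin m :=
  Fin.cons (Sum.inr p.2) (fun j => Sum.inl (xi r d k h p.1 j))

private theorem yvec_eq {r n k m : ℕ} (d : ℕ) (h : r - 3 + 3 * d ≤ k)
    (A : E k →L[ℝ] E n) (f : Fin m → E n) (p : (Fin d × Fin d × Fin d) × Fin m) :
    yvec d h A (f p.2) p.1 = Yp (fun j => fam A f (idx r d k m h p j)) := by
  unfold yvec
  congr 1
  funext j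
  refine Fin.cases ?_ (fun j => ?_) j
  · rfl
  · rfl

private theorem xi_val (r d k : ℕ) (h : r - 3 + 3 * d ≤ k) (i : Fin d × Fin d × Fin d) (j : Fin r) :
    ((xi r d k h i j : Fin k) : ℕ) = if (j : ℕ) < r - 3 then (j : ℕ)
      else if (j : ℕ) = r - 3 then r - 3 + (i.1 : ℕ)
      else if (j : ℕ) = r - 2 then r - 3 + d + (i.2.1 : ℕ) else r - 3 + 2 * d + (i.2.2 : ℕ) := by
  unfold xi
  split_ifs <;> rfl

private theorem idx_inr {r d k m : ℕ} {h : r - 3 + 3 * d ≤ k}
    {p : (Fin d × Fin d × Fin d) × Fin m} {l : Fin m} {j : Fin (r + 1)}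
    (hj : idx r d k m h p j = Sum.inr l) : p.2 = l := by
  revert hj
  refine Fin.cases ?_ (fun j => ?_) j
  · intro hj
    exact Sum.inr_injective hj
  · intro hj
    exact absurd (hj : (Sum.inl (xi r d k h p.1 j) : Fin k ⊕ Fin m) = Sum.inr l) Sum.inl_ne_inr

private theorem idx_inl {r d k m : ℕ} {h : r - 3 + 3 * d ≤ k}
    {p : (Fin d × Fin d × Fin d) × Fin m} {l : Fin k} {j : Fin (r + 1)}
    (hj : idx r d k m h p j = Sum.inl l) : ∃ i : Fin r, xi r d k h p.1 i = l := by
  revert hj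
  refine Fin.cases ?_ (fun j => ?_) j
  · intro hj
    exact absurd (hj : (Sum.inr p.2 : Fin k ⊕ Fin m) = Sum.inl l) Sum.inr_ne_inl
  · intro hj
    exact ⟨j, Sum.inl_injective hj⟩

private theorem idx_inj {r d k m : ℕ} {h : r - 3 + 3 * d ≤ k} (hr : 3 ≤ r)
    {p p' : (Fin d × Fin d × Fin d) × Fin m} {π σ : Equiv.Perm (Fin (r + 1))}
    (hp : ∀ j, idx r d k m h p (π j) = idx r d k m h p' (σ j)) : p = p' := by
  have key : ∀ j, idx r d k m h p' (σ (π.symm j)) = idx r d k m h p j := by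
    intro j
    rw [← hp (π.symm j), Equiv.apply_symm_apply]
  have h2 : p'.2 = p.2 := idx_inr (key 0)
  have h1 : ∀ i : Fin r, ∃ i' : Fin r, xi r d k h p'.1 i' = xi r d k h p.1 i := fun i =>
    idx_inl (key i.succ)
  obtain ⟨⟨a, b, c⟩, l⟩ := p
  obtain ⟨⟨a', b', c'⟩, l'⟩ := p'
  simp only at h1 h2
  have ha : a = a' := by
    obtain ⟨i', hi'⟩ := h1 ⟨r - 3, by omega⟩
    have hv := congrArg Fin.val hi'
    simp only [xi_val] at hv
    have := a.2
    have := a'.2
    have := i'.2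
    apply Fin.ext
    split_ifs at hv <;> omega
  have hb : b = b' := by
    obtain ⟨i', hi'⟩ := h1 ⟨r - 2, by omega⟩
    have hv := congrArg Fin.val hi'
    simp only [xi_val] at hv
    have := a'.2
    have := b.2
    have := b'.2
    have := i'.2
    apply Fin.ext
    split_ifs at hv <;> omega
  have hc : c = c' := by
    obtain ⟨i', hi'⟩ := h1 ⟨r - 1, by omega⟩
    have hv := congrArg Fin.val hi'
    simp only [xi_val] at hv
    have := a'.2
    have := b'.2
    have := c.2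
    have := c'.2
    have := i'.2
    apply Fin.ext
    split_ifs at hv <;> omega
  rw [ha, hb, hc, h2]

private theorem inner_y {r n k m : ℕ} (d : ℕ) (h : r - 3 + 3 * d ≤ k)
    (A : E k →L[ℝ] E n) (hA : ∀ x, ‖A x‖ = ‖x‖) (f : Fin m → E n) (hf : Orthonormal ℝ f)
    (hAf : ∀ z l, ⟪A z, f l⟫ = 0) (p p' : (Fin d × Fin d × Fin d) × Fin m) :
    ⟪yvec d h A (f p.2) p.1, yvec d h A (f p'.2) p'.1⟫ =
      ∑ π : Equiv.Perm (Fin (r + 1)), ∑ σ : Equiv.Perm (Fin (r + 1)),
        if (∀ j, idx r d k m h p (π j) = idx r d k m h p' (σ j)) then (1 : ℝ) else 0 := by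
  rw [yvec_eq, yvec_eq, inner_Yp]
  refine Finset.sum_congr rfl fun π _ => Finset.sum_congr rfl fun σ _ => ?_
  simp only [fam_inner A hA f hf hAf]
  rw [Finset.prod_ite_zero]
  simp only [Finset.mem_univ, true_implies, Finset.prod_const_one]

theorem riesz_yvec {r n k m : ℕ} (d : ℕ) (h : r - 3 + 3 * d ≤ k) (hr : 3 ≤ r)
    (A : E k →L[ℝ] E n) (hA : ∀ x, ‖A x‖ = ‖x‖) (f : Fin m → E n) (hf : Orthonormal ℝ f)
    (hAf : ∀ z l, ⟪A z, f l⟫ = 0) (x : (Fin d × Fin d × Fin d) × Fin m → ℝ) :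
    ∑ i, x i ^ 2 ≤ ‖∑ i, x i • yvec d h A (f i.2) i.1‖ ^ 2 := by
  rw [← real_inner_self_eq_norm_sq, sum_inner]
  refine Finset.sum_le_sum fun p _ => ?_
  rw [inner_sum, Finset.sum_eq_single p]
  · rw [real_inner_smul_left, real_inner_smul_right, inner_y d h A hA f hf hAf p p]
    have h1 : (1 : ℝ) ≤ ∑ π : Equiv.Perm (Fin (r + 1)), ∑ σ : Equiv.Perm (Fin (r + 1)),
        if (∀ j, idx r d k m h p (π j) = idx r d k m h p (σ j)) then (1 : ℝ) else 0 := by
      have h2 : ∀ π σ : Equiv.Perm (Fin (r + 1)),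
          (0 : ℝ) ≤ if (∀ j, idx r d k m h p (π j) = idx r d k m h p (σ j)) then (1 : ℝ) else 0 := by
        intro π σ
        split_ifs <;> norm_num
      refine le_trans ?_ (Finset.single_le_sum (fun π _ => Finset.sum_nonneg fun σ _ => h2 π σ)
        (Finset.mem_univ (1 : Equiv.Perm (Fin (r + 1)))))
      refine le_trans ?_ (Finset.single_le_sum (fun σ _ => h2 1 σ)
        (Finset.mem_univ (1 : Equiv.Perm (Fin (r + 1)))))
      rw [if_pos fun j => rfl]
    nlinarith [sq_nonneg (x p)]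
  · intro p' _ hne
    rw [real_inner_smul_left, real_inner_smul_right, inner_y d h A hA f hf hAf p p']
    rw [Finset.sum_eq_zero, mul_zero, mul_zero]
    intro π _
    refine Finset.sum_eq_zero fun σ _ => ?_
    rw [if_neg]
    intro hj
    exact hne (idx_inj hr hj).symm
  · intro hp
    exact absurd (Finset.mem_univ p) hp

end Pool.Agent.EFP
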