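import Mathlib

set_option autoImplicit false

/-!
# EFP.Num: the numerical inequalities

(1) `num_small`: for `2 ≤ k`, `5 k ≤ n`: `2 k n ≤ (k / 2) * 8 * (n - k)` (natural division):
`k / 2 ≥ k/3` for `k ≥ 2` and `n - k ≥ 4n/5`, so the right side is at least `(32/15) k n`.
(2) `num_large`: for `1500 ≤ n`, `n < 5 k`, `k < n` and `d = (k - 6) / 3` (natural division; note
`6 + 3 d ≤ k`): `2 k n ≤ d^3 (n - k)` and `n ≤ 16 max d (n - k)`. Indeed `k ≥ 301`, `3 d ≥ k - 8`,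
`2 k n ≤ 10 k^2` and `(k-8)^3 ≥ 270 k^2` for `k ≥ 301`. If `n - k < n/16` then `k > 15 n/16`,
`d ≥ (k-8)/3 ≥ n/16`.
-/

namespace Pool.Agent.EFP

theorem num_small (n k : ℕ) (hk : 2 ≤ k) (h : 5 * k ≤ n) : 2 * k * n ≤ k / 2 * 8 * (n - k) := by
  have hq : k ≤ 3 * (k / 2) := by omega
  have hm : 4 * n ≤ 5 * (n - k) := by omega
  generalize k / 2 = q at hq ⊢
  generalize n - k = m at hm ⊢
  have h1 : k * n ≤ 3 * q * n := Nat.mul_le_mul_right n hq
  have h2 : q * (4 * n) ≤ q * (5 * m) := Nat.mul_le_mul_left q hm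
  nlinarith

theorem num_large (n k : ℕ) (hn : 1500 ≤ n) (h : n < 5 * k) (hkn : k < n) :
    2 * k * n ≤ ((k - 6) / 3) ^ 3 * (n - k) ∧ n ≤ 16 * max ((k - 6) / 3) (n - k) := by
  have hd : k ≤ 3 * ((k - 6) / 3) + 8 := by omega
  have hd98 : 98 ≤ (k - 6) / 3 := by omega
  have hm : 1 ≤ n - k := by omega
  refine ⟨?_, ?_⟩
  · generalize (k - 6) / 3 = d at hd hd98 ⊢
    have h1 : 2 * k * n ≤ 10 * (k * k) := by nlinarith
    have h2 : k * k ≤ (3 * d + 8) * (3 * d + 8) := Nat.mul_le_mul hd hd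
    have h3 : 98 * (d * d) ≤ d * (d * d) := Nat.mul_le_mul_right _ hd98
    have h4 : 98 * d ≤ d * d := Nat.mul_le_mul_right _ hd98
    have h5 : 10 * ((3 * d + 8) * (3 * d + 8)) ≤ d ^ 3 := by
      have h6 : d ^ 3 = d * (d * d) := by ring
      rw [h6]
      nlinarith
    calc 2 * k * n ≤ d ^ 3 := by omega
      _ = d ^ 3 * 1 := (Nat.mul_one _).symm
      _ ≤ d ^ 3 * (n - k) := Nat.mul_le_mul_left _ hm
  · rcases le_total ((k - 6) / 3) (n - k) with h1 | h1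
    · rw [max_eq_right h1]
      omega
    · rw [max_eq_left h1]
      omega

end Pool.Agent.EFP
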