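import Pool.Agent.Lib.EFP.SmallFam
import Pool.Agent.Lib.EFP.LargeFam
import Pool.Agent.Lib.EFP.Union
import Pool.Agent.Lib.EFP.Num

set_option autoImplicit false

/-!
# EFP.ML1: good tensors of order ten in all large dimensions

PROOF. Let `K₁` be the constant of `smallFam 5` (`q = 10`, `2p - 2 = 8`) and `K₂` that of
`largeFam 9`, `K = max (2 K₁) (4 K₂)`, and `ε₀` given by `union 10 K`. Let `n ≥ 1500`, `2 ≤ k < n`,
`A` isometric, `ε > 0`.
 (a) `5k ≤ n`: `P = k/2`, `N = P * 8 * (n - k) ≥ 2kn` (`num_small`); `n/(n-k) ≤ 5/4`, so the base of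
 `smallFam` is at most `2 K₁ ε ≤ K ε`.
 (b) `5k > n`: `d = (k-6)/3`, `N = d^3 (n-k) ≥ 2kn`, `n / max d (n-k) ≤ 16`, the base of `largeFam`
 is at most `4 K₂ ε ≤ K ε`.
Apply `union`. (`2 * 5` and `9 + 1` both reduce to `10`, so the types `V (2 * 5) n`, `V (9 + 1) n` and
`V 10 n` are definitionally equal; use `show`/`exact`/`simpa`, or restate with `norm_num`.)
-/

namespace Pool.Agent.EFP

open MeasureTheory Metric
open scoped RealInnerProductSpace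

theorem ml1 : ∃ ε₀ : ℝ, 0 < ε₀ ∧ ∀ n : ℕ, 1500 ≤ n → ∃ t : V (2 * 5) n, Bdd 1 t ∧
    ∀ k : ℕ, 2 ≤ k → k < n → ∀ A : E k →L[ℝ] E n, (∀ x, ‖A x‖ = ‖x‖) → ¬ Cond ε₀ t A := by
  obtain ⟨K₁, hK₁, h₁⟩ := smallFam 5 (by norm_num)
  obtain ⟨K₂, hK₂, h₂⟩ := largeFam 9 (by norm_num)
  obtain ⟨ε₀, hε₀, hU⟩ := union (2 * 5) (by norm_num) (max (2 * K₁) (4 * K₂))
    (lt_of_lt_of_le (by positivity) (le_max_left _ _))
  refine ⟨ε₀, hε₀, fun n hn => hU n (by omega) ?_⟩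
  intro k hk hkn A hA ε hε
  have hnk : 1 ≤ n - k := by omega
  by_cases h : 5 * k ≤ n
  · refine ⟨k / 2 * (2 * 5 - 2) * (n - k), num_small n k hk h, ?_⟩
    intro R hR hRn
    refine (h₁ n k (k / 2) A hA (by omega) hkn R ε hR hRn hε).trans ?_
    have hb : K₁ * ε * √((n : ℝ) / ((n - k : ℕ) : ℝ)) ≤ max (2 * K₁) (4 * K₂) * ε := by
      have h4 : √((n : ℝ) / ((n - k : ℕ) : ℝ)) ≤ 2 := by
        rw [show (2 : ℝ) = √4 by rw [show (4 : ℝ) = 2 ^ 2 by norm_num, Real.sqrt_sq (by norm_num)]]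
        apply Real.sqrt_le_sqrt
        rw [div_le_iff₀ (by exact_mod_cast (by omega : 0 < n - k))]
        exact_mod_cast (by omega : n ≤ 4 * (n - k))
      calc K₁ * ε * √((n : ℝ) / ((n - k : ℕ) : ℝ)) ≤ K₁ * ε * 2 := by gcongr
        _ = 2 * K₁ * ε := by ring
        _ ≤ max (2 * K₁) (4 * K₂) * ε := by
          gcongr
          exact le_max_left _ _
    gcongr
  · have h' : n < 5 * k := by omega
    obtain ⟨hN, hM⟩ := num_large n k hn h' hkn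
    refine ⟨((k - 6) / 3) ^ 3 * (n - k), hN, ?_⟩
    intro R hR hRn
    refine (h₂ n k ((k - 6) / 3) A hA (by omega) hkn R ε hR hRn hε).trans ?_
    have hb : K₂ * ε * √((n : ℝ) / max (((k - 6) / 3 : ℕ) : ℝ) ((n - k : ℕ) : ℝ)) ≤
        max (2 * K₁) (4 * K₂) * ε := by
      have hmax : (1 : ℝ) ≤ max (((k - 6) / 3 : ℕ) : ℝ) ((n - k : ℕ) : ℝ) :=
        le_trans (by exact_mod_cast hnk) (le_max_right _ _)
      have h4 : √((n : ℝ) / max (((k - 6) / 3 : ℕ) : ℝ) ((n - k : ℕ) : ℝ)) ≤ 4 := by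
        rw [show (4 : ℝ) = √16 by rw [show (16 : ℝ) = 4 ^ 2 by norm_num, Real.sqrt_sq (by norm_num)]]
        apply Real.sqrt_le_sqrt
        rw [div_le_iff₀ (by linarith)]
        exact_mod_cast hM
      calc K₂ * ε * √((n : ℝ) / max (((k - 6) / 3 : ℕ) : ℝ) ((n - k : ℕ) : ℝ))
          ≤ K₂ * ε * 4 := by gcongr
        _ = 4 * K₂ * ε := by ring
        _ ≤ max (2 * K₁) (4 * K₂) * ε := by
          gcongr
          exact le_max_right _ _
    gcongr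

end Pool.Agent.EFP
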