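import Pool.Agent.Lib.EFP.Taylor

set_option autoImplicit false

/-!
# EFP.NormQ: the `q`-th root of `Q η t` is a norm for small `η`

PROOF. `q = 2p`, `p ≥ 2`, `η₀ = 1 / 100^p`. Put `Ψ x = T t (fun _ => x)`; `|Ψ x| ≤ ‖x‖^q`, so
`(1-η) ‖x‖^q ≤ Q x ≤ (1+η) ‖x‖^q`, in particular `Q ≥ 0` and `Q x = 0` only for `x = 0`; and
`Q (a • x) = |a|^q Q x` (`MultilinearMap.map_smul_univ`, `q` even).

(1) Gradient inequality: for all `x v`,
`Q (x+v) ≥ Q x + (q ‖x‖^(q-2) ⟪x,v⟫ + η G t x v)`.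
By `taylor` it is enough to show
`‖x+v‖^(2p) - ‖x‖^(2p) - 2p ‖x‖^(2p-2) ⟪x,v⟫ ≥ 25^(-p) (‖x‖+‖v‖)^(2p-2) ‖v‖^2`   (*)
because `η 2^q ≤ 4^p/100^p = 25^(-p)`.
 (a) `‖v‖ ≤ 4 ‖x‖`: with `A = ‖x+v‖^2 = B + 2⟪x,v⟫ + ‖v‖^2`, `B = ‖x‖^2`, convexity of `s ↦ s^p`
 (`A^p ≥ B^p + p B^(p-1) (A - B)`, e.g. from `one_add_mul_le_pow` after dividing by `B^p`, or by
 induction on `p`) gives that the left side is `≥ p ‖x‖^(2p-2) ‖v‖^2`, and
 `(‖x‖+‖v‖)^(2p-2) ≤ (5‖x‖)^(2p-2) = 25^(p-1) ‖x‖^(2p-2)`.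
 (b) `‖v‖ > 4 ‖x‖`: `‖x+v‖ ≥ (3/4)‖v‖`, `‖x‖ ≤ ‖v‖/4`, `⟪x,v⟫ ≤ ‖x‖‖v‖`, so the left side is at least
 `(9^p - 1 - 8p) 16^(-p) ‖v‖^(2p) ≥ 64 * 16^(-p) ‖v‖^(2p)` (`9^p ≥ 65 + 8p` for `p ≥ 2`), while
 `(‖x‖+‖v‖)^(2p-2) ‖v‖^2 ≤ (25/16)^(p-1) ‖v‖^(2p)`, and `25^(-p) (25/16)^(p-1) ≤ 64 * 16^(-p)`.

(2) `Q` is convex: for `a, b ≥ 0`, `a + b = 1`, `z = a x + b y`, add `a` times (1) at `z` with
`v = x - z` and `b` times (1) at `z` with `v = y - z`; the linear terms cancel as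
`a (x - z) + b (y - z) = 0` (`G t z` and `⟪z, ·⟫` are linear: `G_add`, `G_smul`, `G_sub`).

(3) `N x = (Q x)^(1/(2p))` (`Real.rpow`); `N x ^ (2p) = Q x` (`Real.rpow_natCast_mul`,
`Real.rpow_inv_natCast_pow`), homogeneity is clear. Triangle inequality: if `N x = 0` then `x = 0`.
Otherwise let `a = N x`, `b = N y > 0`; `Q (x/a) = Q (y/b) = 1`, by (2)
`Q ((x+y)/(a+b)) ≤ a/(a+b) + b/(a+b) = 1`, so `Q (x+y) ≤ (a+b)^q`, `N (x+y) ≤ a + b`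
(`pow_le_pow_left₀` / `lt_of_pow_lt_pow_left₀`).
-/

namespace Pool.Agent.EFP

open scoped RealInnerProductSpace

namespace NormQAux

theorem bern (B d : ℝ) (hB : 0 ≤ B) (hd : 0 ≤ B + d) (m : ℕ) :
    B ^ (m + 1) + (m + 1) * B ^ m * d ≤ (B + d) ^ (m + 1) := by
  induction m with
  | zero => simp
  | succ m ih =>
    have h1 := mul_le_mul_of_nonneg_left ih hd
    have h2 : 0 ≤ ((m : ℝ) + 1) * B ^ m * (d * d) :=
      mul_nonneg (mul_nonneg (by positivity) (pow_nonneg hB m)) (mul_self_nonneg d)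
    have h3 : (B + d) ^ (m + 1 + 1) = (B + d) * (B + d) ^ (m + 1) := by ring
    rw [h3]
    refine le_trans ?_ h1
    push_cast
    have h4 : (B + d) * (B ^ (m + 1) + (↑m + 1) * B ^ m * d) =
        B ^ (m + 1 + 1) + (↑m + 1 + 1) * B ^ (m + 1) * d + ((m : ℝ) + 1) * B ^ m * (d * d) := by
      ring
    rw [h4]
    linarith

theorem nine (m : ℕ) (hm : 1 ≤ m) : 2 + 8 * ((m : ℝ) + 1) ≤ 9 ^ (m + 1) := by
  induction m, hm using Nat.le_induction with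
  | base => norm_num
  | succ m _ ih =>
    push_cast
    rw [pow_succ]
    have : (0 : ℝ) ≤ m := Nat.cast_nonneg m
    nlinarith

theorem key (m : ℕ) (hm : 1 ≤ m) (a b c : ℝ) (ha : 0 ≤ a) (hb : 0 ≤ b) (hc : |c| ≤ a * b) :
    (1 / 25) ^ (m + 1) * ((a + b) ^ (2 * m) * b ^ 2) ≤
      (a ^ 2 + 2 * c + b ^ 2) ^ (m + 1) - (a ^ 2) ^ (m + 1)
        - 2 * ((m : ℝ) + 1) * (a ^ 2) ^ m * c := by
  obtain ⟨hc1, hc2⟩ := abs_le.1 hc
  have hA : 0 ≤ a ^ 2 + (2 * c + b ^ 2) := by nlinarith [sq_nonneg (a - b)]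
  by_cases h : b ≤ 4 * a
  · have h1 := bern (a ^ 2) (2 * c + b ^ 2) (sq_nonneg a) hA m
    have h2 : (a + b) ^ (2 * m) ≤ (25 * a ^ 2) ^ m := by
      rw [pow_mul]
      refine pow_le_pow_left₀ (sq_nonneg _) ?_ m
      nlinarith
    have h3 : (1 / 25 : ℝ) ^ (m + 1) * ((a + b) ^ (2 * m) * b ^ 2) ≤
        (1 / 25 : ℝ) ^ (m + 1) * ((25 * a ^ 2) ^ m * b ^ 2) := by
      refine mul_le_mul_of_nonneg_left ?_ (by positivity)
      exact mul_le_mul_of_nonneg_right h2 (sq_nonneg b)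
    have h4 : (1 / 25 : ℝ) ^ (m + 1) * ((25 * a ^ 2) ^ m * b ^ 2) =
        1 / 25 * ((a ^ 2) ^ m * b ^ 2) := by
      rw [mul_pow, pow_succ]
      have : (1 / 25 : ℝ) ^ m * 25 ^ m = 1 := by
        rw [← mul_pow]; norm_num
      calc (1 / 25 : ℝ) ^ m * (1 / 25) * (25 ^ m * (a ^ 2) ^ m * b ^ 2)
          = ((1 / 25 : ℝ) ^ m * 25 ^ m) * (1 / 25 * ((a ^ 2) ^ m * b ^ 2)) := by ring
        _ = _ := by rw [this, one_mul]
    have h5 : 0 ≤ (a ^ 2) ^ m * b ^ 2 := by positivity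
    have h6 : 1 / 25 * ((a ^ 2) ^ m * b ^ 2) ≤ ((m : ℝ) + 1) * ((a ^ 2) ^ m * b ^ 2) := by
      refine mul_le_mul_of_nonneg_right ?_ h5
      have : (0 : ℝ) ≤ m := Nat.cast_nonneg m
      linarith
    have h7 : a ^ 2 + 2 * c + b ^ 2 = a ^ 2 + (2 * c + b ^ 2) := by ring
    rw [h7]
    refine (h3.trans (h4.le.trans h6)).trans ?_
    have h8 : (a ^ 2) ^ (m + 1) + (↑m + 1) * (a ^ 2) ^ m * (2 * c + b ^ 2) =
        (a ^ 2) ^ (m + 1) + 2 * ((m : ℝ) + 1) * (a ^ 2) ^ m * c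
          + ((m : ℝ) + 1) * ((a ^ 2) ^ m * b ^ 2) := by ring
    rw [h8] at h1
    linarith
  · have hb4 : a ≤ b / 4 := by linarith [not_le.1 h]
    have hbpos : 0 ≤ b ^ 2 := sq_nonneg b
    -- upper bound for the left side
    have h1 : (a + b) ^ (2 * m) ≤ (25 / 16 * b ^ 2) ^ m := by
      rw [pow_mul]
      refine pow_le_pow_left₀ (sq_nonneg _) ?_ m
      nlinarith
    have h2 : (1 / 25 : ℝ) ^ (m + 1) * ((a + b) ^ (2 * m) * b ^ 2) ≤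
        (1 / 16 : ℝ) ^ (m + 1) * (b ^ 2) ^ (m + 1) := by
      have h3 : (1 / 25 : ℝ) ^ (m + 1) * ((a + b) ^ (2 * m) * b ^ 2) ≤
          (1 / 25 : ℝ) ^ (m + 1) * ((25 / 16 * b ^ 2) ^ m * b ^ 2) := by
        refine mul_le_mul_of_nonneg_left ?_ (by positivity)
        exact mul_le_mul_of_nonneg_right h1 hbpos
      refine h3.trans ?_
      have h4 : (1 / 25 : ℝ) ^ (m + 1) * ((25 / 16 * b ^ 2) ^ m * b ^ 2) =
          1 / 25 * ((1 / 16) ^ m * (b ^ 2) ^ (m + 1)) := by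
        rw [mul_pow, pow_succ (1 / 25 : ℝ)]
        have : (1 / 25 : ℝ) ^ m * (25 / 16) ^ m = (1 / 16) ^ m := by
          rw [← mul_pow]; norm_num
        calc (1 / 25 : ℝ) ^ m * (1 / 25) * ((25 / 16) ^ m * (b ^ 2) ^ m * b ^ 2)
            = ((1 / 25 : ℝ) ^ m * (25 / 16) ^ m) * (1 / 25 * ((b ^ 2) ^ m * b ^ 2)) := by ring
          _ = _ := by rw [this]; ring
      rw [h4]
      have h5 : 0 ≤ (1 / 16 : ℝ) ^ m * (b ^ 2) ^ (m + 1) := by positivity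
      have h6 : (1 / 16 : ℝ) ^ (m + 1) * (b ^ 2) ^ (m + 1) =
          1 / 16 * ((1 / 16) ^ m * (b ^ 2) ^ (m + 1)) := by ring
      rw [h6]
      nlinarith
    -- lower bound
    have h7 : (9 / 16 : ℝ) ^ (m + 1) * (b ^ 2) ^ (m + 1) ≤
        (a ^ 2 + 2 * c + b ^ 2) ^ (m + 1) := by
      rw [← mul_pow]
      refine pow_le_pow_left₀ (by positivity) ?_ _
      nlinarith
    have h8 : (a ^ 2) ^ (m + 1) ≤ (1 / 16 : ℝ) ^ (m + 1) * (b ^ 2) ^ (m + 1) := by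
      rw [← mul_pow]
      refine pow_le_pow_left₀ (sq_nonneg a) ?_ _
      nlinarith
    have h9 : (a ^ 2) ^ m * c ≤ 4 * ((1 / 16 : ℝ) ^ (m + 1) * (b ^ 2) ^ (m + 1)) := by
      have h10 : (a ^ 2) ^ m ≤ (1 / 16 : ℝ) ^ m * (b ^ 2) ^ m := by
        rw [← mul_pow]
        refine pow_le_pow_left₀ (sq_nonneg a) ?_ _
        nlinarith
      have h11 : c ≤ b ^ 2 / 4 := by nlinarith
      have h12 : (a ^ 2) ^ m * c ≤ (a ^ 2) ^ m * (b ^ 2 / 4) :=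
        mul_le_mul_of_nonneg_left h11 (by positivity)
      have h13 : (a ^ 2) ^ m * (b ^ 2 / 4) ≤ (1 / 16 : ℝ) ^ m * (b ^ 2) ^ m * (b ^ 2 / 4) :=
        mul_le_mul_of_nonneg_right h10 (by positivity)
      refine h12.trans (h13.trans (le_of_eq ?_))
      ring
    have h14 : 2 * ((m : ℝ) + 1) * (a ^ 2) ^ m * c ≤
        8 * ((m : ℝ) + 1) * ((1 / 16 : ℝ) ^ (m + 1) * (b ^ 2) ^ (m + 1)) := by
      have : (0 : ℝ) ≤ 2 * ((m : ℝ) + 1) := by positivity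
      have := mul_le_mul_of_nonneg_left h9 this
      calc 2 * ((m : ℝ) + 1) * (a ^ 2) ^ m * c = 2 * ((m : ℝ) + 1) * ((a ^ 2) ^ m * c) := by ring
        _ ≤ _ := this
        _ = _ := by ring
    have h15 : (9 / 16 : ℝ) ^ (m + 1) = 9 ^ (m + 1) * (1 / 16) ^ (m + 1) := by
      rw [← mul_pow]; norm_num
    rw [h15] at h7
    have h16 := nine m hm
    have h17 : 0 ≤ (1 / 16 : ℝ) ^ (m + 1) * (b ^ 2) ^ (m + 1) := by positivity
    have h18 := mul_le_mul_of_nonneg_right h16 h17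
    set W := (1 / 16 : ℝ) ^ (m + 1) * (b ^ 2) ^ (m + 1) with hW
    have h19 : 9 ^ (m + 1) * (1 / 16) ^ (m + 1) * (b ^ 2) ^ (m + 1) = (9 : ℝ) ^ (m + 1) * W := by
      rw [hW]; ring
    rw [h19] at h7
    nlinarith

theorem key' {n : ℕ} (p : ℕ) (hp : 2 ≤ p) (x v : E n) :
    (1 / 25) ^ p * ((‖x‖ + ‖v‖) ^ (2 * p - 2) * ‖v‖ ^ 2) ≤
      ‖x + v‖ ^ (2 * p) - ‖x‖ ^ (2 * p) - 2 * (p : ℝ) * ‖x‖ ^ (2 * p - 2) * ⟪x, v⟫ := by
  obtain ⟨m, rfl⟩ : ∃ m, p = m + 1 := ⟨p - 1, by omega⟩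
  have h1 := key m (by omega) ‖x‖ ‖v‖ ⟪x, v⟫ (norm_nonneg _) (norm_nonneg _)
    (abs_real_inner_le_norm x v)
  have h2 : 2 * (m + 1) - 2 = 2 * m := by omega
  have h3 : ‖x + v‖ ^ 2 = ‖x‖ ^ 2 + 2 * ⟪x, v⟫ + ‖v‖ ^ 2 := norm_add_sq_real x v
  rw [h2, pow_mul ‖x + v‖, pow_mul ‖x‖, pow_mul ‖x‖, h3]
  push_cast
  exact h1

theorem absT {q n : ℕ} {t : V q n} (hB : Bdd 1 t) (x : E n) : |T t (fun _ => x)| ≤ ‖x‖ ^ q := by
  have h := hB (fun _ => x)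
  simpa using h

theorem T_hom {q n : ℕ} (t : V q n) (a : ℝ) (x : E n) :
    T t (fun _ => a • x) = a ^ q * T t (fun _ => x) := by
  have h := (TM t).map_smul_univ (fun _ => a) (fun _ => x)
  simpa using h

theorem Q_hom {n : ℕ} (p : ℕ) (η : ℝ) (t : V (2 * p) n) (a : ℝ) (x : E n) :
    Q η t (a • x) = |a| ^ (2 * p) * Q η t x := by
  have h : a ^ (2 * p) = |a| ^ (2 * p) := by
    rw [pow_mul, pow_mul, sq_abs]
  rw [Q, Q, T_hom, norm_smul, mul_pow, Real.norm_eq_abs, h]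
  ring

theorem Q_low {n : ℕ} (p : ℕ) (η : ℝ) (hη : 0 ≤ η) (t : V (2 * p) n) (hB : Bdd 1 t) (x : E n) :
    (1 - η) * ‖x‖ ^ (2 * p) ≤ Q η t x := by
  have h := (abs_le.1 (absT hB x)).1
  have := mul_le_mul_of_nonneg_left h hη
  rw [Q]
  linarith

theorem grad {n : ℕ} (p : ℕ) (hp : 2 ≤ p) (η : ℝ) (hη : 0 ≤ η) (hη' : η ≤ 1 / 100 ^ p)
    (t : V (2 * p) n) (hB : Bdd 1 t) (x v : E n) :
    Q η t x + (2 * (p : ℝ) * ‖x‖ ^ (2 * p - 2) * ⟪x, v⟫ + η * G t x v) ≤ Q η t (x + v) := by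
  have h1 := key' p hp x v
  have h2 := (abs_le.1 (taylor hB x v)).1
  have h3 := mul_le_mul_of_nonneg_left h2 hη
  have h4 : 0 ≤ (‖x‖ + ‖v‖) ^ (2 * p - 2) * ‖v‖ ^ 2 := by positivity
  have h5 : η * 2 ^ (2 * p) ≤ (1 / 25) ^ p := by
    have h6 : η * 2 ^ (2 * p) ≤ 1 / 100 ^ p * 2 ^ (2 * p) :=
      mul_le_mul_of_nonneg_right hη' (by positivity)
    refine h6.trans (le_of_eq ?_)
    have h7 : (1 / 100 ^ p : ℝ) = (1 / 100) ^ p := by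
      rw [div_pow, one_pow]
    rw [h7, pow_mul, ← mul_pow]
    norm_num
  have h8 := mul_le_mul_of_nonneg_right h5 h4
  have h9 : η * (2 ^ (2 * p) * ((‖x‖ + ‖v‖) ^ (2 * p - 2) * ‖v‖ ^ 2)) =
      η * 2 ^ (2 * p) * ((‖x‖ + ‖v‖) ^ (2 * p - 2) * ‖v‖ ^ 2) := by ring
  rw [Q, Q]
  nlinarith

theorem conv {n : ℕ} (p : ℕ) (hp : 2 ≤ p) (η : ℝ) (hη : 0 ≤ η) (hη' : η ≤ 1 / 100 ^ p)
    (t : V (2 * p) n) (hB : Bdd 1 t) (x y : E n) (a b : ℝ) (ha : 0 ≤ a) (hb : 0 ≤ b)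
    (hab : a + b = 1) : Q η t (a • x + b • y) ≤ a * Q η t x + b * Q η t y := by
  set z := a • x + b • y with hz
  have hx := grad p hp η hη hη' t hB z (x - z)
  have hy := grad p hp η hη hη' t hB z (y - z)
  rw [add_sub_cancel] at hx hy
  have h0 : a • (x - z) + b • (y - z) = 0 := by
    rw [smul_sub, smul_sub, show a • x - a • z + (b • y - b • z) =
      (a • x + b • y) - (a + b) • z by rw [add_smul]; abel, hab, one_smul, ← hz, sub_self]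
  have h1 : a * ⟪z, x - z⟫ + b * ⟪z, y - z⟫ = 0 := by
    rw [← real_inner_smul_right, ← real_inner_smul_right, ← inner_add_right, h0, inner_zero_right]
  have h2 : a * G t z (x - z) + b * G t z (y - z) = 0 := by
    rw [← G_smul, ← G_smul, ← G_add, h0]
    have := G_smul t z (0 : E n) 0
    simpa using this
  have hx' := mul_le_mul_of_nonneg_left hx ha
  have hy' := mul_le_mul_of_nonneg_left hy hb
  have h3 : a * (Q η t z + (2 * (p : ℝ) * ‖z‖ ^ (2 * p - 2) * ⟪z, x - z⟫ + η * G t z (x - z))) +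
      b * (Q η t z + (2 * (p : ℝ) * ‖z‖ ^ (2 * p - 2) * ⟪z, y - z⟫ + η * G t z (y - z))) =
      (a + b) * Q η t z + 2 * (p : ℝ) * ‖z‖ ^ (2 * p - 2) *
        (a * ⟪z, x - z⟫ + b * ⟪z, y - z⟫) +
        η * (a * G t z (x - z) + b * G t z (y - z)) := by ring
  rw [h1, h2, hab] at h3
  linarith

end NormQAux

open NormQAux in
theorem normQ (p : ℕ) (hp : 2 ≤ p) : ∃ η₀ : ℝ, 0 < η₀ ∧ η₀ < 1 ∧ ∀ η : ℝ, 0 ≤ η → η ≤ η₀ →
    ∀ (n : ℕ) (t : V (2 * p) n), Bdd 1 t → ∃ N : E n → ℝ, (∀ x, 0 ≤ N x) ∧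
      (∀ x, N x ^ (2 * p) = Q η t x) ∧ (∀ x y, N (x + y) ≤ N x + N y) ∧
      (∀ (a : ℝ) (x : E n), N (a • x) = |a| * N x) := by
  have h100 : (1 : ℝ) < 100 ^ p := one_lt_pow₀ (by norm_num) (by omega)
  have hlt : (1 / 100 ^ p : ℝ) < 1 := by
    rw [div_lt_one (by positivity)]
    exact h100
  refine ⟨1 / 100 ^ p, by positivity, hlt, ?_⟩
  intro η hη hη' n t hB
  have h2p : 2 * p ≠ 0 := by omega
  have hQ0 : ∀ x, 0 ≤ Q η t x := by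
    intro x
    refine le_trans ?_ (Q_low p η hη t hB x)
    have : 0 ≤ 1 - η := by linarith
    positivity
  have hQz : ∀ x, Q η t x = 0 → x = 0 := by
    intro x hx
    have h1 := Q_low p η hη t hB x
    rw [hx] at h1
    have h2 : 0 < 1 - η := by linarith
    have h3 : ‖x‖ ^ (2 * p) ≤ 0 := by
      by_contra h4
      push Not at h4
      have := mul_pos h2 h4
      linarith
    have h5 : ‖x‖ ^ (2 * p) = 0 := le_antisymm h3 (by positivity)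
    exact norm_eq_zero.1 ((pow_eq_zero_iff h2p).1 h5)
  set N : E n → ℝ := fun x => (Q η t x) ^ (((2 * p : ℕ) : ℝ)⁻¹) with hN
  have hN0 : ∀ x, 0 ≤ N x := fun x => Real.rpow_nonneg (hQ0 x) _
  have hNQ : ∀ x, N x ^ (2 * p) = Q η t x := fun x => Real.rpow_inv_natCast_pow (hQ0 x) h2p
  have hhom : ∀ (a : ℝ) (x : E n), N (a • x) = |a| * N x := by
    intro a x
    refine (pow_left_inj₀ (hN0 _) (mul_nonneg (abs_nonneg a) (hN0 x)) h2p).1 ?_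
    rw [hNQ, mul_pow, hNQ, Q_hom]
  refine ⟨N, hN0, hNQ, ?_, hhom⟩
  intro x y
  rcases eq_or_lt_of_le (hN0 x) with hx0 | hxpos
  · have : Q η t x = 0 := by rw [← hNQ, ← hx0, zero_pow h2p]
    rw [hQz x this, zero_add]
    have := hN0 0
    linarith
  rcases eq_or_lt_of_le (hN0 y) with hy0 | hypos
  · have : Q η t y = 0 := by rw [← hNQ, ← hy0, zero_pow h2p]
    rw [hQz y this, add_zero]
    have := hN0 0
    linarith
  have hs : 0 < N x + N y := by linarith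
  have hunit : ∀ u, 0 < N u → Q η t ((N u)⁻¹ • u) = 1 := by
    intro u hu
    rw [Q_hom, abs_of_pos (inv_pos.2 hu), ← hNQ, ← mul_pow, inv_mul_cancel₀ hu.ne', one_pow]
  have hc := conv p hp η hη hη' t hB ((N x)⁻¹ • x) ((N y)⁻¹ • y) (N x / (N x + N y))
    (N y / (N x + N y)) (by positivity) (by positivity) (by field_simp)
  rw [hunit x hxpos, hunit y hypos, smul_smul, smul_smul] at hc
  have e1 : N x / (N x + N y) * (N x)⁻¹ = (N x + N y)⁻¹ := by field_simp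
  have e2 : N y / (N x + N y) * (N y)⁻¹ = (N x + N y)⁻¹ := by field_simp
  rw [e1, e2, ← smul_add, Q_hom, abs_of_pos (inv_pos.2 hs)] at hc
  have e3 : N x / (N x + N y) * 1 + N y / (N x + N y) * 1 = 1 := by field_simp
  rw [e3] at hc
  have h1 : N (x + y) ^ (2 * p) ≤ (N x + N y) ^ (2 * p) := by
    rw [hNQ]
    rw [inv_pow] at hc
    have hpos : 0 < (N x + N y) ^ (2 * p) := by positivity
    have := (inv_mul_le_iff₀ hpos).1 hc
    simpa using this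
  exact (pow_le_pow_iff_left₀ (hN0 _) hs.le h2p).1 h1

end Pool.Agent.EFP
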