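import Pool.Agent.Lib.EFP.YDefs

set_option autoImplicit false

/-!
# EFP.Polar: polarisation of the slot form

PROOF. Put `z = Fin.cons f x : Fin (r+1) → E n` (`z 0 = f`, `z (j+1) = x j`) and, for a slot
`i₀ : Fin (r+1)` and `s : Fin r → Bool`, let `c i φ` be the coefficient of `z φ` in the vector
standing in slot `i`: for `i = i₀` it is `1` if `φ = 0` and `0` otherwise; for `i ≠ i₀` it is `0` if
`φ = 0` and `sgn (s j)` if `φ = j + 1`. By multilinearity (`MultilinearMap.map_sum` for `XM`, or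
coordinatewise `Finset.prod_univ_sum`)
`X (update (fun _ => ∑ j, sgn (s j) • x j) i₀ f) = ∑ φ : Fin (r+1) → Fin (r+1), (∏ i, c i (φ i)) • X (z ∘ φ)`.
Multiply by `∏ j, sgn (s j)`, sum over `s` and over `i₀`, and exchange the sums. The coefficient of
`X (z ∘ φ)` is `∑_{i₀} [φ⁻¹(0) = {i₀}] ∑_s ∏_j sgn (s j) ^ (1 + card φ⁻¹(j+1))`
(`Finset.prod_univ_sum` again: `∑_s ∏_j g j (s j) = ∏_j ∑_b g j b`), and
`∑_b sgn b ^ m = 2` for even `m`, `0` for odd `m`. So it is `2^r` if `φ⁻¹(0)` is one point and all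
`card φ⁻¹(j+1)` are odd, and `0` otherwise. As `∑_j card φ⁻¹(j+1) = r` in the first case, all of
them are equal to one: `φ` is a bijection. Conversely for a bijection the coefficient is `2^r`.
The bijections `φ` are the `Equiv.Perm (Fin (r+1))`, which gives `2^r • Yp z`.
(Alternatively: induction, or the identity for the multilinear form evaluated coordinatewise.)
-/

namespace Pool.Agent.EFP

open scoped RealInnerProductSpace

/-- the coefficient of the vector number `φ` in the slot `i` -/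
private noncomputable def cf {r : ℕ} (s : Fin r → Bool) (i₀ i φ : Fin (r + 1)) : ℝ :=
  if i = i₀ then (if φ = 0 then 1 else 0) else Fin.cases (motive := fun _ => ℝ) 0 (fun j => sgn (s j)) φ

private theorem sgn_mul_self (b : Bool) : sgn b * sgn b = 1 := by
  cases b <;> norm_num [sgn]

private theorem sgn_not (b : Bool) : sgn (!b) = - sgn b := by
  cases b <;> norm_num [sgn]

private theorem sum_cf {r : ℕ} (s : Fin r → Bool) (i₀ i : Fin (r + 1)) (M : Fin (r + 1) → ℝ) :
    ∑ φ, cf s i₀ i φ * M φ = if i = i₀ then M 0 else ∑ j : Fin r, sgn (s j) * M j.succ := by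
  rw [Fin.sum_univ_succ]
  by_cases h : i = i₀
  · simp only [cf, h, if_true]
    rw [one_mul, Finset.sum_eq_zero, add_zero]
    intro j _
    rw [if_neg (Fin.succ_ne_zero j), zero_mul]
  · simp only [cf, h, if_false, Fin.cases_zero, Fin.cases_succ, zero_mul, zero_add]

/-- flipping one sign -/
private theorem flip_sum {r : ℕ} (j : Fin r) (F : (Fin r → Bool) → ℝ)
    (hF : ∀ s, F (Function.update s j (!(s j))) = F s) :
    ∑ s : Fin r → Bool, (∏ l, sgn (s l)) * F s = 0 := by
  have hinv : ∀ s : Fin r → Bool, Function.update (Function.update s j (!(s j))) j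
      (!((Function.update s j (!(s j))) j)) = s := by
    intro s
    simp
  let e : (Fin r → Bool) ≃ (Fin r → Bool) :=
    { toFun := fun s => Function.update s j (!(s j))
      invFun := fun s => Function.update s j (!(s j))
      left_inv := hinv
      right_inv := hinv }
  have h1 : ∑ s : Fin r → Bool, (∏ l, sgn (s l)) * F s =
      ∑ s : Fin r → Bool, (∏ l, sgn ((e s) l)) * F (e s) :=
    (Equiv.sum_comp e (fun s => (∏ l, sgn (s l)) * F s)).symm
  have h2 : ∀ s : Fin r → Bool, (∏ l, sgn ((e s) l)) = - ∏ l, sgn (s l) := by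
    intro s
    rw [← Finset.mul_prod_erase Finset.univ (fun l => sgn ((e s) l)) (Finset.mem_univ j),
      ← Finset.mul_prod_erase Finset.univ (fun l => sgn (s l)) (Finset.mem_univ j)]
    have h3 : sgn ((e s) j) = - sgn (s j) := by
      change sgn (Function.update s j (!(s j)) j) = _
      rw [Function.update_self, sgn_not]
    have h4 : ∏ l ∈ Finset.univ.erase j, sgn ((e s) l) = ∏ l ∈ Finset.univ.erase j, sgn (s l) := by
      refine Finset.prod_congr rfl fun l hl => ?_
      change sgn (Function.update s j (!(s j)) l) = _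
      rw [Function.update_of_ne (Finset.ne_of_mem_erase hl)]
    rw [h3, h4]
    ring
  have h5 : ∑ s : Fin r → Bool, (∏ l, sgn ((e s) l)) * F (e s) =
      - ∑ s : Fin r → Bool, (∏ l, sgn (s l)) * F s := by
    rw [← Finset.sum_neg_distrib]
    refine Finset.sum_congr rfl fun s _ => ?_
    rw [h2 s]
    have h6 : F (e s) = F s := hF s
    rw [h6]
    ring
  linarith

private theorem coef_zero {r : ℕ} (φ : Fin (r + 1) → Fin (r + 1))
    (hφ : ¬ Function.Surjective φ) :
    ∑ i₀, ∑ s : Fin r → Bool, (∏ l, sgn (s l)) * ∏ i, cf s i₀ i (φ i) = 0 := by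
  unfold Function.Surjective at hφ
  push Not at hφ
  obtain ⟨v, hv⟩ := hφ
  refine Finset.sum_eq_zero fun i₀ _ => ?_
  by_cases h0 : φ i₀ = 0
  · have hv0 : v ≠ 0 := fun h => hv i₀ (by rw [h0, h])
    obtain ⟨j, rfl⟩ := Fin.exists_succ_eq.2 hv0
    refine flip_sum j (fun s => ∏ i, cf s i₀ i (φ i)) fun s => ?_
    refine Finset.prod_congr rfl fun i _ => ?_
    unfold cf
    by_cases hi : i = i₀
    · rw [if_pos hi, if_pos hi]
    · rw [if_neg hi, if_neg hi]
      have hvi := hv i
      induction hw : φ i using Fin.cases with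
      | zero => rfl
      | succ l =>
        rw [Fin.cases_succ, Fin.cases_succ, Function.update_of_ne]
        intro hlj
        exact hvi (by rw [hw, hlj])
  · refine Finset.sum_eq_zero fun s _ => ?_
    rw [Finset.prod_eq_zero (Finset.mem_univ i₀), mul_zero]
    unfold cf
    rw [if_pos rfl, if_neg h0]

private theorem coef_perm {r : ℕ} (π : Equiv.Perm (Fin (r + 1))) :
    ∑ i₀, ∑ s : Fin r → Bool, (∏ l, sgn (s l)) * ∏ i, cf s i₀ i (π i) = 2 ^ r := by
  rw [Finset.sum_eq_single (π.symm 0)]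
  · have h1 : ∀ s : Fin r → Bool,
        (∏ l, sgn (s l)) * ∏ i, cf s (π.symm 0) i (π i) = 1 := by
      intro s
      have h2 : ∏ i, cf s (π.symm 0) i (π i) = ∏ φ, cf s (π.symm 0) (π.symm φ) φ := by
        rw [← Equiv.prod_comp π (fun φ => cf s (π.symm 0) (π.symm φ) φ)]
        refine Finset.prod_congr rfl fun i _ => ?_
        rw [Equiv.symm_apply_apply]
      have h3 : ∏ φ, cf s (π.symm 0) (π.symm φ) φ = ∏ l, sgn (s l) := by
        rw [Fin.prod_univ_succ]
        have h4 : cf s (π.symm 0) (π.symm 0) 0 = 1 := by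
          unfold cf
          rw [if_pos rfl, if_pos rfl]
        rw [h4, one_mul]
        refine Finset.prod_congr rfl fun l _ => ?_
        unfold cf
        rw [if_neg, Fin.cases_succ]
        intro h
        exact Fin.succ_ne_zero l (π.symm.injective h)
      rw [h2, h3, ← Finset.prod_mul_distrib]
      exact Finset.prod_eq_one fun l _ => sgn_mul_self (s l)
    rw [Finset.sum_congr rfl fun s _ => h1 s]
    simp
  · intro i₀ _ hi₀
    refine Finset.sum_eq_zero fun s _ => ?_
    rw [Finset.prod_eq_zero (Finset.mem_univ i₀), mul_zero]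
    unfold cf
    rw [if_pos rfl, if_neg]
    intro h
    exact hi₀ (by rw [← h, Equiv.symm_apply_apply])
  · intro h
    exact absurd (Finset.mem_univ _) h

private theorem perm_polar {r : ℕ} (M : Fin (r + 1) → Fin (r + 1) → ℝ) :
    ∑ s : Fin r → Bool, (∏ j, sgn (s j)) *
      ∑ i₀, ∏ i, (if i = i₀ then M i 0 else ∑ j : Fin r, sgn (s j) * M i j.succ) =
    2 ^ r * ∑ π : Equiv.Perm (Fin (r + 1)), ∏ i, M i (π i) := by
  have h1 : ∀ (s : Fin r → Bool) (i₀ : Fin (r + 1)),
      ∏ i, (if i = i₀ then M i 0 else ∑ j : Fin r, sgn (s j) * M i j.succ) =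
        ∑ φ : Fin (r + 1) → Fin (r + 1), (∏ i, M i (φ i)) * ∏ i, cf s i₀ i (φ i) := by
    intro s i₀
    have h2 : ∀ i : Fin (r + 1),
        (if i = i₀ then M i 0 else ∑ j : Fin r, sgn (s j) * M i j.succ) =
          ∑ φ ∈ Finset.univ, cf s i₀ i φ * M i φ := fun i => (sum_cf s i₀ i (M i)).symm
    rw [Finset.prod_congr rfl fun i _ => h2 i, Finset.prod_univ_sum, Fintype.piFinset_univ]
    refine Finset.sum_congr rfl fun φ _ => ?_
    rw [Finset.prod_mul_distrib, mul_comm]
  have h3 : ∑ s : Fin r → Bool, (∏ j, sgn (s j)) *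
      ∑ i₀, ∏ i, (if i = i₀ then M i 0 else ∑ j : Fin r, sgn (s j) * M i j.succ) =
      ∑ φ : Fin (r + 1) → Fin (r + 1), (∏ i, M i (φ i)) *
        ∑ i₀, ∑ s : Fin r → Bool, (∏ l, sgn (s l)) * ∏ i, cf s i₀ i (φ i) := by
    have h4 : ∀ s : Fin r → Bool, (∏ j, sgn (s j)) *
        ∑ i₀, ∏ i, (if i = i₀ then M i 0 else ∑ j : Fin r, sgn (s j) * M i j.succ) =
        ∑ φ : Fin (r + 1) → Fin (r + 1), ∑ i₀, (∏ i, M i (φ i)) *
          ((∏ l, sgn (s l)) * ∏ i, cf s i₀ i (φ i)) := by
      intro s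
      rw [Finset.sum_comm, Finset.mul_sum]
      refine Finset.sum_congr rfl fun i₀ _ => ?_
      rw [h1, Finset.mul_sum]
      refine Finset.sum_congr rfl fun φ _ => ?_
      ring
    rw [Finset.sum_congr rfl fun s _ => h4 s, Finset.sum_comm]
    refine Finset.sum_congr rfl fun φ _ => ?_
    rw [Finset.sum_comm, Finset.mul_sum]
    refine Finset.sum_congr rfl fun i₀ _ => ?_
    rw [Finset.mul_sum]
  rw [h3, Finset.mul_sum]
  symm
  refine Fintype.sum_of_injective (fun π : Equiv.Perm (Fin (r + 1)) => (π : Fin (r + 1) → Fin (r + 1)))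
    DFunLike.coe_injective _ _ ?_ ?_
  · intro φ hφ
    rw [coef_zero φ, mul_zero]
    intro hs
    exact hφ ⟨Equiv.ofBijective φ (Finite.surjective_iff_bijective.1 hs), rfl⟩
  · intro π
    rw [coef_perm π, mul_comm]

private theorem slot_apply {q n : ℕ} (v f : E n) (I : Fin q → Fin n) :
    slot q v f I = ∑ i₀, ∏ i, (if i = i₀ then f (I i) else v (I i)) := by
  unfold slot
  rw [WithLp.ofLp_sum, Finset.sum_apply]
  refine Finset.sum_congr rfl fun i₀ _ => ?_
  change ∏ i, (Function.update (fun _ => v) i₀ f i) (I i) = _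
  refine Finset.prod_congr rfl fun i _ => ?_
  by_cases h : i = i₀
  · rw [if_pos h, h, Function.update_self]
  · rw [if_neg h, Function.update_of_ne h]

private theorem Yp_apply {q n : ℕ} (z : Fin q → E n) (I : Fin q → Fin n) :
    Yp z I = ∑ π : Equiv.Perm (Fin q), ∏ i, z (π i) (I i) := by
  unfold Yp
  rw [WithLp.ofLp_sum, Finset.sum_apply]
  rfl

theorem polar {r n : ℕ} (x : Fin r → E n) (f : E n) :
    ∑ s : Fin r → Bool, (∏ j, sgn (s j)) • slot (r + 1) (∑ j, sgn (s j) • x j) f =
      (2 : ℝ) ^ r • Yp (Fin.cons f x : Fin (r + 1) → E n) := by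
  ext I
  rw [WithLp.ofLp_sum, Finset.sum_apply]
  have h := perm_polar (r := r) (fun i φ => (Fin.cons f x : Fin (r + 1) → E n) φ (I i))
  have h1 : ((2 : ℝ) ^ r • Yp (Fin.cons f x : Fin (r + 1) → E n)) I =
      2 ^ r * ∑ π : Equiv.Perm (Fin (r + 1)),
        ∏ i, (Fin.cons f x : Fin (r + 1) → E n) (π i) (I i) := by
    rw [← Yp_apply]
    rfl
  rw [h1, ← h]
  refine Finset.sum_congr rfl fun s _ => ?_
  change (∏ j, sgn (s j)) * (slot (r + 1) (∑ j, sgn (s j) • x j) f) I = _
  rw [slot_apply]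
  congr 1
  refine Finset.sum_congr rfl fun i₀ _ => ?_
  refine Finset.prod_congr rfl fun i _ => ?_
  by_cases hi : i = i₀
  · rw [if_pos hi, if_pos hi]
    rfl
  · rw [if_neg hi, if_neg hi, WithLp.ofLp_sum, Finset.sum_apply]
    refine Finset.sum_congr rfl fun j _ => ?_
    rfl

end Pool.Agent.EFP
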