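import Pool.Agent.Lib.EFP.XInner

set_option autoImplicit false

/-!
# EFP.SmallD: the plane tensors `dvec` and the bound forced by the frame condition

`dvec p u v f j = slot (u + c v) f - λ slot u f - λ c slot v f` with `c = j + 1`,
`λ = (1 + c^2)^(p-1)`.

PROOF of `sum_dvec_le`. Let `K = 3 (4p^2)^p`. For a unit vector `F` in the span of the `f l`
(so `F` is orthogonal to the range of `A`) let `w` be given by `Cond`. By homogeneity
(`G_smul_left`) every `z : E k` satisfies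
`|G t (A z) F - ‖z‖^(2p-2) ⟪z,w⟫| ≤ ε ‖z‖^(2p-1)`   (trivial for `z = 0`, where `G t 0 F = 0`
as `2p - 1 ≥ 1`; `ε ≥ 0`, since `‖x‖ = 1` exists in `E k`).
Apply it to `x + c y` (norm `√(1+c^2)`), `x` and `y`: the main terms cancel,
`(1+c^2)^(p-1) ⟪x + c y, w⟫ - λ ⟪x,w⟫ - λ c ⟪y,w⟫ = 0`, so
`|⟪t, dvec p u v F j⟫| ≤ ε ((1+c^2)^((2p-1)/2) + λ + λ c) ≤ 3 ε (1+c^2)^p ≤ K ε`
(`c ≤ 2p - 2`, so `1 + c^2 ≤ 4p^2`). Here `dvec p u v F j` is linear in `F` (`slot_add`,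
`slot_smul`, `slot_sum`). Now let `a l = ⟪t, dvec p u v (f l) j⟫`, `S = ∑ a l ^ 2`. If `S > 0` take
`F = ∑ l, (a l / √S) • f l` (a unit vector): `⟪t, dvec p u v F j⟫ = √S ≤ K ε`, and
`K ε ≥ 0`. If `S = 0` there is nothing to prove.
-/

namespace Pool.Agent.EFP

open scoped RealInnerProductSpace

/-- The plane tensors. -/
noncomputable def dvec (p : ℕ) {n : ℕ} (u v f : E n) (j : Fin (2 * p - 2)) : V (2 * p) n :=
  slot (2 * p) (u + ((j : ℝ) + 1) • v) f - (1 + ((j : ℝ) + 1) ^ 2) ^ (p - 1) • slot (2 * p) u f -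
    ((1 + ((j : ℝ) + 1) ^ 2) ^ (p - 1) * ((j : ℝ) + 1)) • slot (2 * p) v f

namespace SmallDAux

theorem dvec_sum (p : ℕ) {n m : ℕ} (u v : E n) (f : Fin m → E n) (a : Fin m → ℝ)
    (j : Fin (2 * p - 2)) :
    dvec p u v (∑ l, a l • f l) j = ∑ l, a l • dvec p u v (f l) j := by
  unfold dvec
  rw [slot_sum, slot_sum, slot_sum, Finset.smul_sum, Finset.smul_sum, ← Finset.sum_sub_distrib,
    ← Finset.sum_sub_distrib]
  refine Finset.sum_congr rfl fun l _ => ?_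
  rw [slot_smul, slot_smul, slot_smul]
  module

/-- the bound for one vector -/
theorem one_dvec_le (p : ℕ) (hp : 2 ≤ p) {n k : ℕ} {ε : ℝ} {t : V (2 * p) n}
    {A : E k →L[ℝ] E n} (hC : Cond ε t A) (x y : E k)
    (hx : ‖x‖ = 1) (hy : ‖y‖ = 1) (hxy : ⟪x, y⟫ = 0) (F : E n) (hF : ‖F‖ = 1)
    (hAF : ∀ z, ⟪A z, F⟫ = 0) (j : Fin (2 * p - 2)) :
    |⟪t, dvec p (A x) (A y) F j⟫| ≤ 3 * (4 * (p : ℝ) ^ 2) ^ p * ε := by
  obtain ⟨w, hw⟩ := hC F hF hAF
  have hε : 0 ≤ ε := le_trans (abs_nonneg _) (hw x hx)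
  set c : ℝ := (j : ℝ) + 1 with hc
  have hc0 : 0 ≤ c := by positivity
  set z : E k := x + c • y with hz
  have hzn : ‖z‖ ^ 2 = 1 + c ^ 2 := by
    rw [hz, norm_add_sq_real, real_inner_smul_right, hxy, norm_smul, hx, hy, Real.norm_eq_abs,
      mul_one, sq_abs]
    ring
  have hr1 : 1 ≤ ‖z‖ := by
    by_contra hlt
    push Not at hlt
    have := norm_nonneg z
    nlinarith
  have hr0 : 0 < ‖z‖ := by linarith
  set r := ‖z‖ with hr
  have hunit : ‖r⁻¹ • z‖ = 1 := by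
    rw [norm_smul, norm_inv, Real.norm_eq_abs, abs_of_pos hr0, ← hr]
    exact inv_mul_cancel₀ hr0.ne'
  have hhom := hw (r⁻¹ • z) hunit
  rw [map_smul, G_smul_left, real_inner_smul_left] at hhom
  have hpow : r ^ (2 * p - 1) = (1 + c ^ 2) ^ (p - 1) * r := by
    rw [← hzn, ← pow_mul, ← pow_succ]
    congr 1
    omega
  have hb1 : |G t (A z) F - (1 + c ^ 2) ^ (p - 1) * ⟪z, w⟫| ≤ ε * r ^ (2 * p - 1) := by
    have e1 : G t (A z) F - (1 + c ^ 2) ^ (p - 1) * ⟪z, w⟫ =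
        r ^ (2 * p - 1) * (r⁻¹ ^ (2 * p - 1) * G t (A z) F - r⁻¹ * ⟪z, w⟫) := by
      rw [mul_sub, ← mul_assoc, ← mul_pow, mul_inv_cancel₀ hr0.ne', one_pow, one_mul, hpow]
      field_simp
    rw [e1, abs_mul, abs_of_pos (by positivity : (0 : ℝ) < r ^ (2 * p - 1)), mul_comm]
    exact mul_le_mul_of_nonneg_right hhom (by positivity)
  have hbx := hw x hx
  have hby := hw y hy
  have hAz : A z = A x + c • A y := by
    rw [hz, map_add, map_smul]
  have hzw : ⟪z, w⟫ = ⟪x, w⟫ + c * ⟪y, w⟫ := by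
    rw [hz, inner_add_left, real_inner_smul_left]
  set lam : ℝ := (1 + c ^ 2) ^ (p - 1) with hlam
  have hlam0 : 0 ≤ lam := by positivity
  have hexp : ⟪t, dvec p (A x) (A y) F j⟫ =
      (G t (A z) F - lam * ⟪z, w⟫) - lam * (G t (A x) F - ⟪x, w⟫)
        - lam * c * (G t (A y) F - ⟪y, w⟫) := by
    rw [hzw, hAz]
    unfold dvec G
    rw [inner_sub_right, inner_sub_right, real_inner_smul_right, real_inner_smul_right]
    ring
  have hB : (1 + c ^ 2) ^ p = lam * (1 + c ^ 2) := by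
    rw [hlam, ← pow_succ]
    congr 1
    omega
  have hr2p : r ^ (2 * p - 1) ≤ (1 + c ^ 2) ^ p := by
    rw [← hzn, ← pow_mul]
    exact pow_le_pow_right₀ hr1 (by omega)
  have hlamB : lam ≤ (1 + c ^ 2) ^ p := by
    rw [hB]
    nlinarith [mul_nonneg hlam0 (sq_nonneg c)]
  have hlamcB : lam * c ≤ (1 + c ^ 2) ^ p := by
    rw [hB]
    apply mul_le_mul_of_nonneg_left _ hlam0
    nlinarith [sq_nonneg (c - 1)]
  have hcp : 1 + c ^ 2 ≤ 4 * (p : ℝ) ^ 2 := by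
    have h1 : (j : ℕ) + 1 ≤ 2 * p - 2 := j.2
    have h2 : (j : ℕ) + 3 ≤ 2 * p := by omega
    have h3 : ((j : ℕ) : ℝ) + 3 ≤ 2 * (p : ℝ) := by exact_mod_cast h2
    have h4 : c + 2 ≤ 2 * (p : ℝ) := by rw [hc]; linarith
    nlinarith
  have hfin : (1 + c ^ 2) ^ p ≤ (4 * (p : ℝ) ^ 2) ^ p :=
    pow_le_pow_left₀ (by positivity) hcp p
  rw [hexp]
  calc |(G t (A z) F - lam * ⟪z, w⟫) - lam * (G t (A x) F - ⟪x, w⟫)
        - lam * c * (G t (A y) F - ⟪y, w⟫)|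
      ≤ |G t (A z) F - lam * ⟪z, w⟫| + |lam * (G t (A x) F - ⟪x, w⟫)|
        + |lam * c * (G t (A y) F - ⟪y, w⟫)| :=
        le_trans (abs_sub _ _) (add_le_add (abs_sub _ _) le_rfl)
    _ ≤ ε * r ^ (2 * p - 1) + lam * ε + lam * c * ε := by
        rw [abs_mul, abs_mul, abs_of_nonneg hlam0, abs_of_nonneg (mul_nonneg hlam0 hc0)]
        exact add_le_add (add_le_add hb1 (mul_le_mul_of_nonneg_left hbx hlam0))
          (mul_le_mul_of_nonneg_left hby (mul_nonneg hlam0 hc0))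
    _ ≤ 3 * (4 * (p : ℝ) ^ 2) ^ p * ε := by
        nlinarith [mul_le_mul_of_nonneg_left (hr2p.trans hfin) hε,
          mul_le_mul_of_nonneg_left (hlamB.trans hfin) hε,
          mul_le_mul_of_nonneg_left (hlamcB.trans hfin) hε]

end SmallDAux

open SmallDAux

theorem sum_dvec_le (p : ℕ) (hp : 2 ≤ p) {n k m : ℕ} {ε : ℝ} {t : V (2 * p) n}
    {A : E k →L[ℝ] E n} (hA : ∀ x, ‖A x‖ = ‖x‖) (hC : Cond ε t A) (x y : E k)
    (hx : ‖x‖ = 1) (hy : ‖y‖ = 1) (hxy : ⟪x, y⟫ = 0) (f : Fin m → E n) (hf : Orthonormal ℝ f)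
    (hAf : ∀ z l, ⟪A z, f l⟫ = 0) (j : Fin (2 * p - 2)) :
    ∑ l, ⟪t, dvec p (A x) (A y) (f l) j⟫ ^ 2 ≤ (3 * (4 * (p : ℝ) ^ 2) ^ p * ε) ^ 2 := by
  set a : Fin m → ℝ := fun l => ⟪t, dvec p (A x) (A y) (f l) j⟫ with ha
  change ∑ l, a l ^ 2 ≤ _
  set S : ℝ := ∑ l, a l ^ 2 with hS
  have hS0 : 0 ≤ S := Finset.sum_nonneg fun l _ => sq_nonneg _
  rcases hS0.eq_or_lt with h0 | hpos
  · rw [← h0]
    exact sq_nonneg _
  · have hsq : 0 < √S := Real.sqrt_pos.2 hpos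
    have hss : √S * √S = S := Real.mul_self_sqrt hS0
    set F : E n := ∑ l, (a l / √S) • f l with hF
    have hFn : ‖F‖ = 1 := by
      have h1 : ‖F‖ ^ 2 = 1 := by
        rw [← real_inner_self_eq_norm_sq, hF, hf.inner_sum]
        simp only [conj_trivial]
        have : ∀ l, a l / √S * (a l / √S) = a l ^ 2 / S := by
          intro l
          rw [div_mul_div_comm, hss, sq]
        rw [Finset.sum_congr rfl fun l _ => this l, ← Finset.sum_div, ← hS]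
        exact div_self hpos.ne'
      have h2 := norm_nonneg F
      nlinarith
    have hAF : ∀ z, ⟪A z, F⟫ = 0 := by
      intro z
      rw [hF, inner_sum]
      refine Finset.sum_eq_zero fun l _ => ?_
      rw [real_inner_smul_right, hAf, mul_zero]
    have hb := one_dvec_le p hp hC x y hx hy hxy F hFn hAF j
    have hval : ⟪t, dvec p (A x) (A y) F j⟫ = √S := by
      rw [hF, dvec_sum, inner_sum]
      have : ∀ l, ⟪t, (a l / √S) • dvec p (A x) (A y) (f l) j⟫ = a l ^ 2 / √S := by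
        intro l
        rw [real_inner_smul_right]
        change a l / √S * a l = _
        ring
      rw [Finset.sum_congr rfl fun l _ => this l, ← Finset.sum_div, ← hS]
      rw [div_eq_iff hsq.ne', hss]
    rw [hval, abs_of_pos hsq] at hb
    calc S = √S ^ 2 := by rw [sq, hss]
      _ ≤ (3 * (4 * (p : ℝ) ^ 2) ^ p * ε) ^ 2 := pow_le_pow_left₀ hsq.le hb 2

end Pool.Agent.EFP
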