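import Pool.Agent.Lib.EFP.SmallR
import Pool.Agent.Lib.EFP.SmallBall
import Pool.Agent.Lib.EFP.Frame

set_option autoImplicit false

/-!
# EFP.SmallFam: the frame condition is rare (planes)

PROOF. Let `K₁ = 3 (4p^2)^p`, `c₀` the constant of `riesz_dvec p`, and
`K = K₁ √3 / √c₀` (or anything larger). Let `f` be the system of `frame_perp` for `A`,
`m = n - k ≥ 1`, `e i = EuclideanSpace.single i 1 : E k`, `x_a = e (2a)`, `y_a = e (2a+1)` for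
`a : Fin P` (`2P ≤ k`), `u a = A x_a`, `v a = A y_a` (`inner_iso`, orthonormality). Let `ι = Fin P × Fin (2p-2) × Fin m`,
`N = card ι = P (2p-2) m`. If `Cond ε t A` then by `sum_dvec_le`, summing over `a` and `j`,
`∑_{i : ι} ⟪t, dvec ..⟫^2 ≤ P (2p-2) (K₁ ε)^2 =: r^2`. Apply `smallBall` (`W = V (2p) n`,
`finrank = n^(2p)`) with `c = √c₀` and `a = K ε √(n/m)`: the condition
`3 r^2 n^(2p) ≤ a^2 c₀ R^2 N` reads, because `R^2 n = n^(2p)` and `N = P (2p-2) m`,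
`3 P (2p-2) (K₁ε)^2 n ≤ K^2 ε^2 (n/m) c₀ P (2p-2) m`, which holds with equality.
(If `P = 0` both sides are trivial: `N = 0`.)
-/

namespace Pool.Agent.EFP

open MeasureTheory Metric
open scoped RealInnerProductSpace

theorem SmallFamAux.orthonormal_image {n k : ℕ} (A : E k →L[ℝ] E n) (hA : ∀ x, ‖A x‖ = ‖x‖) :
    Orthonormal ℝ (fun i : Fin k => A (EuclideanSpace.single i (1 : ℝ))) := by
  have he : Orthonormal ℝ (fun i : Fin k => EuclideanSpace.single i (1 : ℝ)) :=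
    EuclideanSpace.orthonormal_single
  refine ⟨fun i => ?_, fun i j hij => ?_⟩
  · rw [hA]
    exact he.1 i
  · show ⟪A (EuclideanSpace.single i (1 : ℝ)), A (EuclideanSpace.single j (1 : ℝ))⟫ = 0
    rw [inner_iso A hA]
    exact he.2 hij

theorem smallFam (p : ℕ) (hp : 2 ≤ p) : ∃ K : ℝ, 0 < K ∧ ∀ (n k P : ℕ) (A : E k →L[ℝ] E n),
    (∀ x, ‖A x‖ = ‖x‖) → 2 * P ≤ k → k < n → ∀ R ε : ℝ, 0 < R → R ^ 2 * n = (n : ℝ) ^ (2 * p) →
    0 < ε → volume {t : V (2 * p) n | ‖t‖ ≤ R ∧ Cond ε t A} ≤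
      ENNReal.ofReal ((K * ε * √((n : ℝ) / ((n - k : ℕ) : ℝ))) ^ (P * (2 * p - 2) * (n - k))) *
        volume (closedBall (0 : V (2 * p) n) R) := by
  obtain ⟨c₀, hc₀, hR0⟩ := riesz_dvec p hp
  have hp0 : (0 : ℝ) < p := by exact_mod_cast (by omega : 0 < p)
  obtain ⟨K₁, hK₁⟩ : ∃ K₁ : ℝ, K₁ = 3 * (4 * (p : ℝ) ^ 2) ^ p := ⟨_, rfl⟩
  have hK₁pos : 0 < K₁ := by rw [hK₁]; positivity
  have hsc : 0 < √c₀ := Real.sqrt_pos.2 hc₀
  refine ⟨K₁ * √3 / √c₀, by positivity, ?_⟩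
  intro n k P A hA hPk hkn R ε hR hRn hε
  obtain ⟨f, hf, hAf⟩ := frame_perp A hA
  have hg := SmallFamAux.orthonormal_image A hA
  let φ : Fin P → Fin k := fun a => ⟨2 * a, by have := a.2; omega⟩
  let ψ : Fin P → Fin k := fun a => ⟨2 * a + 1, by have := a.2; omega⟩
  have hφ : Function.Injective φ := by
    intro a b h
    have : 2 * (a : ℕ) = 2 * b := congrArg (fun z : Fin k => (z : ℕ)) h
    exact Fin.ext (by omega)
  have hψ : Function.Injective ψ := by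
    intro a b h
    have : 2 * (a : ℕ) + 1 = 2 * b + 1 := congrArg (fun z : Fin k => (z : ℕ)) h
    exact Fin.ext (by omega)
  have hφψ : ∀ a b, φ a ≠ ψ b := by
    intro a b h
    have : 2 * (a : ℕ) = 2 * b + 1 := congrArg (fun z : Fin k => (z : ℕ)) h
    omega
  let x : Fin P → E k := fun a => EuclideanSpace.single (φ a) (1 : ℝ)
  let y : Fin P → E k := fun a => EuclideanSpace.single (ψ a) (1 : ℝ)
  have hu : Orthonormal ℝ (fun a => A (x a)) := hg.comp φ hφ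
  have hv : Orthonormal ℝ (fun a => A (y a)) := hg.comp ψ hψ
  have huv : ∀ a b, ⟪A (x a), A (y b)⟫ = 0 := fun a b => hg.2 (hφψ a b)
  let ι : Type := Fin P × Fin (2 * p - 2) × Fin (n - k)
  let w : ι → V (2 * p) n := fun i => dvec p (A (x i.1)) (A (y i.1)) (f i.2.2) i.2.1
  have hcard : Fintype.card ι = P * (2 * p - 2) * (n - k) := by
    simp only [ι, Fintype.card_prod, Fintype.card_fin]
    ring
  obtain ⟨r, hr⟩ : ∃ r : ℝ, r = K₁ * ε * √((P : ℝ) * ((2 * p - 2 : ℕ) : ℝ)) := ⟨_, rfl⟩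
  have hr0 : 0 ≤ r := by rw [hr]; positivity
  have hr2 : r ^ 2 = (K₁ * ε) ^ 2 * ((P : ℝ) * ((2 * p - 2 : ℕ) : ℝ)) := by
    rw [hr, mul_pow, Real.sq_sqrt (by positivity)]
  have hn : (0 : ℝ) < n := by exact_mod_cast (by omega : 0 < n)
  have hm : (0 : ℝ) < ((n - k : ℕ) : ℝ) := by exact_mod_cast (by omega : 0 < n - k)
  obtain ⟨a, ha⟩ : ∃ a : ℝ, a = K₁ * √3 / √c₀ * ε * √((n : ℝ) / ((n - k : ℕ) : ℝ)) := ⟨_, rfl⟩
  have ha0 : 0 < a := by
    rw [ha]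
    have : 0 < √((n : ℝ) / ((n - k : ℕ) : ℝ)) := Real.sqrt_pos.2 (div_pos hn hm)
    positivity
  have ha2 : a ^ 2 = K₁ ^ 2 * 3 / c₀ * ε ^ 2 * ((n : ℝ) / ((n - k : ℕ) : ℝ)) := by
    rw [ha, mul_pow, Real.sq_sqrt (by positivity), mul_pow, div_pow, mul_pow,
      Real.sq_sqrt (by norm_num), Real.sq_sqrt hc₀.le]
  have hw : ∀ z : ι → ℝ, √c₀ ^ 2 * ∑ i, z i ^ 2 ≤ ‖∑ i, z i • w i‖ ^ 2 := by
    intro z
    rw [Real.sq_sqrt hc₀.le]
    exact hR0 n P (n - k) (fun a => A (x a)) (fun a => A (y a)) f hu hv huv hf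
      (fun a l => hAf _ _) (fun a l => hAf _ _) z
  have hfin : (Module.finrank ℝ (V (2 * p) n) : ℝ) = (n : ℝ) ^ (2 * p) := by
    rw [finrank_euclideanSpace, Fintype.card_fun, Fintype.card_fin, Fintype.card_fin]
    push_cast
    rfl
  have hcardR : (Fintype.card ι : ℝ) = P * ((2 * p - 2 : ℕ) : ℝ) * ((n - k : ℕ) : ℝ) := by
    rw [hcard]
    push_cast
    rfl
  have h : 3 * r ^ 2 * Module.finrank ℝ (V (2 * p) n) ≤
      a ^ 2 * √c₀ ^ 2 * R ^ 2 * Fintype.card ι := by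
    rw [hfin, hcardR, ha2, hr2, Real.sq_sqrt hc₀.le, ← hRn]
    apply le_of_eq
    field_simp
  have hsub : {t : V (2 * p) n | ‖t‖ ≤ R ∧ Cond ε t A} ⊆
      {t | ‖t‖ ≤ R ∧ ∑ i, ⟪t, w i⟫ ^ 2 ≤ r ^ 2} := by
    rintro t ⟨ht1, ht2⟩
    refine ⟨ht1, ?_⟩
    rw [Fintype.sum_prod_type]
    have h1 : ∀ a : Fin P, ∑ i : Fin (2 * p - 2) × Fin (n - k), ⟪t, w (a, i)⟫ ^ 2 ≤
        ((2 * p - 2 : ℕ) : ℝ) * (K₁ * ε) ^ 2 := by
      intro a
      rw [Fintype.sum_prod_type]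
      have h2 : ∀ j : Fin (2 * p - 2), ∑ l : Fin (n - k), ⟪t, w (a, j, l)⟫ ^ 2 ≤
          (K₁ * ε) ^ 2 := by
        intro j
        have h3 := sum_dvec_le p hp hA ht2 (x a) (y a) (by simp [x]) (by simp [y])
          (by rw [← inner_iso A hA]; exact huv a a) f hf hAf j
        rw [← hK₁] at h3
        exact h3
      calc ∑ j : Fin (2 * p - 2), ∑ l : Fin (n - k), ⟪t, w (a, j, l)⟫ ^ 2
          ≤ ∑ j : Fin (2 * p - 2), (K₁ * ε) ^ 2 := Finset.sum_le_sum fun j _ => h2 j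
        _ = ((2 * p - 2 : ℕ) : ℝ) * (K₁ * ε) ^ 2 := by
          rw [Finset.sum_const, Finset.card_univ, Fintype.card_fin, nsmul_eq_mul]
    calc ∑ a : Fin P, ∑ i : Fin (2 * p - 2) × Fin (n - k), ⟪t, w (a, i)⟫ ^ 2
        ≤ ∑ a : Fin P, ((2 * p - 2 : ℕ) : ℝ) * (K₁ * ε) ^ 2 := Finset.sum_le_sum fun a _ => h1 a
      _ = r ^ 2 := by
        rw [Finset.sum_const, Finset.card_univ, Fintype.card_fin, nsmul_eq_mul, hr2]
        ring
  have hfinal := smallBall (volume : Measure (V (2 * p) n)) w hsc hR hr0 ha0 hw h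
  rw [hcard] at hfinal
  rw [← ha]
  exact (measure_mono hsub).trans hfinal

end Pool.Agent.EFP
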