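import Mathlib

set_option autoImplicit false

/-!
# EFP.Vand: a quadratic form of Vandermonde type is positive definite

PROOF. The linear map `L : (Fin m → ℝ) → (Fin m → ℝ)`,
`(L x) s = ∑ j, x j * (j+1)^(s+1)`, is injective: if `L x = 0` then with `y j = x j * (j+1)` we have
`∑ j, y j * (j+1)^s = 0` for all `s < m`, and the Vandermonde determinant of the distinct numbers
`1, ..., m` is nonzero (`Matrix.det_vandermonde_ne_zero_iff`), so `y = 0` and `x = 0`.
On `EuclideanSpace ℝ (Fin m)` an injective linear map is bounded below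
(`LinearMap.exists_antilipschitzWith`, or compactness of the unit sphere): `‖x‖ ≤ K ‖L x‖`, `K > 0`.
Take `c = 1/K^2` (for `m = 0` any `c` works).
-/

namespace Pool.Agent.EFP

theorem vand (m : ℕ) : ∃ c : ℝ, 0 < c ∧ ∀ x : Fin m → ℝ,
    c * ∑ j, x j ^ 2 ≤ ∑ s : Fin m, (∑ j : Fin m, x j * ((j : ℝ) + 1) ^ ((s : ℕ) + 1)) ^ 2 := by
  classical
  set v : Fin m → ℝ := fun j => (j : ℝ) + 1 with hv
  have hinj : Function.Injective v := by
    intro a b hab
    have h1 : ((a : ℕ) : ℝ) = ((b : ℕ) : ℝ) := by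
      have h2 : (a : ℝ) + 1 = (b : ℝ) + 1 := hab
      linarith
    exact Fin.ext (by exact_mod_cast h1)
  have hdet : (Matrix.vandermonde v).det ≠ 0 := Matrix.det_vandermonde_ne_zero_iff.2 hinj
  have hunit : IsUnit (Matrix.vandermonde v).det := isUnit_iff_ne_zero.2 hdet
  set B : Matrix (Fin m) (Fin m) ℝ := (Matrix.vandermonde v)⁻¹ with hB
  have hVB : Matrix.vandermonde v * B = 1 := Matrix.mul_nonsing_inv _ hunit
  set K : ℝ := ∑ j, ∑ s, B s j ^ 2 with hK
  have hK0 : 0 ≤ K := Finset.sum_nonneg fun j _ => Finset.sum_nonneg fun s _ => sq_nonneg _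
  refine ⟨1 / (1 + K), by positivity, fun x => ?_⟩
  set L : Fin m → ℝ := fun s => ∑ j : Fin m, x j * ((j : ℝ) + 1) ^ ((s : ℕ) + 1) with hL
  set Q : ℝ := ∑ s, L s ^ 2 with hQ
  have hQ0 : 0 ≤ Q := Finset.sum_nonneg fun s _ => sq_nonneg _
  have h1 : ∀ j, x j * v j = ∑ s, L s * B s j := by
    intro j
    have h2 : Matrix.vecMul (Matrix.vecMul (fun j => x j * v j) (Matrix.vandermonde v)) B =
        fun j => x j * v j := by
      rw [Matrix.vecMul_vecMul, hVB, Matrix.vecMul_one]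
    have h3 : Matrix.vecMul (fun j => x j * v j) (Matrix.vandermonde v) = L := by
      funext s
      simp only [Matrix.vecMul, dotProduct, Matrix.vandermonde_apply, hL]
      refine Finset.sum_congr rfl fun i _ => ?_
      have h4 : v i = (i : ℝ) + 1 := rfl
      rw [h4, pow_succ]
      ring
    rw [h3] at h2
    have h5 := congrFun h2 j
    rw [← h5]
    rfl
  have h6 : ∀ j, x j ^ 2 ≤ (∑ s, B s j ^ 2) * Q := by
    intro j
    have h7 : x j ^ 2 ≤ (x j * v j) ^ 2 := by
      have h8 : (1 : ℝ) ≤ v j := by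
        have : (0 : ℝ) ≤ (j : ℝ) := Nat.cast_nonneg _
        show (1 : ℝ) ≤ (j : ℝ) + 1
        linarith
      have h9 : (1 : ℝ) ≤ v j ^ 2 := one_le_pow₀ h8
      rw [mul_pow]
      nlinarith [sq_nonneg (x j)]
    refine h7.trans ?_
    rw [h1 j, mul_comm (∑ s, B s j ^ 2) Q]
    exact Finset.sum_mul_sq_le_sq_mul_sq Finset.univ L (fun s => B s j)
  have h10 : ∑ j, x j ^ 2 ≤ K * Q := by
    rw [hK, Finset.sum_mul]
    exact Finset.sum_le_sum fun j _ => h6 j
  have h11 : ∑ j, x j ^ 2 ≤ (1 + K) * Q := by nlinarith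
  rw [one_div, inv_mul_le_iff₀ (by positivity)]
  exact h11

end Pool.Agent.EFP
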