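import Pool.Agent.Lib.EFP.SmallD
import Pool.Agent.Lib.EFP.Vand

set_option autoImplicit false

/-!
# EFP.SmallR: the plane tensors are well conditioned

PROOF. Let `c₀` be the constant of `vand (2p-2)` and `c = c₀` (note `2p ≥ 1`, so it is enough to show
the bound with `2p c₀` in place of `c`). Let `q = 2p`, `c_j = j+1`, `λ_j = (1+c_j^2)^(p-1)`,
`μ_j = λ_j c_j`.

(1) By `inner_slot` (all `f l` are orthogonal to all `u a`, `v a`) the inner product of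
`dvec p (u a) (v a) (f l) j` and `dvec p (u a') (v a') (f l') j'` is
`q ⟪f l, f l'⟫ (⟪u a + c_j v a, u a' + c_j' v a'⟫^(q-1) - ...)`, all the inner products being `0` if
`a ≠ a'` (`0^(q-1) = 0`), and `0` if `l ≠ l'`. For `a = a'`, `l = l'` it equals `q k_{jj'}`,
`k_{jj'} = (1 + c_j c_j')^(q-1) - λ_j - λ_j' + λ_j λ_j' - μ_j' c_j^(q-1) - μ_j c_j'^(q-1) + μ_j μ_j'`
(as `⟪u,u⟫ = ⟪v,v⟫ = 1`, `⟪u,v⟫ = 0`, `⟪u + c v, u⟫ = 1`, `⟪u + c v, v⟫ = c`).

(2) So the square of the norm of the sum is `∑_{a,l} q ∑_{j,j'} x_{ajl} x_{aj'l} k_{jj'}`, and for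
every `x : Fin (2p-2) → ℝ`, by the binomial theorem
`(1 + c_j c_j')^(q-1) = ∑_{s=0}^{q-1} choose(q-1,s) c_j^s c_j'^s`,
`∑_{j,j'} x_j x_j' k_{jj'} = ∑_{s=1}^{q-2} choose(q-1,s) (∑_j x_j c_j^s)^2
  + (∑ x_j - ∑ λ_j x_j)^2 + (∑ x_j c_j^(q-1) - ∑ μ_j x_j)^2 ≥ ∑_{s=1}^{q-2} (∑_j x_j c_j^s)^2
  ≥ c₀ ∑ x_j^2`.
(The `s = 0` term `(∑ x_j)^2` combines with `-2 (∑ λ_j x_j)(∑ x_j) + (∑ λ_j x_j)^2`, the
`s = q - 1` term similarly; `s` runs over `1..q-2`, that is `s' + 1` with `s' : Fin (2p-2)`.)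
-/

namespace Pool.Agent.EFP

open scoped RealInnerProductSpace

namespace SmallRAux

theorem quad (m : ℕ) (c lam mu y : Fin m → ℝ) :
    ∑ s : Fin m, (∑ j : Fin m, y j * c j ^ ((s : ℕ) + 1)) ^ 2 ≤
      ∑ j, ∑ j', y j * y j' * ((1 + c j * c j') ^ (m + 1) - lam j' - mu j' * c j ^ (m + 1) -
        lam j + lam j * lam j' - mu j * c j' ^ (m + 1) + mu j * mu j') := by
  set P : ℕ → ℝ := fun s => ∑ j, y j * c j ^ s with hP
  set La : ℝ := ∑ j, lam j * y j with hLa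
  set M : ℝ := ∑ j, mu j * y j with hM
  have h1 : ∑ j, ∑ j', y j * y j' * (1 + c j * c j') ^ (m + 1) =
      ∑ s ∈ Finset.range (m + 2), ((m + 1).choose s : ℝ) * P s ^ 2 := by
    have e1 : ∀ j j', y j * y j' * (1 + c j * c j') ^ (m + 1) =
        ∑ s ∈ Finset.range (m + 2), ((m + 1).choose s : ℝ) *
          ((y j * c j ^ s) * (y j' * c j' ^ s)) := by
      intro j j'
      rw [add_comm, add_pow, Finset.mul_sum]
      refine Finset.sum_congr rfl fun s _ => ?_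
      rw [one_pow, mul_pow]
      ring
    simp only [e1]
    have e2 : ∀ j, ∑ j', ∑ s ∈ Finset.range (m + 2), ((m + 1).choose s : ℝ) *
          ((y j * c j ^ s) * (y j' * c j' ^ s)) =
        ∑ s ∈ Finset.range (m + 2), ((m + 1).choose s : ℝ) * ((y j * c j ^ s) * P s) := by
      intro j
      rw [Finset.sum_comm]
      refine Finset.sum_congr rfl fun s _ => ?_
      rw [← Finset.mul_sum, ← Finset.mul_sum]
    simp only [e2]
    rw [Finset.sum_comm]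
    refine Finset.sum_congr rfl fun s _ => ?_
    rw [← Finset.mul_sum, ← Finset.sum_mul]
    ring
  have hsplit : ∑ j, ∑ j', y j * y j' * ((1 + c j * c j') ^ (m + 1) - lam j' -
      mu j' * c j ^ (m + 1) - lam j + lam j * lam j' - mu j * c j' ^ (m + 1) + mu j * mu j') =
      ∑ j, ∑ j', y j * y j' * (1 + c j * c j') ^ (m + 1)
        - 2 * La * P 0 - 2 * M * P (m + 1) + La ^ 2 + M ^ 2 := by
    have f1 : P 0 * La = ∑ j, ∑ j', y j * y j' * lam j' := by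
      rw [hP, hLa, Finset.sum_mul_sum]
      refine Finset.sum_congr rfl fun j _ => Finset.sum_congr rfl fun j' _ => ?_
      rw [pow_zero]; ring
    have f2 : La * P 0 = ∑ j, ∑ j', y j * y j' * lam j := by
      rw [hP, hLa, Finset.sum_mul_sum]
      refine Finset.sum_congr rfl fun j _ => Finset.sum_congr rfl fun j' _ => ?_
      rw [pow_zero]; ring
    have f3 : P (m + 1) * M = ∑ j, ∑ j', y j * y j' * (mu j' * c j ^ (m + 1)) := by
      rw [hP, hM, Finset.sum_mul_sum]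
      refine Finset.sum_congr rfl fun j _ => Finset.sum_congr rfl fun j' _ => ?_
      ring
    have f4 : M * P (m + 1) = ∑ j, ∑ j', y j * y j' * (mu j * c j' ^ (m + 1)) := by
      rw [hP, hM, Finset.sum_mul_sum]
      refine Finset.sum_congr rfl fun j _ => Finset.sum_congr rfl fun j' _ => ?_
      ring
    have f5 : La * La = ∑ j, ∑ j', y j * y j' * (lam j * lam j') := by
      rw [hLa, Finset.sum_mul_sum]
      refine Finset.sum_congr rfl fun j _ => Finset.sum_congr rfl fun j' _ => ?_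
      ring
    have f6 : M * M = ∑ j, ∑ j', y j * y j' * (mu j * mu j') := by
      rw [hM, Finset.sum_mul_sum]
      refine Finset.sum_congr rfl fun j _ => Finset.sum_congr rfl fun j' _ => ?_
      ring
    have f7 : ∑ j, ∑ j', y j * y j' * (1 + c j * c j') ^ (m + 1)
        - 2 * La * P 0 - 2 * M * P (m + 1) + La ^ 2 + M ^ 2 =
        ∑ j, ∑ j', y j * y j' * (1 + c j * c j') ^ (m + 1)
        - P 0 * La - P (m + 1) * M - La * P 0 + La * La - M * P (m + 1) + M * M := by ring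
    rw [f7, f1, f2, f3, f4, f5, f6]
    simp only [← Finset.sum_sub_distrib, ← Finset.sum_add_distrib]
    refine Finset.sum_congr rfl fun j _ => Finset.sum_congr rfl fun j' _ => ?_
    ring
  rw [hsplit, h1, Finset.sum_range_succ, Finset.sum_range_succ']
  have h2 : ∑ s : Fin m, (∑ j : Fin m, y j * c j ^ ((s : ℕ) + 1)) ^ 2 ≤
      ∑ s ∈ Finset.range m, ((m + 1).choose (s + 1) : ℝ) * P (s + 1) ^ 2 := by
    rw [← Fin.sum_univ_eq_sum_range (fun s => ((m + 1).choose (s + 1) : ℝ) * P (s + 1) ^ 2)]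
    refine Finset.sum_le_sum fun s _ => ?_
    have h3 : (1 : ℝ) ≤ ((m + 1).choose ((s : ℕ) + 1) : ℝ) := by
      exact_mod_cast Nat.choose_pos (by omega)
    have h4 : (∑ j : Fin m, y j * c j ^ ((s : ℕ) + 1)) = P ((s : ℕ) + 1) := rfl
    rw [h4]
    nlinarith [sq_nonneg (P ((s : ℕ) + 1))]
  have h5 : ((m + 1).choose 0 : ℝ) = 1 := by simp
  have h6 : ((m + 1).choose (m + 1) : ℝ) = 1 := by simp
  rw [h5, h6]
  nlinarith [sq_nonneg (P 0 - La), sq_nonneg (P (m + 1) - M)]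

theorem inner_dvec (p : ℕ) (hp : 2 ≤ p) {n P m : ℕ} {u v : Fin P → E n}
    {f : Fin m → E n} (hu : Orthonormal ℝ u) (hv : Orthonormal ℝ v)
    (huv : ∀ a b, ⟪u a, v b⟫ = 0) (hf : Orthonormal ℝ f) (huf : ∀ a l, ⟪u a, f l⟫ = 0)
    (hvf : ∀ a l, ⟪v a, f l⟫ = 0) (a a' : Fin P) (l l' : Fin m) (j j' : Fin (2 * p - 2)) :
    ⟪dvec p (u a) (v a) (f l) j, dvec p (u a') (v a') (f l') j'⟫ =
      if a = a' ∧ l = l' then
        ((2 * p : ℕ) : ℝ) * ((1 + ((j : ℝ) + 1) * ((j' : ℝ) + 1)) ^ (2 * p - 2 + 1) -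
          (1 + ((j' : ℝ) + 1) ^ 2) ^ (p - 1) -
          ((1 + ((j' : ℝ) + 1) ^ 2) ^ (p - 1) * ((j' : ℝ) + 1)) *
            ((j : ℝ) + 1) ^ (2 * p - 2 + 1) -
          (1 + ((j : ℝ) + 1) ^ 2) ^ (p - 1) +
          (1 + ((j : ℝ) + 1) ^ 2) ^ (p - 1) * (1 + ((j' : ℝ) + 1) ^ 2) ^ (p - 1) -
          ((1 + ((j : ℝ) + 1) ^ 2) ^ (p - 1) * ((j : ℝ) + 1)) *
            ((j' : ℝ) + 1) ^ (2 * p - 2 + 1) +
          ((1 + ((j : ℝ) + 1) ^ 2) ^ (p - 1) * ((j : ℝ) + 1)) *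
            ((1 + ((j' : ℝ) + 1) ^ 2) ^ (p - 1) * ((j' : ℝ) + 1)))
      else 0 := by
  set cj : ℝ := (j : ℝ) + 1 with hcj
  set cj' : ℝ := (j' : ℝ) + 1 with hcj'
  have hq : 2 * p - 1 = 2 * p - 2 + 1 := by omega
  have hz : (0 : ℝ) ^ (2 * p - 2 + 1) = 0 := by rw [pow_succ]; ring
  have hfu : ∀ b k, ⟪f k, u b⟫ = 0 := fun b k => by rw [real_inner_comm]; exact huf b k
  have hfv : ∀ b k, ⟪f k, v b⟫ = 0 := fun b k => by rw [real_inner_comm]; exact hvf b k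
  have hvu : ∀ b k, ⟪v b, u k⟫ = 0 := fun b k => by rw [real_inner_comm]; exact huv k b
  have key : ∀ w w' : E n, ⟪f l, w'⟫ = 0 → ⟪slot (2 * p) w (f l), slot (2 * p) w' (f l')⟫ =
      ((2 * p : ℕ) : ℝ) * ⟪w, w'⟫ ^ (2 * p - 2 + 1) * ⟪f l, f l'⟫ := by
    intro w w' h
    rw [inner_slot w (f l) w' (f l') h, hq]
  have g1 : ⟪f l, u a' + cj' • v a'⟫ = 0 := by
    rw [inner_add_right, real_inner_smul_right, hfu, hfv]; ring
  unfold dvec
  rw [← hcj, ← hcj']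
  simp only [inner_sub_left, inner_sub_right, real_inner_smul_left, real_inner_smul_right]
  rw [key _ _ g1, key _ _ (hfu a' l), key _ _ (hfv a' l), key _ _ g1, key _ _ (hfu a' l),
    key _ _ (hfv a' l), key _ _ g1, key _ _ (hfu a' l), key _ _ (hfv a' l)]
  simp only [inner_add_left, inner_add_right, real_inner_smul_left, real_inner_smul_right,
    huv, hvu]
  have huu : ⟪u a, u a'⟫ = if a = a' then (1 : ℝ) else 0 := by
    rw [orthonormal_iff_ite.1 hu]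
  have hvv : ⟪v a, v a'⟫ = if a = a' then (1 : ℝ) else 0 := by
    rw [orthonormal_iff_ite.1 hv]
  have hff : ⟪f l, f l'⟫ = if l = l' then (1 : ℝ) else 0 := by
    rw [orthonormal_iff_ite.1 hf]
  rw [huu, hvv, hff]
  by_cases ha : a = a'
  · by_cases hl : l = l'
    · rw [if_pos ha, if_pos hl, if_pos ⟨ha, hl⟩]
      simp only [mul_zero, add_zero, zero_add, mul_one, one_pow, hz, sub_zero]
      ring
    · rw [if_neg hl, if_neg (show ¬ (a = a' ∧ l = l') from fun h => hl h.2)]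
      ring
  · rw [if_neg ha, if_neg (show ¬ (a = a' ∧ l = l') from fun h => ha h.1)]
    simp only [mul_zero, add_zero, hz]
    ring

end SmallRAux

open SmallRAux

theorem riesz_dvec (p : ℕ) (hp : 2 ≤ p) : ∃ c : ℝ, 0 < c ∧ ∀ (n P m : ℕ) (u v : Fin P → E n)
    (f : Fin m → E n), Orthonormal ℝ u → Orthonormal ℝ v → (∀ a b, ⟪u a, v b⟫ = 0) →
    Orthonormal ℝ f → (∀ a l, ⟪u a, f l⟫ = 0) → (∀ a l, ⟪v a, f l⟫ = 0) →
    ∀ x : Fin P × Fin (2 * p - 2) × Fin m → ℝ,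
      c * ∑ i, x i ^ 2 ≤ ‖∑ i, x i • dvec p (u i.1) (v i.1) (f i.2.2) i.2.1‖ ^ 2 := by
  obtain ⟨c, hc, hvand⟩ := vand (2 * p - 2)
  refine ⟨c, hc, fun n P m u v f hu hv huv hf huf hvf x => ?_⟩
  have hq1 : (1 : ℝ) ≤ ((2 * p : ℕ) : ℝ) := by exact_mod_cast (by omega : 1 ≤ 2 * p)
  set K : Fin (2 * p - 2) → Fin (2 * p - 2) → ℝ := fun j j' =>
    ((1 + ((j : ℝ) + 1) * ((j' : ℝ) + 1)) ^ (2 * p - 2 + 1) -
          (1 + ((j' : ℝ) + 1) ^ 2) ^ (p - 1) -
          ((1 + ((j' : ℝ) + 1) ^ 2) ^ (p - 1) * ((j' : ℝ) + 1)) *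
            ((j : ℝ) + 1) ^ (2 * p - 2 + 1) -
          (1 + ((j : ℝ) + 1) ^ 2) ^ (p - 1) +
          (1 + ((j : ℝ) + 1) ^ 2) ^ (p - 1) * (1 + ((j' : ℝ) + 1) ^ 2) ^ (p - 1) -
          ((1 + ((j : ℝ) + 1) ^ 2) ^ (p - 1) * ((j : ℝ) + 1)) *
            ((j' : ℝ) + 1) ^ (2 * p - 2 + 1) +
          ((1 + ((j : ℝ) + 1) ^ 2) ^ (p - 1) * ((j : ℝ) + 1)) *
            ((1 + ((j' : ℝ) + 1) ^ 2) ^ (p - 1) * ((j' : ℝ) + 1))) with hK
  have hin : ∀ i i' : Fin P × Fin (2 * p - 2) × Fin m,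
      ⟪dvec p (u i.1) (v i.1) (f i.2.2) i.2.1, dvec p (u i'.1) (v i'.1) (f i'.2.2) i'.2.1⟫ =
        if i.1 = i'.1 ∧ i.2.2 = i'.2.2 then ((2 * p : ℕ) : ℝ) * K i.2.1 i'.2.1 else 0 :=
    fun i i' => inner_dvec p hp hu hv huv hf huf hvf _ _ _ _ _ _
  have hnorm : ‖∑ i, x i • dvec p (u i.1) (v i.1) (f i.2.2) i.2.1‖ ^ 2 =
      ∑ a, ∑ l, ((2 * p : ℕ) : ℝ) * ∑ j, ∑ j', x (a, j, l) * x (a, j', l) * K j j' := by
    rw [← real_inner_self_eq_norm_sq, sum_inner]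
    have e1 : ∀ i : Fin P × Fin (2 * p - 2) × Fin m,
        ⟪x i • dvec p (u i.1) (v i.1) (f i.2.2) i.2.1,
          ∑ i', x i' • dvec p (u i'.1) (v i'.1) (f i'.2.2) i'.2.1⟫ =
        ∑ j', ((2 * p : ℕ) : ℝ) * (x i * x (i.1, j', i.2.2) * K i.2.1 j') := by
      intro i
      rw [inner_sum, Fintype.sum_prod_type]
      rw [Finset.sum_eq_single i.1]
      · rw [Fintype.sum_prod_type]
        refine Finset.sum_congr rfl fun j' _ => ?_
        rw [Finset.sum_eq_single i.2.2]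
        · rw [real_inner_smul_left, real_inner_smul_right, hin, if_pos ⟨rfl, rfl⟩]
          ring
        · intro l _ hl
          rw [real_inner_smul_left, real_inner_smul_right, hin,
            if_neg (fun h => hl h.2.symm)]
          ring
        · intro h
          exact absurd (Finset.mem_univ _) h
      · intro a _ ha
        refine Finset.sum_eq_zero fun jl _ => ?_
        rw [real_inner_smul_left, real_inner_smul_right, hin, if_neg (fun h => ha h.1.symm)]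
        ring
      · intro h
        exact absurd (Finset.mem_univ _) h
    rw [Finset.sum_congr rfl fun i _ => e1 i, Fintype.sum_prod_type]
    refine Finset.sum_congr rfl fun a _ => ?_
    rw [Fintype.sum_prod_type, Finset.sum_comm]
    refine Finset.sum_congr rfl fun l _ => ?_
    rw [Finset.mul_sum]
    refine Finset.sum_congr rfl fun j _ => ?_
    rw [Finset.mul_sum]
  rw [hnorm, Fintype.sum_prod_type, Finset.mul_sum]
  refine Finset.sum_le_sum fun a _ => ?_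
  rw [Fintype.sum_prod_type, Finset.sum_comm, Finset.mul_sum]
  refine Finset.sum_le_sum fun l _ => ?_
  have h1 := hvand (fun j => x (a, j, l))
  have h2 := quad (2 * p - 2) (fun j => (j : ℝ) + 1)
    (fun j => (1 + ((j : ℝ) + 1) ^ 2) ^ (p - 1))
    (fun j => (1 + ((j : ℝ) + 1) ^ 2) ^ (p - 1) * ((j : ℝ) + 1)) (fun j => x (a, j, l))
  have h3 : 0 ≤ c * ∑ j, x (a, j, l) ^ 2 :=
    mul_nonneg hc.le (Finset.sum_nonneg fun j _ => sq_nonneg _)
  have h4 : c * ∑ j, x (a, j, l) ^ 2 ≤ ∑ j, ∑ j', x (a, j, l) * x (a, j', l) * K j j' :=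
    h1.trans h2
  calc c * ∑ j, x (a, j, l) ^ 2 ≤ 1 * ∑ j, ∑ j', x (a, j, l) * x (a, j', l) * K j j' := by
        rw [one_mul]; exact h4
    _ ≤ _ := mul_le_mul_of_nonneg_right hq1 (h3.trans h4)

end Pool.Agent.EFP
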