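import Pool.Agent.Lib.EFP.XInner
import Pool.Agent.Lib.EFP.Cap
import Pool.Agent.Lib.P06184b.Pack

set_option autoImplicit false

/-!
# EFP.SupB: most tensors of the ball of radius `n^((q-1)/2)` have a bounded form

PROOF. Let `q ≥ 1`, choose `u ≥ 1` with `u^2 / 2 ≥ q * log (1 + 4 q) + log 8` and `C = 2 u`.
Let `S` be the unit ball `{x : E n | ‖x‖ ≤ 1}` and `Y` a `1/(2q)`-net of `S` in `S`
(`P06184b.exists_net`), `card Y ≤ (1 + 4 q)^n` (`finrank (E n) = n`).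

(1) If `|T t y| ≤ u` for all `y : Fin q → E n` with values in `Y`, then `|T t x| ≤ 2 u` for all `x`
with `‖x j‖ ≤ 1`, hence `Bdd (2u) t` by homogeneity (if some `x j = 0` both sides vanish; otherwise
scale each slot: `TM t` is multilinear, `MultilinearMap.map_smul_univ`).
Indeed let `B` be the supremum of `|T t x|` over `‖x j‖ ≤ 1` (finite, `≤ ‖t‖` by `abs_T_le`); pick
`y j ∈ Y` with `‖x j - y j‖ ≤ 1/(2q)`. Changing the slots one after the other,
`|T t x - T t y| ≤ q * B * (1/(2q)) = B/2` (each difference is a value of the form at vectors of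
norm `≤ 1` except one of norm `≤ 1/(2q)`; or use `MultilinearMap.norm_image_sub_le_of_bound`). So
`|T t x| ≤ u + B/2`, and the supremum gives `B ≤ u + B/2`, `B ≤ 2u`.

(2) So a tensor `t` with `‖t‖ ≤ R` and not `Bdd (2u) t` has `|T t y| > u` for some `y` with values
in `Y`; then all `y j ≠ 0`, `‖X y‖ ≤ 1`, so with `v = X y / ‖X y‖` we get `⟪t, v⟫ ≥ u` or
`⟪t, -v⟫ ≥ u`. There are `(card Y)^q ≤ (1+4q)^(q n)` such `y`, and by `cap` (with
`finrank (V q n) = n^q` and `R^2 n = n^q`, so the exponent is `u^2 n / 2`) each of the two sets has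
measure at most `exp (-u^2 n/2)` times that of the ball. The total factor is
`2 (1+4q)^(qn) exp (-u^2 n/2) ≤ 2 exp (n (q log (1+4q) - u^2/2)) ≤ 2 exp (-n log 8) ≤ 1/4`.
-/

namespace Pool.Agent.EFP

open MeasureTheory Metric
open scoped RealInnerProductSpace

namespace SupBAux

variable {q n : ℕ}

/-- Homogeneity: a bound on unit balls gives a bound everywhere. -/
theorem bdd_of_unit {B : ℝ} (t : V q n)
    (h : ∀ x : Fin q → E n, (∀ j, ‖x j‖ ≤ 1) → |T t x| ≤ B) :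
    ∀ m : Fin q → E n, |T t m| ≤ B * ∏ j, ‖m j‖ := by
  intro m
  by_cases hm : ∃ j, m j = 0
  · obtain ⟨j, hj⟩ := hm
    have h0 : T t m = 0 := by
      rw [← TM_apply]
      exact (TM t).map_coord_zero j hj
    have h1 : ∏ j, ‖m j‖ = 0 := Finset.prod_eq_zero (Finset.mem_univ j) (by rw [hj, norm_zero])
    rw [h0, h1, mul_zero, abs_zero]
  · push Not at hm
    set x : Fin q → E n := fun j => (‖m j‖)⁻¹ • m j with hx
    have hx1 : ∀ j, ‖x j‖ ≤ 1 := by
      intro j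
      have : ‖m j‖ ≠ 0 := norm_ne_zero_iff.2 (hm j)
      rw [hx]
      simp only
      rw [norm_smul, norm_inv, norm_norm, inv_mul_cancel₀ this]
    have hmx : m = fun j => ‖m j‖ • x j := by
      funext j
      have : ‖m j‖ ≠ 0 := norm_ne_zero_iff.2 (hm j)
      rw [hx]
      simp only
      rw [smul_smul, mul_inv_cancel₀ this, one_smul]
    have h2 : T t m = (∏ j, ‖m j‖) * T t x := by
      have := (TM t).map_smul_univ (fun j => ‖m j‖) x
      rw [← hmx, TM_apply, TM_apply, smul_eq_mul] at this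
      exact this
    have hp : 0 ≤ ∏ j, ‖m j‖ := Finset.prod_nonneg fun j _ => norm_nonneg _
    rw [h2, abs_mul, abs_of_nonneg hp, mul_comm]
    exact mul_le_mul_of_nonneg_right (h x hx1) hp

theorem net_bdd (hq : 1 ≤ q) (t : V q n) (Y : Finset (E n)) (hY : ∀ y ∈ Y, ‖y‖ ≤ 1)
    (hnet : ∀ x : E n, ‖x‖ ≤ 1 → ∃ y ∈ Y, ‖x - y‖ ≤ 1 / (2 * q)) (u : ℝ)
    (hu : ∀ y : Fin q → E n, (∀ j, y j ∈ Y) → |T t y| ≤ u) : Bdd (2 * u) t := by
  set A : Set ℝ := {r | ∃ x : Fin q → E n, (∀ j, ‖x j‖ ≤ 1) ∧ r = |T t x|} with hA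
  have hA0 : A.Nonempty := ⟨|T t 0|, 0, fun j => by simp, rfl⟩
  have hAb : BddAbove A := by
    refine ⟨‖t‖, ?_⟩
    rintro r ⟨x, hx, rfl⟩
    refine (abs_T_le t x).trans ?_
    have : ∏ j, ‖x j‖ ≤ 1 := Finset.prod_le_one (fun j _ => norm_nonneg _) (fun j _ => hx j)
    nlinarith [norm_nonneg t]
  set B : ℝ := sSup A with hB
  have hBle : ∀ x : Fin q → E n, (∀ j, ‖x j‖ ≤ 1) → |T t x| ≤ B :=
    fun x hx => le_csSup hAb ⟨x, hx, rfl⟩
  have hB0 : 0 ≤ B := (abs_nonneg _).trans (hBle 0 (fun j => by simp))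
  have hbd := bdd_of_unit t hBle
  have hstep : ∀ x : Fin q → E n, (∀ j, ‖x j‖ ≤ 1) → |T t x| ≤ u + B / 2 := by
    intro x hx
    choose y hyY hxy using fun j => hnet (x j) (hx j)
    have h1 := hu y hyY
    have h2 := (TM t).norm_image_sub_le_of_bound hB0 (fun m => by
      rw [TM_apply, Real.norm_eq_abs]; exact hbd m) x y
    rw [TM_apply, TM_apply, Real.norm_eq_abs, Fintype.card_fin] at h2
    have hxn : ‖x‖ ≤ 1 := (pi_norm_le_iff_of_nonneg zero_le_one).2 hx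
    have hyn : ‖y‖ ≤ 1 := (pi_norm_le_iff_of_nonneg zero_le_one).2 (fun j => hY _ (hyY j))
    have hmax : max ‖x‖ ‖y‖ ^ (q - 1) ≤ 1 :=
      pow_le_one₀ (le_max_of_le_left (norm_nonneg _)) (max_le hxn hyn)
    have hd : ‖x - y‖ ≤ 1 / (2 * q) :=
      (pi_norm_le_iff_of_nonneg (by positivity)).2 (fun j => by
        rw [Pi.sub_apply]; exact hxy j)
    have hq' : (0 : ℝ) < q := by exact_mod_cast hq
    have h3 : B * q * max ‖x‖ ‖y‖ ^ (q - 1) * ‖x - y‖ ≤ B * q * 1 * (1 / (2 * q)) := by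
      have hBq : 0 ≤ B * q := by positivity
      have hm0 : 0 ≤ max ‖x‖ ‖y‖ ^ (q - 1) := by positivity
      exact mul_le_mul (mul_le_mul_of_nonneg_left hmax hBq) hd (norm_nonneg _) (by positivity)
    have h4 : B * q * 1 * (1 / (2 * q)) = B / 2 := by
      field_simp
    have h5 : |T t x| ≤ |T t y| + |T t x - T t y| := by
      have := abs_add_le (T t y) (T t x - T t y)
      rwa [add_sub_cancel] at this
    linarith
  have hBu : B ≤ u + B / 2 := by
    apply csSup_le hA0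
    rintro r ⟨x, hx, rfl⟩
    exact hstep x hx
  intro x
  refine (hbd x).trans ?_
  have hp : 0 ≤ ∏ j, ‖x j‖ := Finset.prod_nonneg fun j _ => norm_nonneg _
  exact mul_le_mul_of_nonneg_right (by linarith) hp

theorem one_y (hn : 1 ≤ n) {R u : ℝ} (hR : 0 < R) (hRn : R ^ 2 * n = (n : ℝ) ^ q) (hu : 1 ≤ u)
    (y : Fin q → E n) (hy : ∀ j, ‖y j‖ ≤ 1) :
    volume {t : V q n | ‖t‖ ≤ R ∧ u < |T t y|} ≤
      ENNReal.ofReal (2 * Real.exp (-(u ^ 2 * n / 2))) * volume (closedBall (0 : V q n) R) := by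
  by_cases hX : X y = 0
  · have : {t : V q n | ‖t‖ ≤ R ∧ u < |T t y|} = ∅ := by
      ext t
      simp only [Set.mem_setOf_eq, Set.mem_empty_iff_false, iff_false, not_and, not_lt]
      intro _
      rw [T, hX, inner_zero_right, abs_zero]
      linarith
    rw [this, measure_empty]
    exact zero_le'
  · have hXn : 0 < ‖X y‖ := norm_pos_iff.2 hX
    have hX1 : ‖X y‖ ≤ 1 := by
      rw [norm_X]
      exact Finset.prod_le_one (fun j _ => norm_nonneg _) (fun j _ => hy j)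
    set v : V q n := ‖X y‖⁻¹ • X y with hv
    have hv1 : ‖v‖ = 1 := by
      rw [hv, norm_smul, norm_inv, norm_norm, inv_mul_cancel₀ hXn.ne']
    have hv2 : ‖-v‖ = 1 := by rw [norm_neg, hv1]
    have hsub : {t : V q n | ‖t‖ ≤ R ∧ u < |T t y|} ⊆
        {t | ‖t‖ ≤ R ∧ u ≤ ⟪t, v⟫} ∪ {t | ‖t‖ ≤ R ∧ u ≤ ⟪t, -v⟫} := by
      rintro t ⟨h1, h2⟩
      have h3 : T t y = ‖X y‖ * ⟪t, v⟫ := by
        rw [hv, real_inner_smul_right, ← mul_assoc, mul_inv_cancel₀ hXn.ne', one_mul, T]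
      have h4 : |T t y| ≤ |⟪t, v⟫| := by
        rw [h3, abs_mul, abs_of_pos hXn]
        exact mul_le_of_le_one_left (abs_nonneg _) hX1
      have h5 : u ≤ |⟪t, v⟫| := h2.le.trans h4
      rcases le_abs.1 h5 with h6 | h6
      · exact Or.inl ⟨h1, h6⟩
      · right
        refine ⟨h1, ?_⟩
        rw [inner_neg_right]
        exact h6
    have hu0 : 0 ≤ u := by linarith
    have hc1 := cap (volume : Measure (V q n)) v hv1 hR hu0
    have hc2 := cap (volume : Measure (V q n)) (-v) hv2 hR hu0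
    have hfr : (Module.finrank ℝ (V q n) : ℝ) = (n : ℝ) ^ q := by
      rw [finrank_euclideanSpace, Fintype.card_fun, Fintype.card_fin, Fintype.card_fin]
      push_cast
      rfl
    have hn' : (0 : ℝ) < n := by exact_mod_cast hn
    have hexp : u ^ 2 * Module.finrank ℝ (V q n) / (2 * R ^ 2) = u ^ 2 * n / 2 := by
      rw [hfr, ← hRn]
      have : R ^ 2 ≠ 0 := by positivity
      field_simp
    rw [hexp] at hc1 hc2
    calc volume {t : V q n | ‖t‖ ≤ R ∧ u < |T t y|}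
        ≤ volume ({t | ‖t‖ ≤ R ∧ u ≤ ⟪t, v⟫} ∪ {t : V q n | ‖t‖ ≤ R ∧ u ≤ ⟪t, -v⟫}) :=
          measure_mono hsub
      _ ≤ volume {t : V q n | ‖t‖ ≤ R ∧ u ≤ ⟪t, v⟫} +
          volume {t : V q n | ‖t‖ ≤ R ∧ u ≤ ⟪t, -v⟫} := measure_union_le _ _
      _ ≤ ENNReal.ofReal (Real.exp (-(u ^ 2 * n / 2))) * volume (closedBall (0 : V q n) R) +
          ENNReal.ofReal (Real.exp (-(u ^ 2 * n / 2))) * volume (closedBall (0 : V q n) R) :=
          add_le_add hc1 hc2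
      _ = ENNReal.ofReal (2 * Real.exp (-(u ^ 2 * n / 2))) *
          volume (closedBall (0 : V q n) R) := by
          rw [← add_mul, ← ENNReal.ofReal_add (Real.exp_pos _).le (Real.exp_pos _).le, two_mul]

theorem numeric (q n : ℕ) (hn : 1 ≤ n) (c u : ℝ) (hc0 : 0 ≤ c)
    (hc : c ≤ (1 + 4 * (q : ℝ)) ^ n)
    (hu : 2 * (q * Real.log (1 + 4 * q) + Real.log 8) ≤ u ^ 2) :
    c ^ q * (2 * Real.exp (-(u ^ 2 * n / 2))) ≤ 1 / 4 := by
  have hb : (0 : ℝ) < 1 + 4 * q := by positivity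
  have h1 : c ^ q ≤ Real.exp (n * (q * Real.log (1 + 4 * q))) := by
    calc c ^ q ≤ ((1 + 4 * (q : ℝ)) ^ n) ^ q := pow_le_pow_left₀ hc0 hc q
      _ = (1 + 4 * (q : ℝ)) ^ (n * q) := by rw [← pow_mul]
      _ = Real.exp (n * (q * Real.log (1 + 4 * q))) := by
        rw [← Real.exp_log (pow_pos hb (n * q)), Real.log_pow]
        push_cast
        ring_nf
  have h2 : c ^ q * (2 * Real.exp (-(u ^ 2 * n / 2))) ≤
      Real.exp (n * (q * Real.log (1 + 4 * q))) * (2 * Real.exp (-(u ^ 2 * n / 2))) :=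
    mul_le_mul_of_nonneg_right h1 (by positivity)
  refine h2.trans ?_
  have h3 : Real.exp (n * (q * Real.log (1 + 4 * q))) * (2 * Real.exp (-(u ^ 2 * n / 2))) =
      2 * Real.exp (n * (q * Real.log (1 + 4 * q)) + -(u ^ 2 * n / 2)) := by
    rw [Real.exp_add]; ring
  rw [h3]
  have hn' : (1 : ℝ) ≤ n := by exact_mod_cast hn
  have hl : 0 ≤ Real.log 8 := Real.log_nonneg (by norm_num)
  have h4 : n * (q * Real.log (1 + 4 * q)) + -(u ^ 2 * n / 2) ≤ - Real.log 8 := by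
    have h5 : (n : ℝ) * (2 * (q * Real.log (1 + 4 * q) + Real.log 8)) ≤ n * u ^ 2 :=
      mul_le_mul_of_nonneg_left hu (by linarith)
    have h6 : Real.log 8 ≤ n * Real.log 8 := by nlinarith
    nlinarith
  have h7 : Real.exp (n * (q * Real.log (1 + 4 * q)) + -(u ^ 2 * n / 2)) ≤ 1 / 8 := by
    refine (Real.exp_le_exp.2 h4).trans ?_
    rw [Real.exp_neg, Real.exp_log (by norm_num)]
    norm_num
  linarith

end SupBAux

open SupBAux

theorem supB (q : ℕ) (hq : 1 ≤ q) : ∃ C : ℝ, 1 ≤ C ∧ ∀ n : ℕ, 1 ≤ n → ∀ R : ℝ, 0 < R →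
    R ^ 2 * n = (n : ℝ) ^ q →
    volume {t : V q n | ‖t‖ ≤ R ∧ ¬ Bdd C t} ≤
      ENNReal.ofReal (1 / 4) * volume (closedBall (0 : V q n) R) := by
  set M : ℝ := q * Real.log (1 + 4 * q) + Real.log 8 with hM
  have hM0 : 0 ≤ M := by
    have h1 : 0 ≤ Real.log (1 + 4 * (q : ℝ)) :=
      Real.log_nonneg (by have : (0 : ℝ) ≤ q := Nat.cast_nonneg q; linarith)
    have h2 : 0 ≤ Real.log 8 := Real.log_nonneg (by norm_num)
    positivity
  set u : ℝ := 1 + √(2 * M) with hu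
  have hs0 : 0 ≤ √(2 * M) := Real.sqrt_nonneg _
  have hu1 : 1 ≤ u := by linarith
  have hu2 : 2 * M ≤ u ^ 2 := by
    have : √(2 * M) ^ 2 = 2 * M := Real.sq_sqrt (by linarith)
    nlinarith
  refine ⟨2 * u, by linarith, ?_⟩
  intro n hn R hR hRn
  have hq' : (0 : ℝ) < q := by exact_mod_cast hq
  obtain ⟨Y, hY1, hY2, hY3⟩ := P06184b.exists_net {x : E n | ‖x‖ ≤ 1} (fun x hx => hx)
    (1 / (2 * (q : ℝ))) (by positivity)
  have hYn : ∀ y ∈ Y, ‖y‖ ≤ 1 := fun y hy => hY1 hy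
  have hcard : (Y.card : ℝ) ≤ (1 + 4 * (q : ℝ)) ^ n := by
    have h1 : Module.finrank ℝ (E n) = n := by
      rw [finrank_euclideanSpace, Fintype.card_fin]
    rw [h1] at hY2
    have h2 : 1 + 2 / (1 / (2 * (q : ℝ))) = 1 + 4 * (q : ℝ) := by
      field_simp
      ring
    rwa [h2] at hY2
  set F : Finset (Fin q → E n) := Fintype.piFinset (fun _ : Fin q => Y) with hF
  have hFcard : (F.card : ℝ) = (Y.card : ℝ) ^ q := by
    rw [hF, Fintype.card_piFinset, Finset.prod_const, Finset.card_univ, Fintype.card_fin]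
    push_cast
    rfl
  have hsub : {t : V q n | ‖t‖ ≤ R ∧ ¬ Bdd (2 * u) t} ⊆
      ⋃ y ∈ F, {t : V q n | ‖t‖ ≤ R ∧ u < |T t y|} := by
    rintro t ⟨h1, h2⟩
    by_contra hcon
    apply h2
    refine net_bdd hq t Y hYn (fun x hx => hY3 x hx) u ?_
    intro y hy
    by_contra h3
    apply hcon
    rw [Set.mem_iUnion₂]
    exact ⟨y, Fintype.mem_piFinset.2 hy, h1, not_le.1 h3⟩
  calc volume {t : V q n | ‖t‖ ≤ R ∧ ¬ Bdd (2 * u) t}
      ≤ volume (⋃ y ∈ F, {t : V q n | ‖t‖ ≤ R ∧ u < |T t y|}) := measure_mono hsub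
    _ ≤ ∑ y ∈ F, volume {t : V q n | ‖t‖ ≤ R ∧ u < |T t y|} := measure_biUnion_finset_le _ _
    _ ≤ ∑ _y ∈ F, ENNReal.ofReal (2 * Real.exp (-(u ^ 2 * n / 2))) *
        volume (closedBall (0 : V q n) R) := by
        refine Finset.sum_le_sum fun y hy => ?_
        exact one_y hn hR hRn hu1 y (fun j => hYn _ (Fintype.mem_piFinset.1 hy j))
    _ = ENNReal.ofReal ((Y.card : ℝ) ^ q * (2 * Real.exp (-(u ^ 2 * n / 2)))) *
        volume (closedBall (0 : V q n) R) := by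
        rw [Finset.sum_const, nsmul_eq_mul, ← mul_assoc, ← hFcard,
          ENNReal.ofReal_mul (Nat.cast_nonneg _), ENNReal.ofReal_natCast]
    _ ≤ ENNReal.ofReal (1 / 4) * volume (closedBall (0 : V q n) R) := by
        refine mul_le_mul_left ?_ _
        exact ENNReal.ofReal_le_ofReal (numeric q n hn _ u (Nat.cast_nonneg _) hcard hu2)

end Pool.Agent.EFP
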