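import Pool.Agent.Lib.EFP.XInner

set_option autoImplicit false

/-!
# EFP.Taylor: second order Taylor estimate for the form `x ↦ T t (x, ..., x)`

PROOF. By `MultilinearMap.map_add_univ` (applied to `TM t`),
`T t (fun _ => x + v) = ∑ A : Finset (Fin q), T t (fun j => if j ∈ A then x else v)` (in Mathlib the
summand is `T t (A.piecewise (fun _ => x) (fun _ => v))`). The term `A = univ` is
`T t (fun _ => x)`, the terms `A = univ.erase j` sum to `G t x v` (`G_eq_sum`;
`(univ.erase j).piecewise (fun _ => x) (fun _ => v) = Function.update (fun _ => x) j v`). Every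
other `A` has a complement with `m = card Aᶜ ≥ 2` elements and its term is at most
`‖x‖^(q-m) ‖v‖^m` in absolute value (`Bdd 1 t`), which is
`≤ (‖x‖ + ‖v‖)^(q-m) ‖v‖^2 (‖x‖ + ‖v‖)^(m-2) = (‖x‖+‖v‖)^(q-2) ‖v‖^2`.
There are at most `2^q` sets `A`. (For `q < 2` there are no such `A`; the claim is then also
true: the left side is `0`.)
-/

namespace Pool.Agent.EFP

open scoped RealInnerProductSpace

namespace TaylorAux

theorem bound {q n : ℕ} {t : V q n} (hB : Bdd 1 t) (x v : E n) (s : Finset (Fin q))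
    (hs : 2 ≤ s.card) :
    |TM t (s.piecewise (fun _ => v) (fun _ => x))| ≤ (‖x‖ + ‖v‖) ^ (q - 2) * ‖v‖ ^ 2 := by
  obtain ⟨a, ha, b, hb, hab⟩ := Finset.one_lt_card.1 (lt_of_lt_of_le one_lt_two hs)
  have h1 : |TM t (s.piecewise (fun _ => v) (fun _ => x))| ≤
      ∏ j, ‖(s.piecewise (fun _ => v) (fun _ => x) : Fin q → E n) j‖ := by
    have := hB (s.piecewise (fun _ => v) (fun _ => x))
    rw [one_mul] at this
    exact this
  refine h1.trans ?_
  have hb' : b ∈ Finset.univ.erase a := Finset.mem_erase.2 ⟨hab.symm, Finset.mem_univ b⟩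
  rw [← Finset.mul_prod_erase Finset.univ _ (Finset.mem_univ a),
    ← Finset.mul_prod_erase _ _ hb', Finset.piecewise_eq_of_mem _ _ _ ha,
    Finset.piecewise_eq_of_mem _ _ _ hb]
  have hcard : ((Finset.univ.erase a).erase b).card = q - 2 := by
    rw [Finset.card_erase_of_mem hb', Finset.card_erase_of_mem (Finset.mem_univ a),
      Finset.card_univ, Fintype.card_fin]
    omega
  have h2 : ∏ j ∈ (Finset.univ.erase a).erase b,
      ‖(s.piecewise (fun _ => v) (fun _ => x) : Fin q → E n) j‖ ≤ (‖x‖ + ‖v‖) ^ (q - 2) := by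
    rw [← hcard, ← Finset.prod_const]
    refine Finset.prod_le_prod (fun j _ => norm_nonneg _) (fun j _ => ?_)
    by_cases hj : j ∈ s
    · rw [Finset.piecewise_eq_of_mem _ _ _ hj]
      linarith [norm_nonneg x]
    · rw [Finset.piecewise_eq_of_notMem _ _ _ hj]
      linarith [norm_nonneg v]
  calc ‖v‖ * (‖v‖ * ∏ j ∈ (Finset.univ.erase a).erase b,
      ‖(s.piecewise (fun _ => v) (fun _ => x) : Fin q → E n) j‖)
      ≤ ‖v‖ * (‖v‖ * (‖x‖ + ‖v‖) ^ (q - 2)) :=
        mul_le_mul_of_nonneg_left (mul_le_mul_of_nonneg_left h2 (norm_nonneg _)) (norm_nonneg _)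
    _ = (‖x‖ + ‖v‖) ^ (q - 2) * ‖v‖ ^ 2 := by ring

theorem small_sets (q : ℕ) : (Finset.univ.filter (fun s : Finset (Fin q) => ¬ 2 ≤ s.card)) =
    insert ∅ (Finset.univ.image (fun j : Fin q => ({j} : Finset (Fin q)))) := by
  ext s
  simp only [Finset.mem_filter, Finset.mem_univ, true_and, Finset.mem_insert, Finset.mem_image]
  constructor
  · intro h
    have h1 : s.card = 0 ∨ s.card = 1 := by omega
    rcases h1 with h1 | h1
    · exact Or.inl (Finset.card_eq_zero.1 h1)
    · obtain ⟨j, hj⟩ := Finset.card_eq_one.1 h1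
      exact Or.inr ⟨j, hj.symm⟩
  · rintro (h | ⟨j, hj⟩)
    · rw [h]; simp
    · rw [← hj]; simp

theorem expand {q n : ℕ} (t : V q n) (x v : E n) :
    T t (fun _ => x + v) = T t (fun _ => x) + G t x v +
      ∑ s ∈ Finset.univ.filter (fun s : Finset (Fin q) => 2 ≤ s.card),
        TM t (s.piecewise (fun _ => v) (fun _ => x)) := by
  have h0 : T t (fun _ => x + v) = ∑ s : Finset (Fin q),
      TM t (s.piecewise (fun _ => v) (fun _ => x)) := by
    rw [← MultilinearMap.map_add_univ, TM_apply]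
    congr 1
    funext j
    exact add_comm _ _
  rw [h0, ← Finset.sum_filter_add_sum_filter_not Finset.univ
    (fun s : Finset (Fin q) => 2 ≤ s.card), small_sets, Finset.sum_insert, Finset.sum_image]
  · have h1 : TM t ((∅ : Finset (Fin q)).piecewise (fun _ => v) (fun _ => x))
        = T t (fun _ => x) := by
      rw [Finset.piecewise_empty, TM_apply]
    have h2 : ∑ j : Fin q, TM t (({j} : Finset (Fin q)).piecewise (fun _ => v) (fun _ => x))
        = G t x v := by
      rw [G_eq_sum]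
      refine Finset.sum_congr rfl fun j _ => ?_
      rw [Finset.piecewise_singleton, TM_apply]
    rw [h1, h2]
    ring
  · intro a _ b _ hab
    exact Finset.singleton_injective hab
  · simp

end TaylorAux

theorem taylor {q n : ℕ} {t : V q n} (hB : Bdd 1 t) (x v : E n) :
    |T t (fun _ => x + v) - T t (fun _ => x) - G t x v| ≤
      2 ^ q * ((‖x‖ + ‖v‖) ^ (q - 2) * ‖v‖ ^ 2) := by
  rw [TaylorAux.expand t x v]
  have h : T t (fun _ => x) + G t x v +
      ∑ s ∈ Finset.univ.filter (fun s : Finset (Fin q) => 2 ≤ s.card),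
        TM t (s.piecewise (fun _ => v) (fun _ => x)) - T t (fun _ => x) - G t x v =
      ∑ s ∈ Finset.univ.filter (fun s : Finset (Fin q) => 2 ≤ s.card),
        TM t (s.piecewise (fun _ => v) (fun _ => x)) := by ring
  rw [h]
  refine (Finset.abs_sum_le_sum_abs _ _).trans ?_
  have hnn : 0 ≤ (‖x‖ + ‖v‖) ^ (q - 2) * ‖v‖ ^ 2 := by positivity
  refine (Finset.sum_le_card_nsmul _ _ ((‖x‖ + ‖v‖) ^ (q - 2) * ‖v‖ ^ 2) (fun s hs =>
    TaylorAux.bound hB x v s (Finset.mem_filter.1 hs).2)).trans ?_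
  rw [nsmul_eq_mul]
  refine mul_le_mul_of_nonneg_right ?_ hnn
  have h3 : (Finset.univ.filter (fun s : Finset (Fin q) => 2 ≤ s.card)).card ≤ 2 ^ q := by
    refine (Finset.card_filter_le _ _).trans ?_
    rw [Finset.card_univ, Fintype.card_finset, Fintype.card_fin]
  exact_mod_cast h3

end Pool.Agent.EFP
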