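import Pool.Agent.Lib.EFP.Defs

set_option autoImplicit false

/-!
# EFP.XInner: basic algebra of elementary tensors and of the slot form
-/

namespace Pool.Agent.EFP

open scoped RealInnerProductSpace

variable {q n : ℕ}

theorem inner_X (x y : Fin q → E n) : ⟪X x, X y⟫ = ∏ j, ⟪x j, y j⟫ := by
  simp only [X, PiLp.inner_apply, RCLike.inner_apply, conj_trivial]
  rw [Finset.prod_univ_sum]
  rw [Fintype.piFinset_univ]
  refine Finset.sum_congr rfl fun i _ => ?_
  rw [← Finset.prod_mul_distrib]

theorem norm_X (x : Fin q → E n) : ‖X x‖ = ∏ j, ‖x j‖ := by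
  have h : ‖X x‖ ^ 2 = (∏ j, ‖x j‖) ^ 2 := by
    rw [← real_inner_self_eq_norm_sq, inner_X, ← Finset.prod_pow]
    exact Finset.prod_congr rfl fun j _ => real_inner_self_eq_norm_sq _
  exact (pow_left_inj₀ (norm_nonneg _) (Finset.prod_nonneg fun j _ => norm_nonneg _)
    two_ne_zero).1 h

theorem X_update_apply (m : Fin q → E n) (i : Fin q) (z : E n) (k : Fin q → Fin n) :
    (X (Function.update m i z)) k = z (k i) * ∏ j ∈ Finset.univ.erase i, (m j) (k j) := by
  simp only [X]
  rw [← Finset.mul_prod_erase Finset.univ _ (Finset.mem_univ i), Function.update_self]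
  congr 1
  refine Finset.prod_congr rfl fun j hj => ?_
  rw [Function.update_of_ne (Finset.ne_of_mem_erase hj)]

/-- The elementary tensor as a multilinear map. -/
noncomputable def XM (q n : ℕ) : MultilinearMap ℝ (fun _ : Fin q => E n) (V q n) where
  toFun := X
  map_update_add' := by
    intro inst m i x y
    obtain rfl : inst = instDecidableEqFin q := Subsingleton.elim _ _
    ext k
    rw [PiLp.add_apply, X_update_apply, X_update_apply, X_update_apply, PiLp.add_apply, add_mul]
  map_update_smul' := by
    intro inst m i c x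
    obtain rfl : inst = instDecidableEqFin q := Subsingleton.elim _ _
    ext k
    rw [PiLp.smul_apply, X_update_apply, X_update_apply, PiLp.smul_apply, smul_eq_mul,
      smul_eq_mul, mul_assoc]

@[simp] theorem XM_apply (x : Fin q → E n) : XM q n x = X x := rfl

/-- The form of a tensor as a multilinear map. -/
noncomputable def TM (t : V q n) : MultilinearMap ℝ (fun _ : Fin q => E n) ℝ :=
  (innerSL ℝ t).toLinearMap.compMultilinearMap (XM q n)

@[simp] theorem TM_apply (t : V q n) (x : Fin q → E n) : TM t x = T t x := rfl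

theorem abs_T_le (t : V q n) (x : Fin q → E n) : |T t x| ≤ ‖t‖ * ∏ j, ‖x j‖ := by
  rw [T, ← norm_X]
  exact abs_real_inner_le_norm _ _

theorem T_smul_tensor (a : ℝ) (t : V q n) (x : Fin q → E n) : T (a • t) x = a * T t x := by
  rw [T, T, real_inner_smul_left]

theorem G_smul_tensor (a : ℝ) (t : V q n) (v f : E n) : G (a • t) v f = a * G t v f := by
  rw [G, G, real_inner_smul_left]

theorem slot_add (v f g : E n) : slot q v (f + g) = slot q v f + slot q v g := by
  rw [slot, slot, slot, ← Finset.sum_add_distrib]
  exact Finset.sum_congr rfl fun j _ => (XM q n).map_update_add _ _ _ _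

theorem slot_smul (v f : E n) (a : ℝ) : slot q v (a • f) = a • slot q v f := by
  rw [slot, slot, Finset.smul_sum]
  exact Finset.sum_congr rfl fun j _ => (XM q n).map_update_smul _ _ _ _

theorem slot_zero (v : E n) : slot q v 0 = 0 := by
  have := slot_smul (q := q) v 0 (0 : ℝ)
  simpa using this

theorem slot_sum {ι : Type*} (s : Finset ι) (v : E n) (f : ι → E n) :
    slot q v (∑ i ∈ s, f i) = ∑ i ∈ s, slot q v (f i) := by
  classical
  induction s using Finset.induction_on with
  | empty => simp [slot_zero]
  | insert a s ha ih => rw [Finset.sum_insert ha, Finset.sum_insert ha, slot_add, ih]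

theorem G_add (t : V q n) (v f g : E n) : G t v (f + g) = G t v f + G t v g := by
  rw [G, G, G, slot_add, inner_add_right]

theorem G_smul (t : V q n) (v f : E n) (a : ℝ) : G t v (a • f) = a * G t v f := by
  rw [G, G, slot_smul, real_inner_smul_right]

theorem G_sub (t : V q n) (v f g : E n) : G t v (f - g) = G t v f - G t v g := by
  have := G_add t v (f - g) g
  rw [sub_add_cancel] at this
  linarith

theorem G_eq_sum (t : V q n) (v f : E n) :
    G t v f = ∑ j : Fin q, T t (Function.update (fun _ => v) j f) := by
  rw [G, slot, inner_sum]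
  rfl

theorem prod_update_norm (v f : E n) (j : Fin q) :
    ∏ i, ‖(Function.update (fun _ => v) j f : Fin q → E n) i‖ = ‖v‖ ^ (q - 1) * ‖f‖ := by
  rw [← Finset.mul_prod_erase Finset.univ _ (Finset.mem_univ j), Function.update_self, mul_comm]
  congr 1
  rw [Finset.prod_congr rfl (g := fun _ => ‖v‖) (fun i hi => by
    rw [Function.update_of_ne (Finset.ne_of_mem_erase hi)])]
  rw [Finset.prod_const, Finset.card_erase_of_mem (Finset.mem_univ j), Finset.card_univ,
    Fintype.card_fin]

theorem abs_G_le {B : ℝ} {t : V q n} (hB : Bdd B t) (v f : E n) :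
    |G t v f| ≤ q * B * ‖v‖ ^ (q - 1) * ‖f‖ := by
  rw [G_eq_sum]
  refine (Finset.abs_sum_le_sum_abs _ _).trans ?_
  refine (Finset.sum_le_sum (g := fun _ => B * (‖v‖ ^ (q - 1) * ‖f‖)) fun j _ => ?_).trans ?_
  · rw [← prod_update_norm v f j]
    exact hB _
  · rw [Finset.sum_const, Finset.card_univ, Fintype.card_fin, nsmul_eq_mul]
    apply le_of_eq
    ring

/-- Homogeneity in the repeated argument. -/
theorem slot_smul_left (v f : E n) (a : ℝ) : slot q (a • v) f = a ^ (q - 1) • slot q v f := by
  rw [slot, slot, Finset.smul_sum]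
  refine Finset.sum_congr rfl fun j _ => ?_
  ext k
  simp only [X, PiLp.smul_apply, smul_eq_mul]
  have key : ∀ z : E n, (∏ i, (Function.update (fun _ => z) j f : Fin q → E n) i (k i))
      = f (k j) * ∏ i ∈ Finset.univ.erase j, z (k i) := by
    intro z
    rw [← Finset.mul_prod_erase Finset.univ _ (Finset.mem_univ j), Function.update_self]
    congr 1
    refine Finset.prod_congr rfl fun i hi => ?_
    rw [Function.update_of_ne (Finset.ne_of_mem_erase hi)]
  rw [key, key]
  simp only [PiLp.smul_apply, smul_eq_mul]
  rw [Finset.prod_mul_distrib, Finset.prod_const, Finset.card_erase_of_mem (Finset.mem_univ j),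
    Finset.card_univ, Fintype.card_fin]
  ring

theorem G_smul_left (t : V q n) (v f : E n) (a : ℝ) : G t (a • v) f = a ^ (q - 1) * G t v f := by
  rw [G, G, slot_smul_left, real_inner_smul_right]

/-- Inner products of slot tensors. -/
theorem inner_slot (v f v' f' : E n) (h' : ⟪f, v'⟫ = 0) :
    ⟪slot q v f, slot q v' f'⟫ = q * ⟪v, v'⟫ ^ (q - 1) * ⟪f, f'⟫ := by
  rw [slot, slot, sum_inner]
  have : ∀ j : Fin q, ⟪X (Function.update (fun _ => v) j f),
      ∑ i : Fin q, X (Function.update (fun _ => v') i f')⟫ = ⟪v, v'⟫ ^ (q - 1) * ⟪f, f'⟫ := by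
    intro j
    rw [inner_sum, Finset.sum_eq_single j]
    · rw [inner_X, ← Finset.mul_prod_erase Finset.univ _ (Finset.mem_univ j),
        Function.update_self, Function.update_self, mul_comm]
      congr 1
      rw [Finset.prod_congr rfl (g := fun _ => ⟪v, v'⟫) (fun i hi => by
        rw [Function.update_of_ne (Finset.ne_of_mem_erase hi),
          Function.update_of_ne (Finset.ne_of_mem_erase hi)])]
      rw [Finset.prod_const, Finset.card_erase_of_mem (Finset.mem_univ j), Finset.card_univ,
        Fintype.card_fin]
    · intro i _ hij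
      rw [inner_X]
      refine Finset.prod_eq_zero (Finset.mem_univ j) ?_
      rw [Function.update_self, Function.update_of_ne (Ne.symm hij)]
      exact h'
    · intro hj
      exact absurd (Finset.mem_univ j) hj
  rw [Finset.sum_congr rfl (fun j _ => this j), Finset.sum_const, Finset.card_univ,
    Fintype.card_fin, nsmul_eq_mul]
  ring

end Pool.Agent.EFP
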