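import Pool.Agent.Lib.EFP.XInner
import Pool.Agent.Lib.EFP.Frame

set_option autoImplicit false

/-!
# EFP.YDefs: symmetrised elementary tensors
-/

namespace Pool.Agent.EFP

open scoped RealInnerProductSpace

/-- The sum of the elementary tensors of all rearrangements of `z`. -/
noncomputable def Yp {q n : ℕ} (z : Fin q → E n) : V q n :=
  ∑ π : Equiv.Perm (Fin q), X (fun j => z (π j))

/-- The sign of a boolean. -/
def sgn (b : Bool) : ℝ := if b then 1 else -1

/-- Standard basis vector of `E k`. -/
noncomputable def bas {k : ℕ} (i : Fin k) : E k := EuclideanSpace.single i 1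

/-- `Yp` is linear in each entry. -/
theorem Yp_update_add {q n : ℕ} (z : Fin q → E n) (i : Fin q) (x y : E n) :
    Yp (Function.update z i (x + y)) = Yp (Function.update z i x) + Yp (Function.update z i y) := by
  rw [Yp, Yp, Yp, ← Finset.sum_add_distrib]
  refine Finset.sum_congr rfl fun π _ => ?_
  have h : ∀ w : E n, (fun j => Function.update z i w (π j)) =
      Function.update (fun j => z (π j)) (π.symm i) w := by
    intro w
    funext j
    by_cases hj : j = π.symm i
    · subst hj; simp
    · rw [Function.update_of_ne hj, Function.update_of_ne]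
      intro h
      exact hj (by rw [← h, Equiv.symm_apply_apply])
  rw [h, h, h]
  exact (XM q n).map_update_add _ _ _ _

theorem Yp_update_smul {q n : ℕ} (z : Fin q → E n) (i : Fin q) (a : ℝ) (x : E n) :
    Yp (Function.update z i (a • x)) = a • Yp (Function.update z i x) := by
  rw [Yp, Yp, Finset.smul_sum]
  refine Finset.sum_congr rfl fun π _ => ?_
  have h : ∀ w : E n, (fun j => Function.update z i w (π j)) =
      Function.update (fun j => z (π j)) (π.symm i) w := by
    intro w
    funext j
    by_cases hj : j = π.symm i
    · subst hj; simp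
    · rw [Function.update_of_ne hj, Function.update_of_ne]
      intro h
      exact hj (by rw [← h, Equiv.symm_apply_apply])
  rw [h, h]
  exact (XM q n).map_update_smul _ _ _ _

theorem Yp_update_sum {q n : ℕ} {ι : Type*} (s : Finset ι) (z : Fin q → E n) (i : Fin q)
    (a : ι → ℝ) (x : ι → E n) :
    Yp (Function.update z i (∑ l ∈ s, a l • x l)) =
      ∑ l ∈ s, a l • Yp (Function.update z i (x l)) := by
  classical
  induction s using Finset.induction_on with
  | empty =>
    have := Yp_update_smul z i 0 0
    simpa using this
  | insert l s hl ih => rw [Finset.sum_insert hl, Finset.sum_insert hl, Yp_update_add,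
      Yp_update_smul, ih]

/-- The indices of the large family: the first `r - 3` basis vectors, then one vector of each of three
blocks of `d` basis vectors. -/
def xi (r d k : ℕ) (h : r - 3 + 3 * d ≤ k) (i : Fin d × Fin d × Fin d) (j : Fin r) :
    Fin k :=
  if _ : (j : ℕ) < r - 3 then ⟨j, by have := i.1.2; omega⟩
  else if (j : ℕ) = r - 3 then ⟨r - 3 + i.1, by have := i.1.2; omega⟩
  else if (j : ℕ) = r - 2 then ⟨r - 3 + d + i.2.1, by have := i.2.1.2; omega⟩
  else ⟨r - 3 + 2 * d + i.2.2, by have := i.2.2.2; omega⟩

/-- The tensors of the large family. -/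
noncomputable def yvec {r n k : ℕ} (d : ℕ) (h : r - 3 + 3 * d ≤ k)
    (A : E k →L[ℝ] E n) (f : E n) (i : Fin d × Fin d × Fin d) : V (r + 1) n :=
  Yp (Fin.cons f fun j => A (bas (xi r d k h i j)))

end Pool.Agent.EFP
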